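import Pool.Agent.Run7.h901.PO.Iface

set_option autoImplicit false

namespace Run7.h901.PO.BFO

open Run7.h901.PO

variable {P : Type} [PartialOrder P]

/-- restriction of an automorphism which preserves the block -/
def res (c : P → P → Prop) (x : P) (g : P ≃o P) (h : ∀ y, Blk c x y ↔ Blk c x (g y)) :
    {y : P // Blk c x y} ≃o {y : P // Blk c x y} where
  toEquiv := g.toEquiv.subtypeEquiv h
  map_rel_iff' := by
    intro a b
    exact g.map_rel_iff

theorem res_apply (c : P → P → Prop) (x : P) (g : P ≃o P) (h : ∀ y, Blk c x y ↔ Blk c x (g y))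
    (a : {y : P // Blk c x y}) : ((res c x g h a : {y : P // Blk c x y}) : P) = g a.1 := rfl

theorem stab (hBAS : S_BAS) (c : P → P → Prop) (hc : Equivalence c) (x : P) (g : P ≃o P)
    (hg : WAut c g) (a a' : P) (ha : Blk c x a) (ha' : Blk c x a') (h : g a = a') :
    ∀ y, Blk c x y ↔ Blk c x (g y) := by
  obtain ⟨_, _, _, _, _, _, _, _, _, hBE, _, _, _, _, _, _, _, hBg, _⟩ := hBAS P c hc
  have hgx : Blk c x (g x) := by
    have h1 : Blk c (g x) (g a) := (hBg g hg x a).1 ha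
    rw [h] at h1
    exact hBE.trans ha' (hBE.symm h1)
  intro y
  constructor
  · intro hy
    exact hBE.trans hgx ((hBg g hg x y).1 hy)
  · intro hy
    exact (hBg g hg x y).2 (hBE.trans (hBE.symm hgx) hy)

theorem piece : S_BAS → S_BFO := by
  intro hBAS P _ c hc x
  have hall := hBAS P c hc
  obtain ⟨hAW, _, _, _, _, _, _, _, _, hBE, _, _, _, _, _, _, _, hBg, _⟩ := hall
  refine ⟨⟨fun a => hc.refl _, fun h => hc.symm h, fun h1 h2 => hc.trans h1 h2⟩, ?_, ?_, ?_⟩
  · rintro ⟨n, f, hf⟩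
    refine ⟨n, fun a b => f a.1 b.1, ?_⟩
    intro a b a' b' hab
    obtain ⟨g, hg, hga, hgb⟩ := hf _ _ _ _ hab
    have hst := stab hBAS c hc x g (hAW g hg) a.1 a'.1 a.2 a'.2 hga
    refine ⟨res c x g hst, ?_, Subtype.ext hga, Subtype.ext hgb⟩
    intro y
    exact hg y.1
  · rintro ⟨n, hn⟩
    refine ⟨n, fun s hs => ?_⟩
    have h1 := hn (s.map (Function.Embedding.subtype _)) (by
      intro a ha b hb hab
      rw [Finset.mem_coe, Finset.mem_map] at ha hb
      obtain ⟨a', ha', rfl⟩ := ha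
      obtain ⟨b', hb', rfl⟩ := hb
      exact hs ha' hb' (fun h => hab (by rw [h])))
    rwa [Finset.card_map] at h1
  · rintro n ⟨f, hf⟩ ⟨u, v, huv⟩
    have hne : ∀ a b : {y : P // Blk c x y}, f a.1 b.1 ≠ f u v := by
      intro a b hab
      obtain ⟨g, hg, hga, hgb⟩ := hf _ _ _ _ hab
      apply huv
      rw [← hga, ← hgb]
      exact (hBg g hg a.1 b.1).1 (hBE.trans (hBE.symm a.2) b.2)
    refine ⟨fun a b => (finSuccAboveEquiv (f u v)).symm ⟨f a.1 b.1, hne a b⟩, ?_⟩
    intro a b a' b' hab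
    have h1 := (finSuccAboveEquiv (f u v)).symm.injective hab
    have h2 : f a.1 b.1 = f a'.1 b'.1 := by
      simpa using h1
    obtain ⟨g, hg, hga, hgb⟩ := hf _ _ _ _ h2
    have hst := stab hBAS c hc x g hg a.1 a'.1 a.2 a'.2 hga
    refine ⟨res c x g hst, ?_, Subtype.ext hga, Subtype.ext hgb⟩
    intro y z
    exact hg y.1 z.1

end Run7.h901.PO.BFO
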