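import Pool.Agent.Run7.h901.PO.Iface

set_option autoImplicit false

namespace Run7.h901.PO.BM

theorem piece : S_BAS → S_BM := by
  intro hB P _ c hc hTr x y x' y' hxy hx'y' hxx' hyy' hnb hle
  obtain ⟨hAW, -, hsymm, -, -, -, -, -, -, hblk, -, -, hicB, -, hcmp, -, -, hbinv, hlast⟩ :=
    hB P c hc
  -- the block relation is invariant under automorphisms
  have hinv : ∀ g : P ≃o P, Aut c g → ∀ u v, Blk c u v ↔ Blk c (g u) (g v) :=
    fun g hg => hbinv g (hAW g hg)
  have hnbm : ∀ p p' : P, Blk c p p' → ∀ g : P ≃o P, Aut c g → ¬ Blk c p (g p) →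
      ¬ Blk c p' (g p') := by
    intro p p' h g hg hn h'
    exact hn (hblk.trans h (hblk.trans h' (hblk.symm ((hinv g hg p p').1 h))))
  have hnsym : ∀ p : P, ∀ g : P ≃o P, Aut c g → ¬ Blk c p (g p) → ¬ Blk c p (g.symm p) := by
    intro p g hg hn h
    apply hn
    have := (hinv g hg p (g.symm p)).1 h
    rw [OrderIso.apply_symm_apply] at this
    exact hblk.symm this
  -- comparability of `p` and `g p`
  have hcg : ∀ p : P, ∀ g : P ≃o P, Aut c g → ¬ Blk c p (g p) → p < g p ∨ g p < p :=
    fun p g hg hn => hcmp p (g p) (hg p) hn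
  have hback : ∀ p : P, ∀ g : P ≃o P, g p ≤ p → p ≤ g.symm p := by
    intro p g h
    have := g.symm.monotone h
    rwa [OrderIso.symm_apply_apply] at this
  have hforw : ∀ p : P, ∀ g : P ≃o P, p ≤ g.symm p → g p ≤ p := by
    intro p g h
    have := g.monotone h
    rwa [OrderIso.apply_symm_apply] at this
  have key : ∀ p p' : P, Blk c p p' → ∀ g : P ≃o P, Aut c g → ¬ Blk c p (g p) → p ≤ g p →
      p' ≤ g p' := by
    intro p p' h
    induction h with
    | refl x => exact fun g _ _ h => h
    | @symm x y hxy ih =>
      intro g hg hn hle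
      have hnx : ¬ Blk c x (g x) := hnbm y x (hblk.symm hxy) g hg hn
      rcases hcg x g hg hnx with h | h
      · exact h.le
      · exfalso
        have h1 := ih g.symm (hsymm g hg) (hnsym x g hg hnx) (hback x g h.le)
        have h2 := hforw y g h1
        have h3 : g y = y := le_antisymm h2 hle
        apply hn
        rw [h3]
        exact hblk.refl y
    | @trans x y z hxy hyz ih1 ih2 =>
      intro g hg hn hle
      exact ih2 g hg (hnbm x y hxy g hg hn) (ih1 g hg hn hle)
    | @ic p p' hcp hinc =>
      intro g hg hn hle
      have hb : Blk c p p' := Blk.ic hcp hinc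
      have hn' : ¬ Blk c p' (g p') := hnbm p p' hb g hg hn
      -- `p'` and `g p` are comparable
      have hc1 : c p' (g p) := hc.trans (hc.symm hcp) (hg p)
      have hnb1 : ¬ Blk c p' (g p) := fun h => hn (hblk.trans hb h)
      have h1 : p' ≤ g p := by
        rcases hcmp p' (g p) hc1 hnb1 with h | h
        · exact h.le
        · exact absurd (hle.trans h.le) hinc.1
      rcases hcg p' g hg hn' with h | h
      · exact h.le
      · exfalso
        have h2 : g p' ≤ g p := h.le.trans h1
        exact hinc.2 (g.le_iff_le.1 h2)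
    | @split x x' z hxx' hcx hd ih =>
      intro g hg hn hle
      have hbz : Blk c z x := Blk.split hxx' hcx hd
      have hnx : ¬ Blk c x (g x) := hnbm z x hbz g hg hn
      rcases hcg x g hg hnx with h | h
      · exact h.le
      · exfalso
        have hx1 : g x ≤ x := h.le
        have hx2 : g x' ≤ x' :=
          hforw x' g (ih g.symm (hsymm g hg) (hnsym x g hg hnx) (hback x g hx1))
        -- `g z` is not in the block of `x`
        have hgz : ¬ Blk c (g z) x := fun h =>
          hn (hblk.trans hbz (hblk.symm h))
        have hzg : ¬ Blk c z (g x) := fun h =>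
          hnx (hblk.trans (hblk.symm hbz) h)
        have hcgx : c (g x) (g x') := hc.trans (hc.symm (hg x)) (hc.trans hcx (hg x'))
        obtain ⟨e1, e2⟩ := hlast (g z) x x' hgz hxx' hcx
        obtain ⟨e3, e4⟩ := hlast z (g x) (g x') hzg ((hinv g hg x x').1 hxx') hcgx
        apply hd
        constructor
        · constructor
          · intro hxz
            -- x ≤ z
            have h1 : x ≤ g z := hxz.trans hle
            have h2 : x' ≤ g z := e1.1 h1
            have h3 : g x' ≤ g z := hx2.trans h2
            exact g.le_iff_le.1 h3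
          · intro hxz
            have h1 : x' ≤ g z := hxz.trans hle
            have h2 : x ≤ g z := e1.2 h1
            exact g.le_iff_le.1 (hx1.trans h2)
        · constructor
          · intro hzx
            -- z ≤ x, so g z ≤ g x, so z ≤ g x
            have h1 : z ≤ g x := hle.trans (g.monotone hzx)
            have h2 : z ≤ g x' := e4.1 h1
            exact h2.trans hx2
          · intro hzx
            have h1 : z ≤ g x' := hle.trans (g.monotone hzx)
            have h2 : z ≤ g x := e4.2 h1
            exact h2.trans hx1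
  obtain ⟨g, hg, hgx⟩ := hTr x y hxy
  subst hgx
  have h1 : x' ≤ g x' := key x x' hxx' g hg hnb hle
  -- `g x'` and `y'` are in one block and of one colour
  have h2 : Blk c (g x') y' := hblk.trans (hblk.symm ((hinv g hg x x').1 hxx')) hyy'
  have h3 : c (g x') y' := hc.trans (hc.symm (hg x')) hx'y'
  have h4 : ¬ Blk c x' (g x') := hnbm x x' hxx' g hg hnb
  exact (hlast x' (g x') y' h4 h2 h3).2.1 h1


end Run7.h901.PO.BM
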