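import Pool.Agent.Run7.h901.PO.Iface

/-!
# MP_b89912_lc (helper901), piece CC2 (helper888)
-/

set_option autoImplicit false

namespace Run7.h901.PO.CC2

theorem piece : S_BAS → S_DIR → S_DIAM → S_CC2 := by
  intro hB hDIR hDIAM P _ c hc hTr hFO hFW x hx hy
  by_contra hcon
  push Not at hcon
  obtain ⟨y0, hy0, hne⟩ := hy
  -- upper and lower bounds of finite sets
  have hup : ∀ X : Finset P, (∀ a ∈ X, c x a) → ∃ t, c x t ∧ ∀ a ∈ X, a ≤ t := by
    classical
    intro X
    induction X using Finset.induction_on with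
    | empty => intro _; exact ⟨x, hc.refl x, by simp⟩
    | insert a s ha ih =>
      intro h
      obtain ⟨t, ht, hts⟩ := ih (fun b hb => h b (Finset.mem_insert_of_mem hb))
      have hxa := h a (Finset.mem_insert_self a s)
      -- a and t are connected by comparability
      have hBP := hB P c hc
      have hcc : Equivalence (cc c) := hBP.2.2.2.2.2.2.2.2.1
      have h1 := hcon a hxa
      have h2 := hcon t ht
      obtain ⟨⟨u, hu, hu1, hu2⟩, _⟩ := hDIR P c hc hTr hFW a t (hcc.trans (hcc.symm h1) h2)
      refine ⟨u, hc.trans hxa hu, ?_⟩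
      intro b hb
      rcases Finset.mem_insert.1 hb with rfl | hb
      · exact hu1
      · exact (hts b hb).trans hu2
  have hlo : ∀ X : Finset P, (∀ a ∈ X, c x a) → ∃ t, c x t ∧ ∀ a ∈ X, t ≤ a := by
    classical
    intro X
    induction X using Finset.induction_on with
    | empty => intro _; exact ⟨x, hc.refl x, by simp⟩
    | insert a s ha ih =>
      intro h
      obtain ⟨t, ht, hts⟩ := ih (fun b hb => h b (Finset.mem_insert_of_mem hb))
      have hxa := h a (Finset.mem_insert_self a s)
      have hBP := hB P c hc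
      have hcc : Equivalence (cc c) := hBP.2.2.2.2.2.2.2.2.1
      have h1 := hcon a hxa
      have h2 := hcon t ht
      obtain ⟨_, ⟨u, hu, hu1, hu2⟩⟩ := hDIR P c hc hTr hFW a t (hcc.trans (hcc.symm h1) h2)
      refine ⟨u, hc.trans hxa hu, ?_⟩
      intro b hb
      rcases Finset.mem_insert.1 hb with rfl | hb
      · exact hu1
      · exact hu2.trans (hts b hb)
  -- an incomparable pair
  have hinc : ∃ p q, c x p ∧ c x q ∧ Inc p q := by
    have h := hx y0 hy0
    rcases Relation.ReflTransGen.cases_head h with h | ⟨z, hz, _⟩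
    · exact absurd h.symm hne
    · exact ⟨x, z, hc.refl x, hz.1, hz.2⟩
  obtain ⟨p0, q0, hp0, hq0, hpq⟩ := hinc
  -- a maximal antichain of the class
  obtain ⟨n, hn⟩ := hFW
  classical
  have hex : ∃ m : ℕ, ∃ X : Finset P, (∀ a ∈ X, c x a) ∧ IsAntichain (· ≤ ·) (X : Set P) ∧
      X.card = m ∧ ∀ Y : Finset P, (∀ a ∈ Y, c x a) → IsAntichain (· ≤ ·) (Y : Set P) →
        Y.card ≤ m := by
    have hS : ∃ m : ℕ, ∀ Y : Finset P, (∀ a ∈ Y, c x a) → IsAntichain (· ≤ ·) (Y : Set P) →
        Y.card ≤ m := ⟨n, fun Y _ h => hn Y h⟩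
    refine ⟨Nat.find hS, ?_⟩
    have h1 := Nat.find_spec hS
    by_contra hno
    push Not at hno
    have h2 : ∀ Y : Finset P, (∀ a ∈ Y, c x a) → IsAntichain (· ≤ ·) (Y : Set P) →
        Y.card ≠ Nat.find hS := by
      intro Y hY1 hY2 hY3
      obtain ⟨Z, hZ1, hZ2, hZ3⟩ := hno Y hY1 hY2 hY3
      exact absurd (h1 Z hZ1 hZ2) (by omega)
    have hpos : 0 < Nat.find hS := by
      have := h1 ∅ (by simp) (by simp)
      have h0 := h2 ∅ (by simp) (by simp)
      simp at h0
      omega
    have h3 := Nat.find_min hS (m := Nat.find hS - 1) (by omega)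
    apply h3
    intro Y hY1 hY2
    have := h1 Y hY1 hY2
    have := h2 Y hY1 hY2
    omega
  obtain ⟨m, X, hX1, hX2, hX3, hX4⟩ := hex
  have hm2 : 2 ≤ m := by
    have hne' : p0 ≠ q0 := by
      rintro rfl
      exact hpq.1 le_rfl
    have := hX4 {p0, q0} (by
      intro a ha
      rcases Finset.mem_insert.1 ha with rfl | ha
      · exact hp0
      · rw [Finset.mem_singleton.1 ha]; exact hq0) (by
      rw [Finset.coe_insert, Finset.coe_singleton]
      intro a ha b hb hab
      rcases ha with rfl | ha <;> rcases hb with rfl | hb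
      · exact absurd rfl hab
      · rw [Set.mem_singleton_iff.1 hb]; exact hpq.1
      · rw [Set.mem_singleton_iff.1 ha]; exact hpq.2
      · rw [Set.mem_singleton_iff.1 ha, Set.mem_singleton_iff.1 hb] at hab
        exact absurd rfl hab)
    rwa [Finset.card_pair hne'] at this
  obtain ⟨t, ht, htX⟩ := hup X hX1
  obtain ⟨s, hs, hsX⟩ := hlo X hX1
  have hXne : X.Nonempty := by
    rw [← Finset.card_pos]; omega
  have hst : s ≤ t := by
    obtain ⟨a, ha⟩ := hXne
    exact (hsX a ha).trans (htX a ha)
  have hsnt : s ≠ t := by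
    intro h
    have hall : ∀ a ∈ X, a = s := fun a ha =>
      le_antisymm (h ▸ htX a ha) (hsX a ha)
    have : X.card ≤ 1 := Finset.card_le_one.2 (fun a ha b hb => by rw [hall a ha, hall b hb])
    omega
  -- the class of s
  have hxs : ∀ y, c x y → ic c x y := hx
  rcases hDIAM P c hc hTr hFO x hxs s t hs ht with h | h | ⟨w, hw, hw1, hw2⟩
  · exact hsnt h
  · exact h.1 hst
  · -- w is comparable to an element of X
    have hwX : ∃ p ∈ X, w ≤ p ∨ p ≤ w := by
      by_contra hno
      push Not at hno
      have hwn : w ∉ X := fun h => (hno w h).1 le_rfl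
      have h1 : IsAntichain (· ≤ ·) ((insert w X : Finset P) : Set P) := by
        rw [Finset.coe_insert]
        intro a ha b hb hab
        rcases ha with rfl | ha <;> rcases hb with rfl | hb
        · exact absurd rfl hab
        · exact (hno b hb).1
        · exact (hno a ha).2
        · exact hX2 ha hb hab
      have h2 := hX4 (insert w X) (by
        intro a ha
        rcases Finset.mem_insert.1 ha with rfl | ha
        · exact hw
        · exact hX1 a ha) h1
      rw [Finset.card_insert_of_notMem hwn] at h2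
      omega
    obtain ⟨p, hp, h | h⟩ := hwX
    · exact hw2.1 (h.trans (htX p hp))
    · exact hw1.1 ((hsX p hp).trans h)

end Run7.h901.PO.CC2
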