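import Pool.Agent.Run7.h901.PO.Iface

set_option autoImplicit false

/-! The piece CTRL (helper277). -/

namespace Run7.h901.PO.CTRL

variable {P : Type} [PartialOrder P] {c : P → P → Prop}

/-- the class of `a` has another element -/
def Big (c : P → P → Prop) (a : P) : Prop := ∃ b, c a b ∧ b ≠ a

/-- invariant relations -/
def Inv (c : P → P → Prop) (R : P → P → Prop) : Prop :=
  ∀ g : P ≃o P, Aut c g → ∀ x y, R x y → R (g x) (g y)

/-- controlled relations -/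
structure Ctrl (c : P → P → Prop) (R : P → P → Prop) : Prop where
  small : ∀ x y, (R x y ∨ R y x) → ¬ Big c x → y = x
  low : ∀ a v, Big c a → Big c v → ∃ b, c v b ∧
    ∀ x y, c a x → c v y → (R x y ∨ R y x) → y ≤ b → x < a

/-- the facts which are used -/
structure E (c : P → P → Prop) : Prop where
  eqv : Equivalence c
  tr : Tr c
  good : Good c
  sy : ∀ g, Aut c g → Aut c g.symm
  ice : Equivalence (ic c)
  icc : ∀ x y, ic c x y → c x y
  cmp : ∀ x y, c x y → ¬ ic c x y → x < y ∨ y < x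
  inv : ∀ g, Aut c g → ∀ x y, ic c x y ↔ ic c (g x) (g y)
  ia : ∀ x y z, c x y → c x z → x ≤ y → y ≤ z → ic c x z → ic c x y ∧ ic c y z
  ib : ∀ x y x' y', c x y → x ≤ y → ¬ ic c x y → ic c x x' → ic c y y' → x' ≤ y'

theorem E.big (h : E c) {u v : P} (hu : Big c u) (huv : c u v) : Big c v := by
  by_cases e : u = v
  · rw [← e]; exact hu
  · exact ⟨u, h.eqv.symm huv, e⟩

theorem E.low0 (h : E c) {a : P} (ha : Big c a) : ∃ b, c a b ∧ b < a ∧ ¬ ic c b a := by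
  obtain ⟨b, hb, hne⟩ := ha
  obtain ⟨z, hz, hiz⟩ := h.good a b hb (Ne.symm hne)
  rcases h.cmp a z hz hiz with h1 | h1
  · obtain ⟨g, hg, hgz⟩ := h.tr z a (h.eqv.symm hz)
    refine ⟨g a, hg a, ?_, ?_⟩
    · have := g.lt_iff_lt.mpr h1
      rwa [hgz] at this
    · intro h2
      apply hiz
      rw [h.inv g hg, hgz]
      exact h2
  · exact ⟨z, hz, h1, fun h2 => hiz (h.ice.symm h2)⟩

theorem E.dag (h : E c) {a b : P} (hab : c a b) (hlt : b < a) (hic : ¬ ic c b a) {z : P}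
    (hz : c a z) (hbz : ¬ b ≤ z) : z < a := by
  by_cases h1 : ic c b z
  · have h2 : z ≤ a := h.ib b a z a (h.eqv.symm hab) hlt.le hic h1 (h.ice.refl a)
    refine lt_of_le_of_ne h2 ?_
    rintro rfl
    exact hic h1
  · rcases h.cmp b z (h.eqv.trans (h.eqv.symm hab) hz) h1 with h2 | h2
    · exact absurd h2.le hbz
    · exact h2.trans hlt

theorem E.low1 (h : E c) {a : P} (ha : Big c a) : ∃ b, c a b ∧ b < a ∧
    ∀ z, c a z → ¬ b ≤ z → z < a := by
  obtain ⟨b, h1, h2, h3⟩ := h.low0 ha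
  exact ⟨b, h1, h2, fun z hz hbz => h.dag h1 h2 h3 hz hbz⟩

theorem E.lb (h : E c) {u v : P} (hu : Big c u) (huv : c u v) : ∃ b, c u b ∧ b ≤ u ∧ b ≤ v := by
  by_cases h1 : ic c u v
  · obtain ⟨b, h2, h3, h4⟩ := h.low0 hu
    exact ⟨b, h2, h3.le, h.ib b u b v (h.eqv.symm h2) h3.le h4 (h.ice.refl b) h1⟩
  · rcases h.cmp u v huv h1 with h2 | h2
    · exact ⟨u, h.eqv.refl u, le_rfl, h2.le⟩
    · exact ⟨v, huv, h2.le, le_rfl⟩

theorem E.lbs (h : E c) {ι : Type*} {v : P} (hv : Big c v) (b : ι → P) (hb : ∀ i, c v (b i))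
    (s : Finset ι) : ∃ b0, c v b0 ∧ ∀ i ∈ s, b0 ≤ b i := by
  classical
  induction s using Finset.induction_on with
  | empty => exact ⟨v, h.eqv.refl v, by simp⟩
  | insert i s _ ih =>
    obtain ⟨b0, h1, h2⟩ := ih
    obtain ⟨b1, h3, h4, h5⟩ := h.lb (h.big hv h1) (h.eqv.trans (h.eqv.symm h1) (hb i))
    refine ⟨b1, h.eqv.trans h1 h3, ?_⟩
    intro j hj
    rcases Finset.mem_insert.mp hj with rfl | hj
    · exact h5
    · exact h4.trans (h2 j hj)

theorem E.fin (h : E c) {ι : Type*} [Finite ι] {v : P} (hv : Big c v) (Q : ι → P → Prop)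
    (anti : ∀ i b b', b' ≤ b → Q i b → Q i b') (hQ : ∀ i, ∃ b, c v b ∧ Q i b) :
    ∃ b, c v b ∧ ∀ i, Q i b := by
  classical
  haveI := Fintype.ofFinite ι
  choose b hb hQb using hQ
  obtain ⟨b0, h1, h2⟩ := h.lbs hv b hb Finset.univ
  exact ⟨b0, h1, fun i => anti i _ _ (h2 i (Finset.mem_univ i)) (hQb i)⟩

theorem E.two (h : E c) {v : P} (hv : Big c v) (Q1 Q2 : P → Prop)
    (a1 : ∀ b b', b' ≤ b → Q1 b → Q1 b') (a2 : ∀ b b', b' ≤ b → Q2 b → Q2 b')
    (h1 : ∃ b, c v b ∧ Q1 b) (h2 : ∃ b, c v b ∧ Q2 b) : ∃ b, c v b ∧ Q1 b ∧ Q2 b := by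
  obtain ⟨b1, h3, h4⟩ := h1
  obtain ⟨b2, h5, h6⟩ := h2
  obtain ⟨b, h7, h8, h9⟩ := h.lb (h.big hv h3) (h.eqv.trans (h.eqv.symm h3) h5)
  exact ⟨b, h.eqv.trans h3 h7, a1 _ _ h8 h4, a2 _ _ h9 h6⟩

/-! ### the constructors -/

theorem ctrl_eq (h : E c) : Ctrl c (fun x y => x = y) := by
  refine ⟨?_, ?_⟩
  · rintro x y (h1 | h1) _
    · exact h1.symm
    · exact h1
  · intro a v ha hv
    by_cases hav : c a v
    · obtain ⟨b, h1, h2, _⟩ := h.low0 ha
      refine ⟨b, h.eqv.trans (h.eqv.symm hav) h1, ?_⟩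
      intro x y _ _ h5 h6
      have h7 : x = y := by
        rcases h5 with h5 | h5
        · exact h5
        · exact h5.symm
      rw [h7]
      exact lt_of_le_of_lt h6 h2
    · refine ⟨v, h.eqv.refl v, ?_⟩
      intro x y h3 h4 h5 _
      exfalso
      have h7 : x = y := by
        rcases h5 with h5 | h5
        · exact h5
        · exact h5.symm
      apply hav
      rw [← h7] at h4
      exact h.eqv.trans h3 (h.eqv.symm h4)

theorem ctrl_inc (h : E c) : Ctrl c (fun x y => c x y ∧ Inc x y) := by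
  refine ⟨?_, ?_⟩
  · rintro x y (h1 | h1) h2
    · by_contra h3
      exact h2 ⟨y, h1.1, h3⟩
    · by_contra h3
      exact h2 ⟨y, h.eqv.symm h1.1, h3⟩
  · intro a v ha hv
    by_cases hav : c a v
    · obtain ⟨b, h1, h2, h2'⟩ := h.low0 ha
      refine ⟨b, h.eqv.trans (h.eqv.symm hav) h1, ?_⟩
      intro x y h3 h4 h5 h6
      have h7 : ic c y x := by
        apply Relation.ReflTransGen.single
        rcases h5 with h5 | h5
        · exact ⟨h.eqv.symm h5.1, h5.2.2, h5.2.1⟩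
        · exact ⟨h5.1, h5.2⟩
      have hya : c y a := h.eqv.symm (h.eqv.trans hav h4)
      have hyb : c y b := h.eqv.trans hya h1
      have h8 : ¬ ic c y a := by
        intro h8
        exact h2' (h.ia y b a hyb hya h6 h2.le h8).2
      have h9 : x ≤ a := h.ib y a x a hya (h6.trans h2.le) h8 h7 (h.ice.refl a)
      refine lt_of_le_of_ne h9 ?_
      rintro rfl
      exact h8 h7
    · refine ⟨v, h.eqv.refl v, ?_⟩
      intro x y h3 h4 h5 _
      exfalso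
      apply hav
      rcases h5 with h5 | h5
      · exact h.eqv.trans h3 (h.eqv.trans h5.1 (h.eqv.symm h4))
      · exact h.eqv.trans h3 (h.eqv.trans (h.eqv.symm h5.1) (h.eqv.symm h4))

theorem ctrl_symm {R : P → P → Prop} (h : Ctrl c R) : Ctrl c (fun x y => R y x) := by
  refine ⟨fun x y h1 h2 => h.small x y h1.symm h2, ?_⟩
  intro a v ha hv
  obtain ⟨b, h1, h2⟩ := h.low a v ha hv
  exact ⟨b, h1, fun x y h3 h4 h5 h6 => h2 x y h3 h4 h5.symm h6⟩

theorem comp_aux (h : E c) (hf : FO c) {R R' : P → P → Prop} (h1 : Ctrl c R) (h2 : Ctrl c R')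
    {a v : P} (ha : Big c a) (hv : Big c v) : ∃ b, c v b ∧
      ∀ x z y, c a x → c v y → (R x z ∨ R z x) → (R' z y ∨ R' y z) → y ≤ b → x < a := by
  obtain ⟨n, f, hf⟩ := hf
  obtain ⟨b, hb, hQ⟩ := h.fin hv (fun (i : Fin n) (b : P) => ∀ x z y, f z z = i → c a x → c v y →
    (R x z ∨ R z x) → (R' z y ∨ R' y z) → y ≤ b → x < a)
    (fun i b b' hbb h3 x z y e1 e2 e3 e4 e5 e6 => h3 x z y e1 e2 e3 e4 e5 (e6.trans hbb)) (by
      intro i
      by_cases hi : ∃ z0, f z0 z0 = i ∧ Big c z0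
      · obtain ⟨z0, hz0, hbz⟩ := hi
        obtain ⟨b1, hb1, hb1'⟩ := h1.low a z0 ha hbz
        obtain ⟨b2, hb2, hb2'⟩ := h2.low b1 v (h.big hbz hb1) hv
        refine ⟨b2, hb2, ?_⟩
        intro x z y e1 e2 e3 e4 e5 e6
        obtain ⟨g, hg, hg1, _⟩ := hf z0 z0 z z (hz0.trans e1.symm)
        have hz : c z0 z := by
          have := hg z0
          rwa [hg1] at this
        have h3 : z < b1 := hb2' z y (h.eqv.trans (h.eqv.symm hb1) hz) e3 e5 e6
        exact hb1' x z e2 hz e4 h3.le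
      · refine ⟨v, h.eqv.refl v, ?_⟩
        intro x z y e1 e2 e3 e4 e5 e6
        exfalso
        have hnz : ¬ Big c z := fun hz => hi ⟨z, e1, hz⟩
        have h3 : x = z := h1.small z x e4.symm hnz
        apply hnz
        rw [← h3]
        exact h.big ha e2)
  exact ⟨b, hb, fun x z y e2 e3 e4 e5 e6 => hQ (f z z) x z y rfl e2 e3 e4 e5 e6⟩

theorem ctrl_comp (h : E c) (hf : FO c) {R R' : P → P → Prop} (h1 : Ctrl c R) (h2 : Ctrl c R') :
    Ctrl c (fun x y => ∃ z, R x z ∧ R' z y) := by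
  refine ⟨?_, ?_⟩
  · rintro x y (⟨z, h3, h4⟩ | ⟨z, h3, h4⟩) h5
    · have h6 := h1.small x z (Or.inl h3) h5
      subst h6
      exact h2.small _ _ (Or.inl h4) h5
    · have h6 := h2.small x z (Or.inr h4) h5
      subst h6
      exact h1.small _ _ (Or.inr h3) h5
  · intro a v ha hv
    obtain ⟨b, hb, h3, h4⟩ := h.two hv
      (fun b => ∀ x z y, c a x → c v y → (R x z ∨ R z x) → (R' z y ∨ R' y z) → y ≤ b → x < a)
      (fun b => ∀ x z y, c a x → c v y → (R' x z ∨ R' z x) → (R z y ∨ R y z) → y ≤ b → x < a)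
      (fun b b' hbb h3 x z y e2 e3 e4 e5 e6 => h3 x z y e2 e3 e4 e5 (e6.trans hbb))
      (fun b b' hbb h3 x z y e2 e3 e4 e5 e6 => h3 x z y e2 e3 e4 e5 (e6.trans hbb))
      (comp_aux h hf h1 h2 ha hv) (comp_aux h hf h2 h1 ha hv)
    refine ⟨b, hb, ?_⟩
    rintro x y e1 e2 (⟨z, e3, e4⟩ | ⟨z, e3, e4⟩) e5
    · exact h3 x z y e1 e2 (Or.inl e3) (Or.inl e4) e5
    · exact h4 x z y e1 e2 (Or.inr e4) (Or.inr e3) e5

/-- the relation of the constructor `split` -/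
def Sp (c R : P → P → Prop) (z x : P) : Prop := ∃ x', R x x' ∧ c x x' ∧ Differs z x x'

theorem move (h : E c) {u v w : P} (huv : c u v) : ∃ g : P ≃o P, Aut c g ∧ g u = v := h.tr u v huv

/-- direction 1: `x` low implies `z` low -/
theorem split1 (h : E c) {R : P → P → Prop} (h1 : Ctrl c R) {a v : P} (ha : Big c a)
    (hv : Big c v) : ∃ b, c v b ∧ ∀ z x x', c a z → c v x → c x x' → R x x' → Differs z x x' →
      x ≤ b → z < a := by
  obtain ⟨a1, hc1, hlt1, hd1⟩ := h.low1 ha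
  -- `b` for a given `a'`
  have key : ∀ a', c v a' → ∃ b, c v b ∧ ∀ x x', c v x → c x x' → R x x' → x ≤ b →
      x ≤ a' ∧ x' ≤ a' := by
    intro a' ha'
    obtain ⟨b1, hb1, hb1'⟩ := h1.low a' v (h.big hv ha') hv
    obtain ⟨b, hb, hb2, hb3⟩ := h.lb (h.big hv hb1) (h.eqv.trans (h.eqv.symm hb1) ha')
    refine ⟨b, h.eqv.trans hb1 hb, ?_⟩
    intro x x' e1 e2 e3 e4
    exact ⟨e4.trans hb3, (hb1' x' x (h.eqv.trans (h.eqv.symm ha') (h.eqv.trans e1 e2)) e1
      (Or.inr e3) (e4.trans hb2)).le⟩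
  obtain ⟨b, hb, h3, h4⟩ := h.two hv
    (fun b => ∀ z x x', c a z → c v x → c x x' → R x x' → ¬ (x ≤ z ↔ x' ≤ z) → x ≤ b → z < a)
    (fun b => ∀ z x x', c a z → c v x → c x x' → R x x' → ¬ (z ≤ x ↔ z ≤ x') → x ≤ b → z < a)
    (fun b b' hbb h3 z x x' e2 e3 e4 e5 e6 e7 => h3 z x x' e2 e3 e4 e5 e6 (e7.trans hbb))
    (fun b b' hbb h3 z x x' e2 e3 e4 e5 e6 e7 => h3 z x x' e2 e3 e4 e5 e6 (e7.trans hbb))
    (by
      by_cases hex : ∃ z x, c a z ∧ c v x ∧ x ≤ z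
      · obtain ⟨z0, x0, k1, k2, k3⟩ := hex
        obtain ⟨g, hg, hgz⟩ := h.tr z0 a1 (h.eqv.trans (h.eqv.symm k1) hc1)
        have k4 : g x0 ≤ a1 := by
          rw [← hgz]; exact g.le_iff_le.mpr k3
        obtain ⟨b, hb, hb'⟩ := key (g x0) (h.eqv.trans k2 (hg x0))
        refine ⟨b, hb, ?_⟩
        intro z x x' e2 e3 e4 e5 e6 e7
        obtain ⟨k5, k6⟩ := hb' x x' e3 e4 e5 e7
        apply hd1 z e2
        intro k7
        exact e6 ⟨fun _ => (k6.trans k4).trans k7, fun _ => (k5.trans k4).trans k7⟩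
      · refine ⟨v, h.eqv.refl v, ?_⟩
        intro z x x' e2 e3 e4 e5 e6 e7
        exfalso
        apply e6
        exact ⟨fun k => absurd ⟨z, x, e2, e3, k⟩ hex,
          fun k => absurd ⟨z, x', e2, h.eqv.trans e3 e4, k⟩ hex⟩)
    (by
      by_cases hex : ∃ z x, c a z ∧ c v x ∧ ¬ z ≤ x
      · obtain ⟨z0, x0, k1, k2, k3⟩ := hex
        obtain ⟨g, hg, hgz⟩ := h.tr z0 a1 (h.eqv.trans (h.eqv.symm k1) hc1)
        have k4 : ¬ a1 ≤ g x0 := by
          rw [← hgz]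
          intro k
          exact k3 (g.le_iff_le.mp k)
        obtain ⟨b, hb, hb'⟩ := key (g x0) (h.eqv.trans k2 (hg x0))
        refine ⟨b, hb, ?_⟩
        intro z x x' e2 e3 e4 e5 e6 e7
        obtain ⟨k5, k6⟩ := hb' x x' e3 e4 e5 e7
        apply hd1 z e2
        intro k7
        have k8 : z ≤ x ∨ z ≤ x' := by
          by_contra k8
          push Not at k8
          exact e6 ⟨fun k => absurd k k8.1, fun k => absurd k k8.2⟩
        rcases k8 with k8 | k8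
        · exact k4 (k7.trans (k8.trans k5))
        · exact k4 (k7.trans (k8.trans k6))
      · refine ⟨v, h.eqv.refl v, ?_⟩
        intro z x x' e2 e3 e4 e5 e6 e7
        exfalso
        push Not at hex
        exact e6 ⟨fun _ => hex z x' e2 (h.eqv.trans e3 e4), fun _ => hex z x e2 e3⟩)
  refine ⟨b, hb, ?_⟩
  intro z x x' e2 e3 e4 e5 e6 e7
  unfold Differs at e6
  by_cases e8 : (x ≤ z ↔ x' ≤ z)
  · exact h4 z x x' e2 e3 e4 e5 (fun e9 => e6 ⟨e8, e9⟩) e7
  · exact h3 z x x' e2 e3 e4 e5 e8 e7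

/-- direction 2: `z` low implies `x` low -/
theorem split2 (h : E c) {R : P → P → Prop} (h1 : Ctrl c R) {a v : P} (ha : Big c a)
    (hv : Big c v) : ∃ b, c v b ∧ ∀ z x x', c v z → c a x → c x x' → R x x' → Differs z x x' →
      z ≤ b → x < a := by
  -- `a'`
  have key : ∃ a', c a a' ∧ ∀ x x', c a x → c x x' → R x x' → (x ≤ a' ∨ x' ≤ a') → x < a := by
    obtain ⟨a2, hc2, hlt2, _⟩ := h.low1 ha
    obtain ⟨b1, hb1, hb1'⟩ := h1.low a a ha ha
    obtain ⟨b, hb, hb2, hb3⟩ := h.lb (h.big ha hb1) (h.eqv.trans (h.eqv.symm hb1) hc2)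
    refine ⟨b, h.eqv.trans hb1 hb, ?_⟩
    rintro x x' e1 e2 e3 (e4 | e4)
    · exact lt_of_le_of_lt (e4.trans hb3) hlt2
    · exact hb1' x x' e1 (h.eqv.trans e1 e2) (Or.inl e3) (e4.trans hb2)
  obtain ⟨a', hca', ha'⟩ := key
  obtain ⟨a1, hc1, hlt1, hd1⟩ := h.low1 (h.big ha hca')
  obtain ⟨b, hb, h3, h4⟩ := h.two hv
    (fun b => ∀ z x x', c v z → c a x → c x x' → R x x' → ¬ (x ≤ z ↔ x' ≤ z) → z ≤ b → x < a)
    (fun b => ∀ z x x', c v z → c a x → c x x' → R x x' → ¬ (z ≤ x ↔ z ≤ x') → z ≤ b → x < a)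
    (fun b b' hbb h3 z x x' e2 e3 e4 e5 e6 e7 => h3 z x x' e2 e3 e4 e5 e6 (e7.trans hbb))
    (fun b b' hbb h3 z x x' e2 e3 e4 e5 e6 e7 => h3 z x x' e2 e3 e4 e5 e6 (e7.trans hbb))
    (by
      by_cases hex : ∃ z x, c v z ∧ c a x ∧ ¬ x ≤ z
      · obtain ⟨z0, x0, k1, k2, k3⟩ := hex
        obtain ⟨g, hg, hgx⟩ := h.tr x0 a1 (h.eqv.trans (h.eqv.symm k2) (h.eqv.trans hca' hc1))
        have k4 : ¬ a1 ≤ g z0 := by
          rw [← hgx]
          intro k
          exact k3 (g.le_iff_le.mp k)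
        refine ⟨g z0, h.eqv.trans k1 (hg z0), ?_⟩
        intro z x x' e2 e3 e4 e5 e6 e7
        have k8 : x ≤ z ∨ x' ≤ z := by
          by_contra k8
          push Not at k8
          exact e6 ⟨fun k => absurd k k8.1, fun k => absurd k k8.2⟩
        have cx : c a' x := h.eqv.trans (h.eqv.symm hca') e3
        apply ha' x x' e3 e4 e5
        rcases k8 with k8 | k8
        · left
          exact (hd1 x cx (fun k => k4 (k.trans (k8.trans e7)))).le
        · right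
          exact (hd1 x' (h.eqv.trans cx e4) (fun k => k4 (k.trans (k8.trans e7)))).le
      · refine ⟨v, h.eqv.refl v, ?_⟩
        intro z x x' e2 e3 e4 e5 e6 e7
        exfalso
        push Not at hex
        exact e6 ⟨fun _ => hex z x' e2 (h.eqv.trans e3 e4), fun _ => hex z x e2 e3⟩)
    (by
      by_cases hex : ∃ z x, c v z ∧ c a x ∧ z ≤ x
      · obtain ⟨z0, x0, k1, k2, k3⟩ := hex
        obtain ⟨g, hg, hgx⟩ := h.tr x0 a1 (h.eqv.trans (h.eqv.symm k2) (h.eqv.trans hca' hc1))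
        have k4 : g z0 ≤ a1 := by
          rw [← hgx]; exact g.le_iff_le.mpr k3
        refine ⟨g z0, h.eqv.trans k1 (hg z0), ?_⟩
        intro z x x' e2 e3 e4 e5 e6 e7
        have k8 : ¬ z ≤ x ∨ ¬ z ≤ x' := by
          by_contra k8
          push Not at k8
          exact e6 ⟨fun _ => k8.2, fun _ => k8.1⟩
        have cx : c a' x := h.eqv.trans (h.eqv.symm hca') e3
        apply ha' x x' e3 e4 e5
        rcases k8 with k8 | k8
        · left
          exact (hd1 x cx (fun k => k8 ((e7.trans k4).trans k))).le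
        · right
          exact (hd1 x' (h.eqv.trans cx e4) (fun k => k8 ((e7.trans k4).trans k))).le
      · refine ⟨v, h.eqv.refl v, ?_⟩
        intro z x x' e2 e3 e4 e5 e6 e7
        exfalso
        apply e6
        exact ⟨fun k => absurd ⟨z, x, e2, e3, k⟩ hex,
          fun k => absurd ⟨z, x', e2, h.eqv.trans e3 e4, k⟩ hex⟩)
  refine ⟨b, hb, ?_⟩
  intro z x x' e2 e3 e4 e5 e6 e7
  unfold Differs at e6
  by_cases e8 : (x ≤ z ↔ x' ≤ z)
  · exact h4 z x x' e2 e3 e4 e5 (fun e9 => e6 ⟨e8, e9⟩) e7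
  · exact h3 z x x' e2 e3 e4 e5 e8 e7

theorem ctrl_split (h : E c) {R : P → P → Prop} (h1 : Ctrl c R) : Ctrl c (Sp c R) := by
  refine ⟨?_, ?_⟩
  · rintro z x (⟨x', e1, e2, e3⟩ | ⟨x', e1, e2, e3⟩) h5
    · exfalso
      obtain ⟨g, hg, hgx⟩ := h.tr x x' e2
      have hgz : g z = z := by
        by_contra k
        exact h5 ⟨g z, hg z, k⟩
      apply e3
      constructor
      · rw [← hgx]
        conv_rhs => rw [← hgz]
        exact g.le_iff_le.symm
      · rw [← hgx]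
        conv_rhs => rw [← hgz]
        exact g.le_iff_le.symm
    · exfalso
      have k : x' = z := by
        by_contra k
        exact h5 ⟨x', e2, k⟩
      subst k
      exact e3 ⟨Iff.rfl, Iff.rfl⟩
  · intro a v ha hv
    obtain ⟨b, hb, h3, h4⟩ := h.two hv
      (fun b => ∀ z x x', c a z → c v x → c x x' → R x x' → Differs z x x' → x ≤ b → z < a)
      (fun b => ∀ z x x', c v z → c a x → c x x' → R x x' → Differs z x x' → z ≤ b → x < a)
      (fun b b' hbb h3 z x x' e2 e3 e4 e5 e6 e7 => h3 z x x' e2 e3 e4 e5 e6 (e7.trans hbb))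
      (fun b b' hbb h3 z x x' e2 e3 e4 e5 e6 e7 => h3 z x x' e2 e3 e4 e5 e6 (e7.trans hbb))
      (split1 h h1 ha hv) (split2 h h1 ha hv)
    refine ⟨b, hb, ?_⟩
    rintro X Y e1 e2 (⟨x', k1, k2, k3⟩ | ⟨x', k1, k2, k3⟩) e5
    · exact h3 X Y x' e1 e2 k2 k1 k3 e5
    · exact h4 Y X x' e2 e1 k2 k1 k3 e5

/-! ### the conclusion -/

theorem blk_sub (h : E c) (hf : FO c) {x y : P} (hb : Blk c x y) :
    ∃ R : P → P → Prop, Inv c R ∧ Ctrl c R ∧ R x y := by
  induction hb with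
  | refl x => exact ⟨fun x y => x = y, fun g _ x y e => congrArg g e, ctrl_eq h, rfl⟩
  | symm _ ih =>
    obtain ⟨R, h1, h2, h3⟩ := ih
    exact ⟨fun x y => R y x, fun g hg x y e => h1 g hg y x e, ctrl_symm h2, h3⟩
  | trans _ _ ih1 ih2 =>
    obtain ⟨R, h1, h2, h3⟩ := ih1
    obtain ⟨R', h1', h2', h3'⟩ := ih2
    refine ⟨fun x y => ∃ z, R x z ∧ R' z y, ?_, ctrl_comp h hf h2 h2', ⟨_, h3, h3'⟩⟩
    rintro g hg x y ⟨z, e1, e2⟩
    exact ⟨g z, h1 g hg _ _ e1, h1' g hg _ _ e2⟩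
  | ic h1 h2 =>
    refine ⟨fun x y => c x y ∧ Inc x y, ?_, ctrl_inc h, h1, h2⟩
    rintro g hg x y ⟨e1, e2, e3⟩
    refine ⟨h.eqv.trans (h.eqv.symm (hg x)) (h.eqv.trans e1 (hg y)), ?_, ?_⟩
    · exact fun k => e2 (g.le_iff_le.mp k)
    · exact fun k => e3 (g.le_iff_le.mp k)
  | split _ h1 h2 ih =>
    obtain ⟨R, h3, h4, h5⟩ := ih
    refine ⟨Sp c R, ?_, ctrl_split h h4, ⟨_, h5, h1, h2⟩⟩
    rintro g hg z x ⟨x', e1, e2, e3⟩
    refine ⟨g x', h3 g hg _ _ e1,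
      h.eqv.trans (h.eqv.symm (hg x)) (h.eqv.trans e2 (hg x')), ?_⟩
    intro k
    apply e3
    simpa only [OrderIso.le_iff_le] using k

theorem inv_finite (h : E c) (hf : FO c) : Finite {R : P → P → Prop // Inv c R} := by
  obtain ⟨n, f, hf⟩ := hf
  refine Finite.of_injective
    (fun R : {R : P → P → Prop // Inv c R} => {i : Fin n | ∃ x y, f x y = i ∧ R.1 x y}) ?_
  intro R R' e
  have aux : ∀ R R' : {R : P → P → Prop // Inv c R},
      {i : Fin n | ∃ x y, f x y = i ∧ R.1 x y} = {i : Fin n | ∃ x y, f x y = i ∧ R'.1 x y} →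
      ∀ x y, R.1 x y → R'.1 x y := by
    intro R R' e x y hxy
    have h1 : f x y ∈ {i : Fin n | ∃ x y, f x y = i ∧ R.1 x y} := ⟨x, y, rfl, hxy⟩
    rw [e] at h1
    obtain ⟨x', y', h2, h3⟩ := h1
    obtain ⟨g, hg, hg1, hg2⟩ := hf x' y' x y h2
    have := R'.2 g hg _ _ h3
    rwa [hg1, hg2] at this
  apply Subtype.ext
  funext x y
  exact propext ⟨aux R R' e x y, aux R' R e.symm x y⟩

theorem piece : S_BAS → S_ICC → S_CTRL := by
  intro hB hI P _ c he ht hf hg hne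
  obtain ⟨b1, b2, b3, b4, b5, b6, b7, b8, b9, b10, b11, b12, b13, b14, b15, b16, b17, b18, b19⟩ :=
    hB P c he
  obtain ⟨i1, i2⟩ := hI P c he
  have h : E c := ⟨he, ht, hg, b3, b8, b11, b14, fun g hg => b16 g (b1 g hg), i1, i2⟩
  obtain ⟨a, a', haa', hne⟩ := hne
  have ha : Big c a := ⟨a', haa', Ne.symm hne⟩
  haveI := inv_finite h hf
  obtain ⟨b, hb, hQ⟩ := h.fin ha
    (fun (R : {R : P → P → Prop // Inv c R}) (b : P) => Ctrl c R.1 →
      ∀ x y, c a x → c a y → (R.1 x y ∨ R.1 y x) → y ≤ b → x < a)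
    (fun R b b' hbb h3 e1 x y e2 e3 e4 e5 => h3 e1 x y e2 e3 e4 (e5.trans hbb))
    (by
      intro R
      by_cases hR : Ctrl c R.1
      · obtain ⟨b, hb, hb'⟩ := hR.low a a ha ha
        exact ⟨b, hb, fun _ => hb'⟩
      · exact ⟨a, he.refl a, fun k => absurd k hR⟩)
  refine ⟨a, b, ?_⟩
  intro hab
  obtain ⟨R, h1, h2, h3⟩ := blk_sub h hf hab
  exact lt_irrefl a (hQ ⟨R, h1⟩ h2 a b (he.refl a) hb (Or.inl h3) le_rfl)

end Run7.h901.PO.CTRL
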