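import Pool.Agent.Run7.h901.PO.Iface

/-!
# Piece DIAM (helper267)
-/

set_option autoImplicit false

namespace Run7.h901.PO.DIAM

open Run7.h901.PO

section
variable {P : Type} [PartialOrder P]

/-- paths of length `n` of incomparable elements of one colour -/
def step (c : P → P → Prop) : ℕ → P → P → Prop
  | 0, a, b => a = b
  | n + 1, a, b => ∃ w, step c n a w ∧ (c w b ∧ Inc w b)

variable {c : P → P → Prop}

theorem inc_symm {a b : P} (h : Inc a b) : Inc b a := ⟨h.2, h.1⟩

theorem step_c (hc : Equivalence c) : ∀ (n : ℕ) (a b : P), step c n a b → c a b := by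
  intro n
  induction n with
  | zero =>
    intro a b h
    change a = b at h
    rw [h]
    exact hc.refl b
  | succ n ih =>
    rintro a b ⟨w, h1, h2, _⟩
    exact hc.trans (ih a w h1) h2

theorem step_comp : ∀ (n m : ℕ) (a b d : P), step c m a b → step c n b d → step c (m + n) a d := by
  intro n
  induction n with
  | zero =>
    intro m a b d h1 h2
    change b = d at h2
    rw [← h2]
    exact h1
  | succ n ih =>
    rintro m a b d h1 ⟨w, h2, h3⟩
    exact ⟨w, ih m a b w h1 h2, h3⟩

theorem step_symm (hc : Equivalence c) : ∀ (n : ℕ) (a b : P), step c n a b → step c n b a := by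
  intro n
  induction n with
  | zero =>
    intro a b h
    exact Eq.symm h
  | succ n ih =>
    rintro a b ⟨w, h1, h2, h3⟩
    have h4 : step c 1 b w := ⟨b, rfl, hc.symm h2, inc_symm h3⟩
    have := step_comp n 1 b w a h4 (ih a w h1)
    rwa [add_comm] at this

theorem step_of_ic {a b : P} (h : ic c a b) : ∃ n, step c n a b := by
  induction h with
  | refl => exact ⟨0, rfl⟩
  | tail _ h2 ih =>
    obtain ⟨n, hn⟩ := ih
    exact ⟨n + 1, _, hn, h2⟩

theorem step_map (hc : Equivalence c) (g : P ≃o P) (hg : Aut c g) : ∀ (n : ℕ) (a b : P),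
    step c n a b → step c n (g a) (g b) := by
  intro n
  induction n with
  | zero =>
    intro a b h
    change a = b at h
    rw [h]
    rfl
  | succ n ih =>
    rintro a b ⟨w, h1, h2, h3⟩
    refine ⟨g w, ih a w h1, hc.trans (hc.symm (hg w)) (hc.trans h2 (hg b)), ?_, ?_⟩
    · rw [g.le_iff_le]
      exact h3.1
    · rw [g.le_iff_le]
      exact h3.2

theorem aut_symm (hc : Equivalence c) (g : P ≃o P) (hg : Aut c g) : Aut c g.symm := by
  intro x
  have := hg (g.symm x)
  rw [g.apply_symm_apply] at this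
  exact hc.symm this

theorem step_iff (hc : Equivalence c) (g : P ≃o P) (hg : Aut c g) (n : ℕ) (a b : P) :
    step c n (g a) (g b) ↔ step c n a b := by
  refine ⟨fun h => ?_, step_map hc g hg n a b⟩
  have := step_map hc g.symm (aut_symm hc g hg) n _ _ h
  rwa [g.symm_apply_apply, g.symm_apply_apply] at this

/-- the distance -/
noncomputable def dd (c : P → P → Prop) (a b : P) : ℕ := sInf {n | step c n a b}

theorem dd_le {a b : P} {n : ℕ} (h : step c n a b) : dd c a b ≤ n := Nat.sInf_le h

theorem dd_step {a b : P} (h : ic c a b) : step c (dd c a b) a b :=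
  Nat.sInf_mem (step_of_ic h)

theorem dd_map (hc : Equivalence c) (g : P ≃o P) (hg : Aut c g) (a b : P) :
    dd c (g a) (g b) = dd c a b := by
  unfold dd
  congr 1
  ext n
  exact step_iff hc g hg n a b

theorem dd_symm (hc : Equivalence c) (a b : P) : dd c a b = dd c b a := by
  unfold dd
  congr 1
  ext n
  exact ⟨step_symm hc n a b, step_symm hc n b a⟩

theorem cross (Q : P → Prop) : ∀ (m : ℕ) (a b : P), step c m a b → Q a → ¬ Q b →
    ∃ i w w', i < m ∧ step c i a w ∧ Q w ∧ c w w' ∧ Inc w w' ∧ ¬ Q w' ∧ step c (m - i - 1) w' b := by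
  intro m
  induction m with
  | zero =>
    intro a b h h1 h2
    change a = b at h
    rw [h] at h1
    exact absurd h1 h2
  | succ m ih =>
    rintro a b ⟨w, h1, h2, h3⟩ ha hb
    by_cases hw : Q w
    · refine ⟨m, w, b, Nat.lt_succ_self m, h1, hw, h2, h3, hb, ?_⟩
      have : m + 1 - m - 1 = 0 := by omega
      rw [this]
      rfl
    · obtain ⟨i, u, u', hi, h4, h5, h6, h7, h8, h9⟩ := ih a w h1 ha hw
      refine ⟨i, u, u', by omega, h4, h5, h6, h7, h8, ?_⟩
      have : m + 1 - i - 1 = (m - i - 1) + 1 := by omega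
      rw [this]
      exact ⟨w, h9, h2, h3⟩

theorem core (hc : Equivalence c) (ht : Tr c) (x : P) (hic : ∀ a b, c x a → c x b → ic c a b)
    (D : ℕ) (hD : ∀ a b, c x a → c x b → dd c a b ≤ D) (y z : P) (hy : c x y) (hz : c x z)
    (hyz : y < z) (hd : dd c y z = D) : D ≤ 2 := by
  obtain ⟨g, hg, hgy⟩ := ht y z (hc.trans (hc.symm hy) hz)
  have hz' : c x (g z) := hc.trans hz (hg z)
  have hlt : z < g z := by
    have : g y < g z := g.lt_iff_lt.2 hyz
    rwa [hgy] at this
  have hd2 : dd c z (g z) = D := by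
    rw [← hd, ← dd_map hc g hg y z, hgy]
  have hm := hD y (g z) hy hz'
  have hst := dd_step (hic y (g z) hy hz')
  obtain ⟨i, w, w', hi, h1, h2, h3, h4, h5, h6⟩ := cross (fun u => u < z) _ y (g z) hst hyz
    (fun h => lt_asymm h hlt)
  have hcw : c x w' := hc.trans (hc.trans hy (step_c hc _ _ _ h1)) h3
  have hs1 : step c (i + 1) y w' := ⟨w, h1, h3, h4⟩
  by_cases hw : w' = z
  · subst hw
    have e1 := dd_le hs1
    have e2 := dd_le h6
    rw [hd] at e1
    rw [hd2] at e2
    omega
  · have hinc : Inc w' z := by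
      refine ⟨fun h => h5 (lt_of_le_of_ne h hw), fun h => ?_⟩
      exact h4.1 (le_trans (le_of_lt h2) h)
    have hcwz : c w' z := hc.trans (hc.symm hcw) hz
    have hs2 : step c (i + 1 + 1) y z := ⟨w', hs1, hcwz, hinc⟩
    have hs3 : step c 1 z w' := ⟨z, rfl, hc.symm hcwz, inc_symm hinc⟩
    have hs4 := step_comp _ _ _ _ _ hs3 h6
    have e1 := dd_le hs2
    have e2 := dd_le hs4
    rw [hd] at e1
    rw [hd2] at e2
    omega

end

theorem piece : S_BAS → S_DIAM := by
  intro hB P _ c hc ht hfo x hx y z hy hz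
  have hb := hB P c hc
  have hice : Equivalence (ic c) := hb.2.2.2.2.2.2.2.1
  have hic : ∀ a b, c x a → c x b → ic c a b := fun a b ha hb' =>
    hice.trans (hice.symm (hx a ha)) (hx b hb')
  -- the maximal distance
  set T : Set ℕ := {n | ∃ a b, c x a ∧ c x b ∧ dd c a b = n} with hT
  have hne : T.Nonempty := ⟨dd c x x, x, x, hc.refl x, hc.refl x, rfl⟩
  have hbdd : BddAbove T := by
    classical
    obtain ⟨m, f, hf⟩ := hfo
    have hfin : T.Finite := by
      let F : Fin m → ℕ := fun v =>
        if h : ∃ p : P × P, c x p.1 ∧ c x p.2 ∧ f p.1 p.2 = v then dd c h.choose.1 h.choose.2 else 0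
      refine (Set.finite_range F).subset ?_
      rintro n ⟨a, b, ha, hb', rfl⟩
      refine ⟨f a b, ?_⟩
      have h : ∃ p : P × P, c x p.1 ∧ c x p.2 ∧ f p.1 p.2 = f a b := ⟨(a, b), ha, hb', rfl⟩
      have h2 : F (f a b) = dd c h.choose.1 h.choose.2 := dif_pos h
      rw [h2]
      obtain ⟨g, hg, h3, h4⟩ := hf _ _ _ _ h.choose_spec.2.2
      rw [← dd_map hc g hg, h3, h4]
    exact hfin.bddAbove
  set D := sSup T with hD
  have hDT : D ∈ T := Nat.sSup_mem hne hbdd
  have hmax : ∀ a b, c x a → c x b → dd c a b ≤ D := fun a b ha hb' =>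
    le_csSup hbdd ⟨a, b, ha, hb', rfl⟩
  have hD2 : D ≤ 2 := by
    obtain ⟨a, b, ha, hb', hab⟩ := hDT
    by_cases h1 : a = b
    · have : step c 0 a b := h1
      have := dd_le this
      omega
    · by_cases h2 : Inc a b
      · have : step c 1 a b := ⟨a, rfl, hc.trans (hc.symm ha) hb', h2⟩
        have := dd_le this
        omega
      · have h3 : a ≤ b ∨ b ≤ a := by
          by_contra hcon
          push Not at hcon
          exact h2 hcon
        rcases h3 with h3 | h3
        · exact core hc ht x hic D hmax a b ha hb' (lt_of_le_of_ne h3 h1) hab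
        · exact core hc ht x hic D hmax b a hb' ha (lt_of_le_of_ne h3 (Ne.symm h1))
            (by rw [dd_symm hc]; exact hab)
  have hs := dd_step (hic y z hy hz)
  have hle := hmax y z hy hz
  have hcases : dd c y z = 0 ∨ dd c y z = 1 ∨ dd c y z = 2 := by omega
  rcases hcases with h | h | h
  · rw [h] at hs
    exact Or.inl hs
  · rw [h] at hs
    obtain ⟨w, h1, _, h3⟩ := hs
    change y = w at h1
    rw [← h1] at h3
    exact Or.inr (Or.inl h3)
  · rw [h] at hs
    obtain ⟨w, ⟨u, h1, h2, h3⟩, h4, h5⟩ := hs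
    change y = u at h1
    rw [← h1] at h2 h3
    exact Or.inr (Or.inr ⟨w, hc.trans hy h2, h3, h5⟩)

end Run7.h901.PO.DIAM
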