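import Mathlib

/-!
# Countable partially ordered sets of finite width with finitely many orbits of pairs: definitions

`c : P → P → Prop` is always an equivalence relation, read as `x` and `y` have the same colour.
-/

set_option autoImplicit false

namespace Run7.h901.PO

section
variable {P : Type} [PartialOrder P]

/-- incomparable -/
def Inc (x y : P) : Prop := ¬ x ≤ y ∧ ¬ y ≤ x

/-- order automorphisms which preserve every colour -/
def Aut (c : P → P → Prop) (g : P ≃o P) : Prop := ∀ x, c x (g x)

/-- order automorphisms which preserve the partition into colours (they may permute the colours) -/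
def WAut (c : P → P → Prop) (g : P ≃o P) : Prop := ∀ x y, c x y ↔ c (g x) (g y)

/-- `Aut c` has finitely many orbits of pairs -/
def FO (c : P → P → Prop) : Prop := ∃ (n : ℕ) (f : P → P → Fin n), ∀ x y x' y', f x y = f x' y' →
  ∃ g : P ≃o P, Aut c g ∧ g x = x' ∧ g y = y'

/-- `WAut c` has at most `n` orbits of pairs -/
def WFO (n : ℕ) (c : P → P → Prop) : Prop := ∃ f : P → P → Fin n, ∀ x y x' y', f x y = f x' y' →
  ∃ g : P ≃o P, WAut c g ∧ g x = x' ∧ g y = y'

/-- The property (K): over a finite set `A` the orbit of `x` is the orbit over at most `k` elements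
of `A`. -/
def KProp (c : P → P → Prop) : Prop := ∃ k : ℕ, ∀ (A : Finset P) (x : P), ∃ A0 : Finset P,
  A0 ⊆ A ∧ A0.card ≤ k ∧ ∀ g : P ≃o P, Aut c g → (∀ a ∈ A0, g a = a) →
    ∃ h : P ≃o P, Aut c h ∧ (∀ a ∈ A, h a = a) ∧ h x = g x

/-- connected in the incomparability graph of a colour class -/
def ic (c : P → P → Prop) : P → P → Prop := Relation.ReflTransGen (fun a b => c a b ∧ Inc a b)

/-- connected in the comparability graph of a colour class -/
def cc (c : P → P → Prop) : P → P → Prop :=
  Relation.ReflTransGen (fun a b => c a b ∧ (a ≤ b ∨ b ≤ a))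

/-- every colour class is an orbit of `Aut c` -/
def Tr (c : P → P → Prop) : Prop := ∀ x y, c x y → ∃ g : P ≃o P, Aut c g ∧ g x = y

/-- no colour class with at least two elements is connected by `ic` -/
def Good (c : P → P → Prop) : Prop := ∀ x y, c x y → x ≠ y → ∃ z, c x z ∧ ¬ ic c x z

/-- the partition into orbits of `Aut c` -/
def orb (c : P → P → Prop) (x y : P) : Prop := ∃ g : P ≃o P, Aut c g ∧ g x = y

/-- the colour classes which are connected by `ic` are split into their comparability components -/
def c1 (c : P → P → Prop) (x y : P) : Prop := c x y ∧ (cc c x y ∨ ∃ z, c x z ∧ ¬ ic c x z)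

/-- `z` is related differently to `x` and `x'` -/
def Differs (z x x' : P) : Prop := ¬ ((x ≤ z ↔ x' ≤ z) ∧ (z ≤ x ↔ z ≤ x'))

/-- the blocks: the smallest equivalence relation which contains the incomparable pairs of one
colour and such that an element outside a block is related in the same way to all elements of one
colour in the block -/
inductive Blk (c : P → P → Prop) : P → P → Prop
  | refl (x : P) : Blk c x x
  | symm {x y : P} : Blk c x y → Blk c y x
  | trans {x y z : P} : Blk c x y → Blk c y z → Blk c x z
  | ic {x y : P} : c x y → Inc x y → Blk c x y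
  | split {x x' z : P} : Blk c x x' → c x x' → Differs z x x' → Blk c z x

/-- the colouring of the block of `x` -/
def rb (c : P → P → Prop) (x : P) (a b : {y : P // Blk c x y}) : Prop := c a.1 b.1

end

/-- finite width -/
def FW (P : Type) [PartialOrder P] : Prop := ∃ n : ℕ, ∀ s : Finset P,
  IsAntichain (· ≤ ·) (s : Set P) → s.card ≤ n

/-- relations invariant under `Γ` and monotone in the sense: true for `(s, t)`, `s' ≤ s`, `t ≤ t'`
implies true for `(s', t')` -/
def MInv {S : Type} (Γ : Subgroup (Equiv.Perm S)) (lt : S → S → Prop) (R : S → S → Prop) : Prop :=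
  (∀ γ ∈ Γ, ∀ s t, R s t → R (γ s) (γ t)) ∧
  (∀ s s' t t', (s' = s ∨ lt s' s) → (t = t' ∨ lt t t') → R s t → R s' t')

/-- A pebble system of `r` pebbles between the partial order `N` and a set `M` with a relation:
`R a b` reads: `b` satisfies the formula which defines the orbit of `a`. -/
structure Peb {N : Type} [PartialOrder N] {M : Type} (le : M → M → Prop) (r : ℕ)
    (R : (Fin r → N) → (Fin r → M) → Prop) : Prop where
  start : ∃ a b, R a b
  forth : ∀ a b, R a b → ∀ (i : Fin r) (x : N), ∃ y : M, R (Function.update a i x) (Function.update b i y)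
  back : ∀ a b, R a b → ∀ (i : Fin r) (y : M), ∃ x : N, R (Function.update a i x) (Function.update b i y)
  comp : ∀ a b, R a b → ∀ σ : Fin r → Fin r, R (a ∘ σ) (b ∘ σ)
  ord : ∀ a b, R a b → ∀ i j, (a i ≤ a j ↔ le (b i) (b j)) ∧ (a i = a j ↔ b i = b j)
  aut : ∀ a b, R a b → ∀ g : N ≃o N, R (fun i => g (a i)) b
  orbit : ∀ a a' b, R a b → R a' b → ∃ g : N ≃o N, ∀ i, g (a i) = a' i

end Run7.h901.PO
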