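import Pool.Agent.Run7.h901.PO.Iface

set_option autoImplicit false

namespace Run7.h901.PO.FC

theorem piece : S_BAS → S_FC := by
  intro hB P _ c hc hFO hFW
  obtain ⟨b1, b2, b3, b4, b5, b6, b7, b8, b9, b10, b11, b12, b13, b14, b15, b16, b17, b18, b19⟩ := hB P c hc
  have hW : ∀ x y, c x y → (∃ z, c x z ∧ ¬ ic c x z) → ∃ z, c y z ∧ ¬ ic c y z := by
    rintro x y hxy ⟨z, hz, hn⟩
    by_cases h : ic c x y
    · exact ⟨z, hc.trans (hc.symm hxy) hz, fun h' => hn (b8.trans h h')⟩
    · exact ⟨x, hc.symm hxy, fun h' => h (b8.symm h')⟩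
  have hE : Equivalence (c1 c) := by
    refine ⟨fun x => ⟨hc.refl x, Or.inl (b9.refl x)⟩, ?_, ?_⟩
    · rintro x y ⟨h, h' | h'⟩
      · exact ⟨hc.symm h, Or.inl (b9.symm h')⟩
      · exact ⟨hc.symm h, Or.inr (hW x y h h')⟩
    · rintro x y z ⟨h, h'⟩ ⟨k, k'⟩
      refine ⟨hc.trans h k, ?_⟩
      rcases h' with h' | h'
      · rcases k' with k' | k'
        · exact Or.inl (b9.trans h' k')
        · exact Or.inr (hW y x (hc.symm h) k')
      · exact Or.inr h'
  refine ⟨hE, fun x y h => h.1, ?_, ?_⟩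
  · obtain ⟨n, f, hf⟩ := hFO
    obtain ⟨w, hw⟩ := hFW
    let s : Setoid P := ⟨c1 c, hE⟩
    have hfin : Finite (Quotient s) := by
      by_contra hinf
      rw [not_finite_iff_infinite] at hinf
      obtain ⟨i, hi⟩ := Finite.exists_infinite_fiber (fun q : Quotient s => f q.out q.out)
      have hi' : ((fun q : Quotient s => f q.out q.out) ⁻¹' {i}).Infinite := Set.infinite_coe_iff.1 hi
      obtain ⟨t, ht, htc⟩ := hi'.exists_subset_card_eq (w + 1)
      classical
      have hinj : Function.Injective (fun q : Quotient s => q.out) := Quotient.out_injective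
      have hcard : (t.image (fun q : Quotient s => q.out)).card = w + 1 := by
        rw [Finset.card_image_of_injective _ hinj, htc]
      have hanti : IsAntichain (· ≤ ·) ((t.image (fun q : Quotient s => q.out) : Finset P) : Set P) := by
        intro a ha b hb hab hle
        rw [Finset.mem_coe, Finset.mem_image] at ha hb
        obtain ⟨q, hq, rfl⟩ := ha
        obtain ⟨q', hq', rfl⟩ := hb
        have e1 : f q.out q.out = i := ht hq
        have e2 : f q'.out q'.out = i := ht hq'
        obtain ⟨g, hg, hg1, -⟩ := hf q.out q.out q'.out q'.out (e1.trans e2.symm)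
        have hcq : c q.out q'.out := by
          have := hg q.out
          rwa [hg1] at this
        have hcc : cc c q.out q'.out := Relation.ReflTransGen.single ⟨hcq, Or.inl hle⟩
        have h1 : (Quotient.mk s q.out) = Quotient.mk s q'.out := Quotient.sound (s := s) (show c1 c q.out q'.out from ⟨hcq, Or.inl hcc⟩)
        rw [Quotient.out_eq, Quotient.out_eq] at h1
        exact hab (by rw [h1])
      have := hw _ hanti
      omega
    obtain ⟨m, ⟨e⟩⟩ := Finite.exists_equiv_fin (Quotient s)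
    refine ⟨m, fun x => e (Quotient.mk s x), fun x y h => ?_⟩
    exact Quotient.exact (e.injective h)
  · intro g hg x y
    have hcx : ∀ x y, c x y ↔ c (g x) (g y) := hg
    have hZ : (∃ z, c x z ∧ ¬ ic c x z) ↔ ∃ z, c (g x) z ∧ ¬ ic c (g x) z := by
      constructor
      · rintro ⟨z, h1, h2⟩
        exact ⟨g z, (hcx x z).1 h1, fun h => h2 ((b16 g hg x z).2 h)⟩
      · rintro ⟨z, h1, h2⟩
        refine ⟨g.symm z, (hcx _ _).2 (by rwa [OrderIso.apply_symm_apply]), fun h => h2 ?_⟩
        have := (b16 g hg x (g.symm z)).1 h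
        rwa [OrderIso.apply_symm_apply] at this
    show (c x y ∧ (cc c x y ∨ ∃ z, c x z ∧ ¬ ic c x z)) ↔
      (c (g x) (g y) ∧ (cc c (g x) (g y) ∨ ∃ z, c (g x) z ∧ ¬ ic c (g x) z))
    rw [← hcx x y, ← b17 g hg x y, ← hZ]

end Run7.h901.PO.FC
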