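import Pool.Agent.Run7.h901.PO.FI2

/-!
# Piece `FI1`: refinements with finitely many classes
-/

set_option autoImplicit false

namespace Run7.h901.PO.FI1

open Run7.h901.PO Run7.h901.PO.FI2

/-- iterates of an order automorphism -/
def itr {P : Type} [PartialOrder P] (g : P ≃o P) : ℕ → (P ≃o P)
  | 0 => OrderIso.refl P
  | (n + 1) => (itr g n).trans g

theorem itr_apply {P : Type} [PartialOrder P] (g : P ≃o P) (n : ℕ) (x : P) :
    itr g n x = (⇑g)^[n] x := by
  induction n generalizing x with
  | zero => rfl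
  | succ n ih =>
    rw [Function.iterate_succ_apply']
    simp [itr, ih]

theorem itr_aut {P : Type} [PartialOrder P] (c : P → P → Prop) (hc : Equivalence c) (g : P ≃o P)
    (hg : Aut c g) (n : ℕ) : Aut c (itr g n) := by
  induction n with
  | zero => intro x; exact hc.refl x
  | succ n ih => intro x; exact hc.trans (ih x) (hg _)

theorem itr_add {P : Type} [PartialOrder P] (g : P ≃o P) (m n : ℕ) (x : P) :
    itr g (m + n) x = itr g m (itr g n x) := by
  rw [itr_apply, itr_apply, itr_apply, Function.iterate_add_apply]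

theorem piece : S_BAS → S_FI1 := by
  intro hBAS P _ c c' hc hc' hR
  classical
  obtain ⟨hsub, ⟨n, f, hf⟩, hW⟩ := hR
  obtain ⟨hAW, hrefl, hsymm, htrans, -⟩ := hBAS P c hc
  refine ⟨?_, ?_⟩
  · rintro ⟨m, f0, hf0⟩
    rcases isEmpty_or_nonempty P with hP | ⟨⟨p⟩⟩
    · exact ⟨0, fun x => isEmptyElim x, fun x => isEmptyElim x⟩
    · have hrep : ∀ v : Fin m, ∃ ab : P × P, (∃ x y, f0 x y = v) → f0 ab.1 ab.2 = v := by
        intro v
        by_cases h : ∃ x y, f0 x y = v
        · obtain ⟨x, y, hxy⟩ := h
          exact ⟨(x, y), fun _ => hxy⟩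
        · exact ⟨(p, p), fun h' => absurd h' h⟩
      choose rep hrep using hrep
      have hg : ∀ x y, ∃ g : P ≃o P, Aut c g ∧ g (rep (f0 x y)).1 = x ∧ g (rep (f0 x y)).2 = y :=
        fun x y => hf0 _ _ _ _ (hrep (f0 x y) ⟨x, y, rfl⟩)
      choose G hGA hG1 hG2 using hg
      let F : P → P → Fin m × (Fin n → Fin n → Prop) := fun x y => (f0 x y, rho f c' (G x y))
      obtain ⟨e⟩ : Nonempty ((Fin m × (Fin n → Fin n → Prop)) ≃
          Fin (Fintype.card (Fin m × (Fin n → Fin n → Prop)))) := ⟨Fintype.equivFin _⟩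
      refine ⟨_, fun x y => e (F x y), ?_⟩
      intro x y x' y' h
      have h1 : F x y = F x' y' := e.injective h
      have h2 : f0 x y = f0 x' y' := congrArg Prod.fst h1
      have h3 : rho f c' (G x y) = rho f c' (G x' y') := congrArg Prod.snd h1
      have h4 := (rho_eq hc' hf (hW _ (hGA x' y'))).1 h3
      refine ⟨(G x y).symm.trans (G x' y'), ?_, ?_, ?_⟩
      · intro z
        have := h4 ((G x y).symm z)
        simpa using this
      · have h5 : (G x y).symm x = (rep (f0 x y)).1 := by
          rw [OrderIso.symm_apply_eq]; exact (hG1 x y).symm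
        show G x' y' ((G x y).symm x) = x'
        rw [h5, h2]
        exact hG1 x' y'
      · have h5 : (G x y).symm y = (rep (f0 x y)).2 := by
          rw [OrderIso.symm_apply_eq]; exact (hG2 x y).symm
        show G x' y' ((G x y).symm y) = y'
        rw [h5, h2]
        exact hG2 x' y'
  · intro g hg
    obtain ⟨i, j, hij, hr⟩ := Finite.exists_ne_map_eq_of_infinite
      (fun i : ℕ => rho f c' (itr g i))
    -- wlog i < j
    have key : ∀ i j : ℕ, i < j → rho f c' (itr g i) = rho f c' (itr g j) →
        ∃ n : ℕ, 1 ≤ n ∧ ∃ h : P ≃o P, Aut c' h ∧ ∀ x, h x = (⇑g)^[n] x := by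
      intro i j hij hr
      have h1 := (rho_eq hc' hf (hW _ (itr_aut c hc g hg j))).1 hr
      refine ⟨j - i, by omega, itr g (j - i), ?_, fun x => itr_apply g _ x⟩
      intro y
      have h2 := h1 ((itr g i).symm y)
      have h3 : itr g j ((itr g i).symm y) = itr g (j - i) y := by
        have : j = (j - i) + i := by omega
        conv_lhs => rw [this]
        rw [itr_add]
        simp
      rw [h3] at h2
      simpa using h2
    rcases lt_or_gt_of_ne hij with h | h
    · exact key i j h hr
    · exact key j i h hr.symm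

end Run7.h901.PO.FI1
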