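import Pool.Agent.Run7.h901.PO.Iface

/-!
# Piece `FI2` (helper437) of project PO (helper901)
-/

set_option autoImplicit false

namespace Run7.h901.PO.FI2

open Run7.h901.PO

section
variable {P : Type} [PartialOrder P]

/-- the action of `g` on the classes of `c'`, in terms of a finite labelling `f` -/
def rho {n : ℕ} (f : P → Fin n) (c' : P → P → Prop) (g : P ≃o P) : Fin n → Fin n → Prop :=
  fun i j => ∃ x y, f x = i ∧ f y = j ∧ c' (g x) y

lemma rho_eq {n : ℕ} {f : P → Fin n} {c' : P → P → Prop} (hc' : Equivalence c')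
    (hf : ∀ x y, f x = f y → c' x y) {g g' : P ≃o P} (hg' : WAut c' g') :
    rho f c' g = rho f c' g' ↔ ∀ x, c' (g x) (g' x) := by
  constructor
  · intro h x
    have h1 : rho f c' g (f x) (f (g x)) := ⟨x, g x, rfl, rfl, hc'.refl _⟩
    rw [h] at h1
    obtain ⟨x1, y1, hx, hy, h2⟩ := h1
    have h3 : c' (g' x1) (g' x) := (hg' _ _).1 (hf _ _ hx)
    have h4 : c' y1 (g x) := hf _ _ hy
    exact hc'.trans (hc'.symm h4) (hc'.trans (hc'.symm h2) h3)
  · intro h
    funext i j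
    apply propext
    constructor
    · rintro ⟨x, y, hx, hy, h1⟩
      exact ⟨x, y, hx, hy, hc'.trans (hc'.symm (h x)) h1⟩
    · rintro ⟨x, y, hx, hy, h1⟩
      exact ⟨x, y, hx, hy, hc'.trans (h x) h1⟩

end

theorem piece : S_BAS → S_STAR → S_FI2 := by
  intro _ hSTAR P _ c c' hc hc' hR hK
  classical
  obtain ⟨hsub, ⟨n, f, hf⟩, hW⟩ := hR
  obtain ⟨k, hk⟩ := hK
  refine ⟨k + Fintype.card (Fin n → Fin n → Prop) * (k + 1), ?_⟩
  intro A x
  have hex : ∀ σ : Fin n → Fin n → Prop, ∃ B : Finset P, B ⊆ A ∧ B.card ≤ k + 1 ∧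
      ((∃ g0 : P ≃o P, Aut c g0 ∧ rho f c' g0 = σ) →
        (¬ ∃ g : P ≃o P, Aut c g ∧ (∀ a ∈ A, g a = a) ∧ rho f c' g = σ) →
        ∀ g : P ≃o P, Aut c g → (∀ b ∈ B, g b = b) → rho f c' g ≠ σ) := by
    intro σ
    by_contra hcon
    have hcon' : ∀ B : Finset P, B ⊆ A → B.card ≤ k + 1 →
        (∃ g0 : P ≃o P, Aut c g0 ∧ rho f c' g0 = σ) ∧
        (¬ ∃ g : P ≃o P, Aut c g ∧ (∀ a ∈ A, g a = a) ∧ rho f c' g = σ) ∧
        ∃ g : P ≃o P, Aut c g ∧ (∀ b ∈ B, g b = b) ∧ rho f c' g = σ := by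
      intro B hB hBc
      by_contra h1
      apply hcon
      refine ⟨B, hB, hBc, fun h2 h3 g hg hgB hgσ => h1 ⟨h2, h3, g, hg, hgB, hgσ⟩⟩
    obtain ⟨⟨g0, hg0, hσ0⟩, hno, -⟩ := hcon' ∅ (Finset.empty_subset _) (by simp)
    obtain ⟨h, hh, hhA⟩ := hSTAR P c' hc' k hk A g0.symm (by
      intro B hB hBc
      obtain ⟨_, _, g, hg, hgB, hgσ⟩ := hcon' B hB hBc
      refine ⟨g.trans g0.symm, ?_, ?_⟩
      · intro y
        have h1 : c' (g0 y) (g y) := (rho_eq hc' hf (hW g hg)).1 (hσ0.trans hgσ.symm) y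
        refine (hW g0 hg0 y (g0.symm (g y))).2 ?_
        rw [OrderIso.apply_symm_apply]
        exact h1
      · intro b hb
        show g0.symm (g b) = g0.symm b
        rw [hgB b hb])
    refine hno ⟨h.trans g0, ?_, ?_, ?_⟩
    · intro y
      exact hc.trans (hsub _ _ (hh y)) (hg0 (h y))
    · intro a ha
      show g0 (h a) = a
      rw [hhA a ha, OrderIso.apply_symm_apply]
    · rw [← hσ0]
      refine (rho_eq hc' hf (hW g0 hg0)).2 fun y => ?_
      exact (hW g0 hg0 _ _).1 (hc'.symm (hh y))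
  choose B hBA hBc hB using hex
  obtain ⟨A1, hA1, hA1c, hA1k⟩ := hk A x
  refine ⟨A1 ∪ Finset.univ.biUnion B, ?_, ?_, ?_⟩
  · exact Finset.union_subset hA1 (Finset.biUnion_subset.2 fun σ _ => hBA σ)
  · refine (Finset.card_union_le _ _).trans (Nat.add_le_add hA1c ?_)
    exact Finset.card_biUnion_le_card_mul _ _ _ fun σ _ => hBc σ
  · intro g hg hfix
    have h1 : ∃ g' : P ≃o P, Aut c g' ∧ (∀ a ∈ A, g' a = a) ∧ rho f c' g' = rho f c' g := by
      by_contra hno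
      refine hB (rho f c' g) ⟨g, hg, rfl⟩ hno g hg (fun b hb => hfix b ?_) rfl
      exact Finset.mem_union_right _ (Finset.mem_biUnion.2 ⟨_, Finset.mem_univ _, hb⟩)
    obtain ⟨g', hg', hg'A, hg'ρ⟩ := h1
    have h2 : ∀ y, c' (g' y) (g y) := (rho_eq hc' hf (hW g hg)).1 hg'ρ
    have h3 : Aut c' (g.trans g'.symm) := by
      intro y
      refine (hW g' hg' y (g'.symm (g y))).2 ?_
      rw [OrderIso.apply_symm_apply]
      exact h2 y
    obtain ⟨h'', hh1, hh2, hh3⟩ := hA1k (g.trans g'.symm) h3 (by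
      intro a ha
      show g'.symm (g a) = a
      rw [hfix a (Finset.mem_union_left _ ha), OrderIso.symm_apply_eq, hg'A a (hA1 ha)])
    refine ⟨h''.trans g', ?_, ?_, ?_⟩
    · intro y
      exact hc.trans (hsub _ _ (hh1 y)) (hg' (h'' y))
    · intro a ha
      show g' (h'' a) = a
      rw [hh2 a ha, hg'A a ha]
    · show g' (h'' x) = g x
      rw [hh3]
      show g' (g'.symm (g x)) = g x
      rw [OrderIso.apply_symm_apply]

end Run7.h901.PO.FI2
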