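import Pool.Agent.Run7.h901.PO.Iface

set_option autoImplicit false
open scoped FirstOrder
open FirstOrder FirstOrder.Language

namespace Run7.h901.PO.FIN

/-- all variables different and comparable as in `M`, and nothing else -/
noncomputable def psi (M : Type) [FirstOrder.Language.order.Structure M] (n : ℕ) (e : Fin n ≃ M) :
    Language.order.Formula (Fin n) :=
  (Formula.iInf fun p : Fin n × Fin n =>
    open Classical in
    if Structure.RelMap (L := Language.order) (leSymb : Language.order.Relations 2) ![e p.1, e p.2]
    then (leSymb : Language.order.Relations 2).formula₂ (Term.var p.1) (Term.var p.2)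
    else ∼((leSymb : Language.order.Relations 2).formula₂ (Term.var p.1) (Term.var p.2))) ⊓
  ((Formula.iInf fun p : {p : Fin n × Fin n // p.1 ≠ p.2} =>
    ∼((Term.var p.1.1 : Language.order.Term (Fin n)).equal (Term.var p.1.2))) ⊓
  Formula.iAlls Unit (Formula.iSup fun i : Fin n =>
    ((Term.var (Sum.inr ()) : Language.order.Term (Fin n ⊕ Unit)).equal (Term.var (Sum.inl i)))))

lemma realize_psi (M : Type) [FirstOrder.Language.order.Structure M] (n : ℕ) (e : Fin n ≃ M)
    (K : Type) [FirstOrder.Language.order.Structure K] (v : Fin n → K) :
    (psi M n e).Realize v ↔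
      (∀ i j, (Structure.RelMap (L := Language.order) (leSymb : Language.order.Relations 2) ![v i, v j] ↔
        Structure.RelMap (L := Language.order) (leSymb : Language.order.Relations 2) ![e i, e j])) ∧
      (∀ i j, i ≠ j → v i ≠ v j) ∧ ∀ y : K, ∃ i, y = v i := by
  unfold psi
  rw [Formula.realize_inf, Formula.realize_inf, Formula.realize_iInf, Formula.realize_iInf, Formula.realize_iAlls]
  refine and_congr ?_ (and_congr ?_ ?_)
  · constructor
    · intro h i j
      have h1 := h (i, j)
      simp only at h1
      split_ifs at h1 with h2
      · rw [Formula.realize_rel₂] at h1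
        simpa [h2] using h1
      · rw [Formula.realize_not, Formula.realize_rel₂] at h1
        simpa [h2] using h1
    · rintro h ⟨i, j⟩
      simp only
      split_ifs with h2
      · rw [Formula.realize_rel₂]
        simpa [h2] using h i j
      · rw [Formula.realize_not, Formula.realize_rel₂]
        simpa [h2] using h i j
  · constructor
    · intro h i j hij
      have h1 := h ⟨(i, j), hij⟩
      rw [Formula.realize_not, Formula.realize_equal] at h1
      simpa using h1
    · rintro h ⟨⟨i, j⟩, hij⟩
      rw [Formula.realize_not, Formula.realize_equal]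
      simpa using h i j hij
  · constructor
    · intro h y
      have h1 := h (fun _ => y)
      rw [Formula.realize_iSup] at h1
      obtain ⟨i, hi⟩ := h1
      rw [Formula.realize_equal] at hi
      exact ⟨i, by simpa using hi⟩
    · intro h y
      rw [Formula.realize_iSup]
      obtain ⟨i, hi⟩ := h (y ())
      refine ⟨i, ?_⟩
      rw [Formula.realize_equal]
      simpa using hi

theorem piece : S_FIN := by
  intro M _ hM
  obtain ⟨n, ⟨e'⟩⟩ := Finite.exists_equiv_fin M
  let e : Fin n ≃ M := e'.symm
  let σ : Language.order.Sentence := Formula.iExs (Fin n) ((psi M n e).relabel Sum.inr)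
  have hσ : ∀ (K : Type) [FirstOrder.Language.order.Structure K], K ⊨ σ ↔ ∃ v : Fin n → K, (psi M n e).Realize v := by
    intro K _
    show Formula.Realize _ _ ↔ _
    rw [Formula.realize_iExs]
    refine exists_congr fun v => ?_
    rw [Formula.realize_relabel]
    rfl
  refine ⟨{σ}, ?_, ?_⟩
  · rw [Finset.coe_singleton, Set.singleton_subset_iff]
    show M ⊨ σ
    rw [hσ]
    refine ⟨e, ?_⟩
    rw [realize_psi]
    exact ⟨fun i j => Iff.rfl, fun i j hij => fun h => hij (e.injective h), fun y => ⟨e.symm y, by simp⟩⟩
  · intro φ hφ
    rw [Theory.models_sentence_iff]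
    intro K
    have h1 : (K : Type) ⊨ σ := Theory.realize_sentence_of_mem ((({σ} : Finset Language.order.Sentence) : Language.order.Theory)) (by simp)
    rw [hσ] at h1
    obtain ⟨v, hv⟩ := h1
    rw [realize_psi] at hv
    obtain ⟨h2, h3, h4⟩ := hv
    have hb : Function.Bijective v := ⟨fun i j hij => by
      by_contra h
      exact h3 i j h hij, fun y => by
      obtain ⟨i, hi⟩ := h4 y
      exact ⟨i, hi.symm⟩⟩
    let w : Fin n ≃ K := Equiv.ofBijective v hb
    let g : M ≃[Language.order] K :=
      { toEquiv := e.symm.trans w
        map_fun' := fun {m} f => by cases f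
        map_rel' := fun {m} r x => by
          cases r
          have hx : x = ![x 0, x 1] := by
            funext i
            fin_cases i <;> rfl
          rw [hx]
          have := h2 (e.symm (x 0)) (e.symm (x 1))
          rw [e.apply_symm_apply, e.apply_symm_apply] at this
          have h5 : (⇑(e.symm.trans w) ∘ ![x 0, x 1]) = ![v (e.symm (x 0)), v (e.symm (x 1))] := by
            funext i
            fin_cases i <;> rfl
          show Structure.RelMap _ (⇑(e.symm.trans w) ∘ ![x 0, x 1]) ↔ _
          rw [h5]
          exact this }
    have h6 : M ⊨ φ := hφ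
    exact (StrongHomClass.realize_sentence g φ).mp h6

end Run7.h901.PO.FIN
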