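import Pool.Agent.Run7.h901.PO.Iface

set_option autoImplicit false

namespace Run7.h901.PO.GL

open Run7.h901.PO

variable {P : Type} [PartialOrder P]

/-- An order isomorphism glued from pieces `H y` which depend only on the block of `y`. -/
theorem glue {B : P → P → Prop} (hB : Equivalence B) (H : P → (P ≃o P)) (d : P → P)
    (hH : ∀ y z, B y z → H y = H z) (inv : ∀ w y z, B y z ↔ B (H w y) (H w z))
    (hd : ∀ y, B (H y y) (d y)) (d1 : ∀ y z, B y z ↔ B (d y) (d z)) (d2 : ∀ z, ∃ y, B z (d y))
    (d4 : ∀ y z, ¬ B y z → (y ≤ z ↔ H y y ≤ H z z)) :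
    ∃ h : P ≃o P, ∀ y, h y = H y y := by
  have hinj : Function.Injective (fun y => H y y) := by
    intro y z hyz
    have hyz' : H y y = H z z := hyz
    have h1 : B y z := by
      rw [d1]
      have h2 := hB.symm (hd y)
      rw [hyz'] at h2
      exact hB.trans h2 (hd z)
    rw [hH y z h1] at hyz'
    exact (H z).injective hyz'
  have hsurj : Function.Surjective (fun y => H y y) := by
    intro z
    obtain ⟨y, hy⟩ := d2 z
    refine ⟨(H y).symm z, ?_⟩
    have h1 : B ((H y).symm z) y := by
      rw [inv y]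
      rw [OrderIso.apply_symm_apply]
      exact hB.trans hy (hB.symm (hd y))
    change H ((H y).symm z) ((H y).symm z) = z
    rw [hH _ _ h1, OrderIso.apply_symm_apply]
  let e : P ≃ P := Equiv.ofBijective (fun y => H y y) ⟨hinj, hsurj⟩
  refine ⟨⟨e, ?_⟩, fun y => rfl⟩
  intro y z
  change H y y ≤ H z z ↔ y ≤ z
  by_cases h : B y z
  · rw [hH y z h]
    exact (H z).le_iff_le
  · exact (d4 y z h).symm

theorem piece : S_BAS → S_GL1 → S_UNI → S_GL := by
  classical
  intro hBAS hGL1 hUNI P _ _ c hc hTr hFO hK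
  obtain ⟨aut_w, aut_refl, aut_symm, aut_trans, w_refl, w_symm, w_trans, ic_eq, cc_eq, blk_eq,
    ic_c, cc_c, ic_blk, c_ic, c_blk, w_ic, w_cc, w_blk, last⟩ := hBAS P c hc
  obtain ⟨k1, hk1⟩ := hGL1 P c hc hTr hFO
  obtain ⟨k2, hk2⟩ := hUNI P c hc hFO hK
  refine ⟨k1 + k2 + 1, fun A x => ?_⟩
  by_cases hx : ∃ a ∈ A, Blk c x a
  · -- case 2
    obtain ⟨a, haA, hxa⟩ := hx
    obtain ⟨A0', hA0', hcard, hA0⟩ := hk2 x (A.subtype (fun y => Blk c x y)) ⟨x, Blk.refl x⟩
    refine ⟨insert a (A0'.map (Function.Embedding.subtype _)), ?_, ?_, ?_⟩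
    · intro b hb
      rw [Finset.mem_insert] at hb
      rcases hb with rfl | hb
      · exact haA
      · rw [Finset.mem_map] at hb
        obtain ⟨b', hb', rfl⟩ := hb
        exact Finset.mem_subtype.1 (hA0' hb')
    · refine (Finset.card_insert_le _ _).trans ?_
      rw [Finset.card_map]
      omega
    · intro g hg hfix
      have hga : g a = a := hfix a (Finset.mem_insert_self _ _)
      have hgsa : g.symm a = a := by
        rw [OrderIso.symm_apply_eq]; exact hga.symm
      have hblk : ∀ y, Blk c x y → Blk c x (g y) := by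
        intro y hy
        have h1 : Blk c a y := blk_eq.trans (blk_eq.symm hxa) hy
        have h2 := (w_blk g (aut_w g hg) a y).1 h1
        rw [hga] at h2
        exact blk_eq.trans hxa h2
      have hblk' : ∀ y, Blk c x y → Blk c x (g.symm y) := by
        intro y hy
        have h1 : Blk c a y := blk_eq.trans (blk_eq.symm hxa) hy
        have h2 := (w_blk g.symm (aut_w _ (aut_symm g hg)) a y).1 h1
        rw [hgsa] at h2
        exact blk_eq.trans hxa h2
      let g' : {y : P // Blk c x y} ≃o {y : P // Blk c x y} :=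
        { toFun := fun y => ⟨g y.1, hblk _ y.2⟩
          invFun := fun y => ⟨g.symm y.1, hblk' _ y.2⟩
          left_inv := fun y => Subtype.ext (g.symm_apply_apply y.1)
          right_inv := fun y => Subtype.ext (g.apply_symm_apply y.1)
          map_rel_iff' := by
            intro y z
            change g y.1 ≤ g z.1 ↔ y.1 ≤ z.1
            exact g.le_iff_le }
      have hg' : Aut (rb c x) g' := fun y => hg y.1
      obtain ⟨h0, hh0, hh0A, hh0x⟩ := hA0 g' hg' (by
        intro b hb
        apply Subtype.ext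
        change g b.1 = b.1
        exact hfix b.1 (Finset.mem_insert_of_mem (Finset.mem_map.2 ⟨b, hb, rfl⟩)))
      have hh0' : ∀ y, c y.1 (h0 y).1 := fun y => hh0 y
      let F : P → P := fun y => if hy : Blk c x y then (h0 ⟨y, hy⟩).1 else y
      let F' : P → P := fun y => if hy : Blk c x y then (h0.symm ⟨y, hy⟩).1 else y
      have Fin : ∀ y (hy : Blk c x y), F y = (h0 ⟨y, hy⟩).1 := fun y hy => dif_pos hy
      have Fout : ∀ y (hy : ¬ Blk c x y), F y = y := fun y hy => dif_neg hy
      have Fin' : ∀ y (hy : Blk c x y), F' y = (h0.symm ⟨y, hy⟩).1 := fun y hy => dif_pos hy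
      have Fout' : ∀ y (hy : ¬ Blk c x y), F' y = y := fun y hy => dif_neg hy
      have FF' : ∀ y, F (F' y) = y := by
        intro y
        by_cases hy : Blk c x y
        · rw [Fin' y hy, Fin _ (h0.symm ⟨y, hy⟩).2]
          exact congrArg Subtype.val (h0.apply_symm_apply ⟨y, hy⟩)
        · rw [Fout' y hy, Fout y hy]
      have F'F : ∀ y, F' (F y) = y := by
        intro y
        by_cases hy : Blk c x y
        · rw [Fin y hy, Fin' _ (h0 ⟨y, hy⟩).2]
          exact congrArg Subtype.val (h0.symm_apply_apply ⟨y, hy⟩)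
        · rw [Fout y hy, Fout' y hy]
      let h : P ≃o P :=
        { toFun := F
          invFun := F'
          left_inv := F'F
          right_inv := FF'
          map_rel_iff' := by
            intro y z
            change F y ≤ F z ↔ y ≤ z
            by_cases hy : Blk c x y
            · by_cases hz : Blk c x z
              · rw [Fin y hy, Fin z hz]
                have := h0.le_iff_le (x := ⟨y, hy⟩) (y := ⟨z, hz⟩)
                exact this
              · rw [Fin y hy, Fout z hz]
                have h1 : ¬ Blk c z y := fun h => hz (blk_eq.trans hy (blk_eq.symm h))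
                have h2 : Blk c y (h0 ⟨y, hy⟩).1 := blk_eq.trans (blk_eq.symm hy) (h0 ⟨y, hy⟩).2
                exact (last z y _ h1 h2 (hh0' ⟨y, hy⟩)).1.symm
            · by_cases hz : Blk c x z
              · rw [Fout y hy, Fin z hz]
                have h1 : ¬ Blk c y z := fun h => hy (blk_eq.trans hz (blk_eq.symm h))
                have h2 : Blk c z (h0 ⟨z, hz⟩).1 := blk_eq.trans (blk_eq.symm hz) (h0 ⟨z, hz⟩).2
                exact (last y z _ h1 h2 (hh0' ⟨z, hz⟩)).2.symm
              · rw [Fout y hy, Fout z hz] }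
      have hF : ∀ y, h y = F y := fun y => rfl
      refine ⟨h, ?_, ?_, ?_⟩
      · intro y
        rw [hF]
        by_cases hy : Blk c x y
        · rw [Fin y hy]; exact hh0' ⟨y, hy⟩
        · rw [Fout y hy]; exact hc.refl y
      · intro b hb
        rw [hF]
        by_cases hy : Blk c x b
        · rw [Fin b hy]
          exact congrArg Subtype.val (hh0A ⟨b, hy⟩ (Finset.mem_subtype.2 hb))
        · exact Fout b hy
      · rw [hF, Fin x (Blk.refl x)]
        exact congrArg Subtype.val hh0x
  · -- case 1
    obtain ⟨A0, hA0A, hcard, hA0⟩ := hk1 A x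
    refine ⟨A0, hA0A, by omega, fun g hg hfix => ?_⟩
    obtain ⟨d, d1, d2, d3, d4, d5, d6⟩ := hA0 g hg (fun a ha => by rw [hfix a ha]; exact Blk.refl a)
    let s : Setoid P := ⟨Blk c, blk_eq⟩
    let rep : P → P := fun y => (Quotient.mk s y).out
    have rep_blk : ∀ y, Blk c (rep y) y := fun y => Quotient.mk_out (s := s) y
    have rep_eq : ∀ y z, Blk c y z → rep y = rep z := fun y z h => by
      have : Quotient.mk s y = Quotient.mk s z := Quotient.sound (s := s) h
      change (Quotient.mk s y).out = (Quotient.mk s z).out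
      rw [this]
    choose h3 h3a h3b using d3
    let H : P → (P ≃o P) := fun y => if Blk c x (rep y) then g else
      if ∃ a ∈ A, Blk c a (rep y) then OrderIso.refl P else h3 (rep y)
    have H1 : ∀ y, Blk c x y → H y = g := fun y hy =>
      if_pos (blk_eq.trans hy (blk_eq.symm (rep_blk y)))
    have H2 : ∀ y, ∀ a ∈ A, Blk c a y → H y = OrderIso.refl P := by
      intro y a ha hay
      have h1 : ¬ Blk c x (rep y) := fun h =>
        hx ⟨a, ha, blk_eq.trans (blk_eq.trans h (rep_blk y)) (blk_eq.symm hay)⟩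
      have h2 : ∃ a ∈ A, Blk c a (rep y) := ⟨a, ha, blk_eq.trans hay (blk_eq.symm (rep_blk y))⟩
      change (if Blk c x (rep y) then g else _) = _
      rw [if_neg h1, if_pos h2]
    have H3 : ∀ y, ¬ Blk c x y → (¬ ∃ a ∈ A, Blk c a y) → H y = h3 (rep y) := by
      intro y hy hay
      have h1 : ¬ Blk c x (rep y) := fun h => hy (blk_eq.trans h (rep_blk y))
      have h2 : ¬ ∃ a ∈ A, Blk c a (rep y) := fun ⟨a, ha, h⟩ =>
        hay ⟨a, ha, blk_eq.trans h (rep_blk y)⟩
      change (if Blk c x (rep y) then g else _) = _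
      rw [if_neg h1, if_neg h2]
    have Haut : ∀ y, Aut c (H y) := by
      intro y
      by_cases hy : Blk c x y
      · rw [H1 y hy]; exact hg
      · by_cases hay : ∃ a ∈ A, Blk c a y
        · obtain ⟨a, ha, hay⟩ := hay
          rw [H2 y a ha hay]; exact aut_refl
        · rw [H3 y hy hay]; exact h3a _
    have Hd : ∀ y, Blk c (H y y) (d y) := by
      intro y
      by_cases hy : Blk c x y
      · rw [H1 y hy]
        have h1 := (w_blk g (aut_w g hg) x y).1 hy
        exact blk_eq.trans (blk_eq.trans (blk_eq.symm h1) d6) ((d1 x y).1 hy)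
      · by_cases hay : ∃ a ∈ A, Blk c a y
        · obtain ⟨a, ha, hay⟩ := hay
          rw [H2 y a ha hay]
          exact blk_eq.trans (blk_eq.trans (blk_eq.symm hay) (d5 a ha)) ((d1 a y).1 hay)
        · rw [H3 y hy hay]
          have h1 := (w_blk _ (aut_w _ (h3a (rep y))) (rep y) y).1 (rep_blk y)
          exact blk_eq.trans (blk_eq.trans (blk_eq.symm h1) (h3b (rep y)))
            ((d1 (rep y) y).1 (rep_blk y))
    have Heq : ∀ y z, Blk c y z → H y = H z := by
      intro y z h
      change (if Blk c x (rep y) then g else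
        if ∃ a ∈ A, Blk c a (rep y) then OrderIso.refl P else h3 (rep y)) = _
      rw [rep_eq y z h]
    obtain ⟨h, hh⟩ := glue blk_eq H d Heq (fun w y z => w_blk _ (aut_w _ (Haut w)) y z) Hd d1 d2
      (fun y z hyz => d4 y z _ _ (Haut y y) (Haut z z) (blk_eq.symm (Hd y)) (blk_eq.symm (Hd z)) hyz)
    refine ⟨h, fun y => ?_, fun a ha => ?_, ?_⟩
    · rw [hh]; exact Haut y y
    · rw [hh, H2 a a ha (Blk.refl a)]; rfl
    · rw [hh, H1 x (Blk.refl x)]

end Run7.h901.PO.GL
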