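import Pool.Agent.Run7.h901.PO.Iface

/-!
Piece GL1 of project PO (helper901), written by helper650.
-/

set_option autoImplicit false

namespace Run7.h901.PO.GL1

open Run7.h901.PO

section

variable {P : Type} [PartialOrder P] (c : P → P → Prop) (hB : Equivalence (Blk c))

/-- the setoid of the blocks -/
def st : Setoid P := ⟨Blk c, hB⟩

/-- the block of an element -/
def cl (x : P) : Quotient (st c hB) := Quotient.mk (st c hB) x

theorem cl_eq {x y : P} : cl c hB x = cl c hB y ↔ Blk c x y :=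
  ⟨fun h => Quotient.exact h, fun h => Quotient.sound h⟩

/-- the permutations of the blocks induced by automorphisms -/
def Ga (h1 : Aut c (OrderIso.refl P)) (h2 : ∀ g, Aut c g → Aut c g.symm)
    (h3 : ∀ g h, Aut c g → Aut c h → Aut c (g.trans h)) :
    Subgroup (Equiv.Perm (Quotient (st c hB))) where
  carrier := {γ | ∃ g : P ≃o P, Aut c g ∧ ∀ x, γ (cl c hB x) = cl c hB (g x)}
  one_mem' := ⟨OrderIso.refl P, h1, fun _ => rfl⟩
  mul_mem' := by
    rintro a b ⟨g, hg, hga⟩ ⟨h, hh, hhb⟩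
    refine ⟨h.trans g, h3 _ _ hh hg, fun x => ?_⟩
    show a (b (cl c hB x)) = _
    rw [hhb, hga]
    rfl
  inv_mem' := by
    rintro a ⟨g, hg, hga⟩
    refine ⟨g.symm, h2 _ hg, fun x => ?_⟩
    rw [Equiv.Perm.inv_eq_iff_eq, hga, OrderIso.apply_symm_apply]

/-- order of the blocks -/
def lt (U V : Quotient (st c hB)) : Prop :=
  U ≠ V ∧ ∃ x y, cl c hB x = U ∧ cl c hB y = V ∧ c x y ∧ x ≤ y

end

theorem piece : S_BAS → S_BM → S_SK → S_GL1 := by
  intro hBAS hBM hSK P _ _ c hc hTr hFO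
  obtain ⟨_, hrefl, hsymm, htrans, _, _, _, _, _, hB, _, _, _, _, hcomp, _, _, hBinv, hlast⟩ :=
    hBAS P c hc
  have hWA := (hBAS P c hc).1
  have hBM' := hBM P c hc hTr
  classical
  set Q := Quotient (st c hB) with hQ
  -- automorphisms act
  have hact : ∀ g : P ≃o P, Aut c g → ∃ γ ∈ Ga c hB hrefl hsymm htrans,
      ∀ x, γ (cl c hB x) = cl c hB (g x) := by
    intro g hg
    refine ⟨Quotient.congr g.toEquiv (fun a b => hBinv g (hWA g hg) a b), ?_, fun x => rfl⟩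
    exact ⟨g, hg, fun x => rfl⟩
  have hout : ∀ U : Q, cl c hB U.out = U := fun U => Quotient.out_eq U
  -- BM for lt
  have hle : ∀ x y, lt c hB (cl c hB x) (cl c hB y) → c x y → x ≤ y := by
    rintro x y ⟨hne, x1, y1, hx1, hy1, h1, h2⟩ hxy
    rw [cl_eq] at hx1 hy1
    refine hBM' x1 y1 x y h1 hxy hx1 hy1 ?_ h2
    intro hb
    apply hne
    rw [cl_eq]
    exact hB.trans (hB.symm hx1) (hB.trans hb hy1)
  have hcg : ∀ g : P ≃o P, Aut c g → ∀ x y, c x y → c (g x) (g y) := fun g hg x y h =>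
    hc.trans (hc.symm (hg x)) (hc.trans h (hg y))
  have hltinv : ∀ γ ∈ Ga c hB hrefl hsymm htrans, ∀ s t, lt c hB s t → lt c hB (γ s) (γ t) := by
    rintro γ ⟨g, hg, hgγ⟩ s t ⟨hne, x, y, rfl, rfl, h1, h2⟩
    refine ⟨fun h => hne (γ.injective h), g x, g y, (hgγ x).symm, (hgγ y).symm, hcg g hg x y h1, ?_⟩
    exact g.monotone h2
  have hirr : ∀ s, ¬ lt c hB s s := fun s h => h.1 rfl
  have hlttr : ∀ s t u, lt c hB s t → lt c hB t u → lt c hB s u := by
    rintro s t u h1 h2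
    obtain ⟨hne, x, y, rfl, rfl, hcxy, hxy⟩ := h1
    have h2' := h2
    obtain ⟨hne2, y1, z1, hy1, rfl, hcyz, hyz⟩ := h2
    obtain ⟨g, hg, hgy⟩ := hTr y1 z1 hcyz
    have hb : Blk c y1 y := (cl_eq c hB).1 hy1
    have hb2 : Blk c z1 (g y) := by
      rw [← hgy]
      exact (hBinv g (hWA g hg) _ _).1 hb
    have hcl : cl c hB z1 = cl c hB (g y) := (cl_eq c hB).2 hb2
    rw [hcl] at h2' hne2 ⊢
    have hyg : y ≤ g y := hle y (g y) h2' (hg y)
    refine ⟨?_, x, g y, rfl, rfl, hc.trans hcxy (hg y), hxy.trans hyg⟩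
    intro heq
    have hb3 : Blk c x (g y) := (cl_eq c hB).1 heq
    have hnb : ¬ Blk c y (g y) := fun h => hne2 ((cl_eq c hB).2 h)
    have h4 : y ≤ x := hBM' y (g y) y x (hg y) (hc.symm hcxy) (hB.refl y) (hB.symm hb3) hnb hyg
    have h5 : x = y := le_antisymm hxy h4
    apply hne
    rw [h5]
  have htri : ∀ s, ∀ γ ∈ Ga c hB hrefl hsymm htrans,
      lt c hB s (γ s) ∨ s = γ s ∨ lt c hB (γ s) s := by
    rintro s γ ⟨g, hg, hgγ⟩
    obtain ⟨x, rfl⟩ : ∃ x, cl c hB x = s := ⟨s.out, hout s⟩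
    rw [hgγ]
    by_cases hb : Blk c x (g x)
    · right; left
      exact (cl_eq c hB).2 hb
    · have hne : cl c hB x ≠ cl c hB (g x) := fun h => hb ((cl_eq c hB).1 h)
      rcases hcomp x (g x) (hg x) hb with h | h
      · left
        exact ⟨hne, x, g x, rfl, rfl, hg x, h.le⟩
      · right; right
        exact ⟨hne.symm, g x, x, rfl, rfl, hc.symm (hg x), h.le⟩
  have hcount : Countable Q := Quotient.countable
  obtain ⟨n, f, hf⟩ := hFO
  obtain ⟨k, hk⟩ := hSK Q (Ga c hB hrefl hsymm htrans) (lt c hB)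
    ⟨n, fun s t => f s.out t.out, fun s t s' t' h => by
      obtain ⟨g, hg, h1, h2⟩ := hf _ _ _ _ h
      obtain ⟨γ, hγ, hγg⟩ := hact g hg
      refine ⟨γ, hγ, ?_, ?_⟩
      · rw [← hout s, hγg, h1, hout]
      · rw [← hout t, hγg, h2, hout]⟩
    (by
      rintro s t ⟨_, x, y, rfl, rfl, hxy, _⟩
      obtain ⟨g, hg, rfl⟩ := hTr x y hxy
      obtain ⟨γ, hγ, hγg⟩ := hact g hg
      exact ⟨γ, hγ, hγg x⟩)
    hltinv hirr hlttr htri
  refine ⟨k, fun A x => ?_⟩
  obtain ⟨A0, hA0, hcard, hA0'⟩ := hk (A.image (cl c hB)) (cl c hB x)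
  have hrep : ∀ U : Q, ∃ a : P, U ∈ A0 → a ∈ A ∧ cl c hB a = U := by
    intro U
    by_cases hU : U ∈ A0
    · obtain ⟨a, ha, haU⟩ := Finset.mem_image.1 (hA0 hU)
      exact ⟨a, fun _ => ⟨ha, haU⟩⟩
    · exact ⟨x, fun h => absurd h hU⟩
  choose r hr using hrep
  refine ⟨A0.image r, ?_, (Finset.card_image_le).trans hcard, ?_⟩
  · intro a ha
    obtain ⟨U, hU, rfl⟩ := Finset.mem_image.1 ha
    exact (hr U hU).1
  intro g hg hfix
  obtain ⟨γ, hγ, hγg⟩ := hact g hg
  obtain ⟨δ, hδ1, hδ2, hδ3, hδ4⟩ := hA0' γ hγ (by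
    intro U hU
    have h1 := hfix (r U) (Finset.mem_image_of_mem r hU)
    have h2 := (hr U hU).2
    rw [← h2, hγg]
    exact ((cl_eq c hB).2 h1).symm)
  set d : P → P := fun y => (δ (cl c hB y)).out with hd
  have hdcl : ∀ y, cl c hB (d y) = δ (cl c hB y) := fun y => hout _
  refine ⟨d, ?_, ?_, ?_, ?_, ?_, ?_⟩
  · intro y z
    rw [← cl_eq c hB, ← cl_eq c hB, hdcl, hdcl, δ.injective.eq_iff]
  · intro z
    refine ⟨(δ.symm (cl c hB z)).out, ?_⟩
    rw [← cl_eq c hB, hdcl, hout, Equiv.apply_symm_apply]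
  · intro y
    obtain ⟨γ', ⟨h, hh, hhγ⟩, hδγ⟩ := hδ1 (cl c hB y)
    refine ⟨h, hh, ?_⟩
    rw [← cl_eq c hB, hdcl, hδγ, hhγ]
  · intro y z y' z' hy hz hby hbz hnb
    let R : Q → Q → Prop := fun U V => ∃ y1 z1, c y y1 ∧ c z z1 ∧ ¬ Blk c y1 z1 ∧ y1 ≤ z1 ∧
      (U = cl c hB y1 ∨ lt c hB U (cl c hB y1)) ∧ (cl c hB z1 = V ∨ lt c hB (cl c hB z1) V)
    have hR : MInv (Ga c hB hrefl hsymm htrans) (lt c hB) R := by
      refine ⟨?_, ?_⟩
      · rintro γ' hγ' s t ⟨y1, z1, h1, h2, h3, h4, h5, h6⟩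
        obtain ⟨h, hh, hhγ⟩ := id hγ'
        refine ⟨h y1, h z1, hc.trans h1 (hh y1), hc.trans h2 (hh z1), ?_, h.monotone h4, ?_, ?_⟩
        · rw [← hBinv h (hWA h hh)]
          exact h3
        · rw [← hhγ]
          rcases h5 with h5 | h5
          · left; rw [h5]
          · right; exact hltinv γ' hγ' _ _ h5
        · rw [← hhγ]
          rcases h6 with h6 | h6
          · left; rw [h6]
          · right; exact hltinv γ' hγ' _ _ h6
      · rintro s s' t t' hs ht ⟨y1, z1, h1, h2, h3, h4, h5, h6⟩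
        refine ⟨y1, z1, h1, h2, h3, h4, ?_, ?_⟩
        · rcases hs with rfl | hs
          · exact h5
          · right
            rcases h5 with rfl | h5
            · exact hs
            · exact hlttr _ _ _ hs h5
        · rcases ht with rfl | ht
          · exact h6
          · right
            rcases h6 with rfl | h6
            · exact ht
            · exact hlttr _ _ _ h6 ht
    have hclaim : ∀ y0 z0, c y y0 → c z z0 → ¬ Blk c y0 z0 →
        (R (cl c hB y0) (cl c hB z0) ↔ y0 ≤ z0) := by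
      intro y0 z0 hy0 hz0 hn0
      constructor
      · rintro ⟨y1, z1, h1, h2, h3, h4, h5, h6⟩
        have hc1 : c y0 y1 := hc.trans (hc.symm hy0) h1
        have hc2 : c z1 z0 := hc.trans (hc.symm h2) hz0
        -- y0 ≤ z1 or y0, y1 in one block
        rcases h5 with h5 | h5
        · have hb1 : Blk c y0 y1 := (cl_eq c hB).1 h5
          rcases h6 with h6 | h6
          · have hb2 : Blk c z1 z0 := (cl_eq c hB).1 h6
            have h7 : ¬ Blk c z1 y1 := fun h => h3 (hB.symm h)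
            have h8 : y0 ≤ z1 := ((hlast z1 y1 y0 h7 (hB.symm hb1) (hc.symm hc1)).1).1 h4
            have h9 : ¬ Blk c y0 z1 := fun h => hn0 (hB.trans h hb2)
            exact ((hlast y0 z1 z0 h9 hb2 hc2).2).1 h8
          · have h7 : z1 ≤ z0 := hle _ _ h6 hc2
            have h8 : y1 ≤ z0 := h4.trans h7
            have h9 : ¬ Blk c z0 y1 := fun h => hn0 (hB.trans hb1 (hB.symm h))
            exact ((hlast z0 y1 y0 h9 (hB.symm hb1) (hc.symm hc1)).1).1 h8
        · have h7 : y0 ≤ y1 := hle _ _ h5 hc1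
          rcases h6 with h6 | h6
          · have hb2 : Blk c z1 z0 := (cl_eq c hB).1 h6
            have h8 : y0 ≤ z1 := h7.trans h4
            have h9 : ¬ Blk c y0 z1 := fun h => hn0 (hB.trans h hb2)
            exact ((hlast y0 z1 z0 h9 hb2 hc2).2).1 h8
          · exact (h7.trans h4).trans (hle _ _ h6 hc2)
      · intro h
        exact ⟨y0, z0, hy0, hz0, hn0, h, Or.inl rfl, Or.inl rfl⟩
    have hne' : ¬ Blk c y' z' := by
      intro h
      apply hnb
      rw [← cl_eq c hB]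
      apply δ.injective
      rw [← hdcl, ← hdcl, cl_eq]
      exact hB.trans hby (hB.trans h (hB.symm hbz))
    rw [← hclaim y z (hc.refl y) (hc.refl z) hnb, hδ2 R hR, ← hdcl, ← hdcl,
      (cl_eq c hB).2 hby, (cl_eq c hB).2 hbz, hclaim y' z' hy hz hne']
  · intro a ha
    rw [← cl_eq c hB, hdcl]
    exact (hδ3 _ (Finset.mem_image_of_mem _ ha)).symm
  · rw [← cl_eq c hB, hdcl, hδ4, hγg]

end Run7.h901.PO.GL1
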