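import Pool.Agent.Run7.h901.PO.Iface

/-!
# MP_b89912_lc (helper901): piece GOOD
-/

set_option autoImplicit false

namespace Run7.h901.PO.GOOD

open Run7.h901.PO

theorem piece : S_BAS → S_ICC → S_DIR → S_CC2 → S_FI1 → S_FC → S_ORB → S_GOOD := by
  intro hBAS hICC hDIR hCC2 hFI1 hFC hORB P _ c hc hTr hFO hFW
  obtain ⟨bAW, bA1, bAs, bAt, bW1, bWs, bWt, eic, ecc, eBlk, icc', ccc', icB, bne, bneB, invic,
    invcc, invBlk, bspl⟩ := hBAS P c hc
  obtain ⟨e1, c1c, c1fin, c1W⟩ := hFC P c hc hFO hFW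
  have hRefi : Refi c (c1 c) := ⟨c1c, c1fin, fun g hg => c1W g (bAW g hg)⟩
  obtain ⟨fo1, pow1⟩ := hFI1 P c (c1 c) hc e1 hRefi
  obtain ⟨ecp, trcp, cpc1, autcp, wautcp, focp, _⟩ := hORB P (c1 c) e1
  have hFOcp := focp (fo1 hFO)
  -- `ic` of the refined colouring is contained in `ic c`
  have icsub : ∀ x y, ic (orb (c1 c)) x y → ic c x y := by
    intro x y h
    unfold ic at h ⊢
    induction h with
    | refl => exact Relation.ReflTransGen.refl
    | tail _ hab ih => exact ih.tail ⟨c1c _ _ (cpc1 _ _ hab.1), hab.2⟩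
  intro x y hxy hne
  by_cases hA : ∃ z, c x z ∧ ¬ ic c x z
  · -- case A
    obtain ⟨z, hcz, hicz⟩ := hA
    have key : ∃ g : P ≃o P, Aut c g ∧ x < g x ∧ ¬ ic c x (g x) := by
      obtain ⟨g, hg, hgz⟩ := hTr x z hcz
      rcases bne x z hcz hicz with h | h
      · exact ⟨g, hg, by rw [hgz]; exact h, by rw [hgz]; exact hicz⟩
      · refine ⟨g.symm, bAs g hg, ?_, ?_⟩
        · have h1 : g.symm (g x) < g.symm x := g.symm.strictMono (by rw [hgz]; exact h)
          simpa using h1
        · intro h1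
          have h2 := (invic g (bAW g hg) x (g.symm x)).mp h1
          rw [g.apply_symm_apply, hgz] at h2
          exact hicz (eic.symm h2)
    obtain ⟨g, hg, hlt, hnic⟩ := key
    obtain ⟨n, hn, h, hh, hpow⟩ := pow1 g hg
    refine ⟨h x, ⟨h, hh, rfl⟩, fun hic => ?_⟩
    have h1 := icsub _ _ hic
    have hmono : ∀ m : ℕ, 1 ≤ m → g x ≤ (⇑g)^[m] x := by
      intro m hm
      induction m with
      | zero => omega
      | succ m ih =>
        rcases Nat.eq_zero_or_pos m with h0 | h0
        · subst h0; simp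
        · have h2 := ih h0
          rw [Function.iterate_succ_apply']
          have h3 : g (g x) ≤ g ((⇑g)^[m] x) := g.monotone h2
          have h4 : g x ≤ g (g x) := g.monotone hlt.le
          exact h4.trans h3
    have hle := hmono n hn
    rw [← hpow x] at hle
    have hc1 : c x (g x) := hg x
    have hc2 : c x (h x) := c1c _ _ (hh x)
    exact hnic ((hICC P c hc).1 x (g x) (h x) hc1 hc2 hlt.le hle h1).1
  · -- case B
    push Not at hA
    by_contra hcon
    push Not at hcon
    obtain ⟨y', hy', hncc⟩ := hCC2 P (orb (c1 c)) ecp trcp hFOcp hFW x hcon ⟨y, hxy, fun h => hne h.symm⟩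
    have hD : ∀ z, c1 c x z → cc c x z := by
      intro z hz
      rcases hz.2 with h | ⟨w, hw1, hw2⟩
      · exact h
      · exact absurd (hA w hw1) hw2
    have hdir := hDIR P c hc hTr hFW
    -- upper bounds in `D`
    have hub : ∀ u v, cc c x u → cc c x v → ∃ t, cc c x t ∧ u ≤ t ∧ v ≤ t := by
      intro u v hu hv
      obtain ⟨⟨t, ht1, ht2, ht3⟩, _⟩ := hdir u v (ecc.trans (ecc.symm hu) hv)
      exact ⟨t, hu.tail ⟨ht1, Or.inl ht2⟩, ht2, ht3⟩
    obtain ⟨n, f, hf⟩ := hFOcp
    have hcls : ∀ u v, f u u = f v v → orb (c1 c) u v := by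
      intro u v huv
      obtain ⟨g, hg, hgu, _⟩ := hf u u v v huv
      have h1 := hg u
      rw [hgu] at h1
      exact h1
    have hcof : ∃ i : Fin n, ∀ d, cc c x d → ∃ e, cc c x e ∧ f e e = i ∧ d ≤ e := by
      by_contra hno
      push Not at hno
      choose d hd1 hd2 using hno
      have hbd : ∀ s : Finset (Fin n), ∃ t, cc c x t ∧ ∀ i ∈ s, d i ≤ t := by
        intro s
        induction s using Finset.induction_on with
        | empty => exact ⟨x, Relation.ReflTransGen.refl, by simp⟩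
        | insert i s _ ih =>
          obtain ⟨t, ht1, ht2⟩ := ih
          obtain ⟨t', h1, h2, h3⟩ := hub t (d i) ht1 (hd1 i)
          refine ⟨t', h1, fun j hj => ?_⟩
          rcases Finset.mem_insert.mp hj with rfl | hj
          · exact h3
          · exact (ht2 j hj).trans h2
      obtain ⟨t, ht1, ht2⟩ := hbd Finset.univ
      exact hd2 (f t t) t ht1 rfl (ht2 _ (Finset.mem_univ _))
    obtain ⟨i, hi⟩ := hcof
    obtain ⟨o, ho1, ho2, _⟩ := hi x Relation.ReflTransGen.refl
    obtain ⟨g, hg, hgo⟩ := hTr o x (hc.symm (ccc' _ _ ho1))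
    have hgW := bAW g hg
    have hgcp : WAut (orb (c1 c)) g := wautcp g (c1W g hgW)
    have hgx : cc c (g x) x := by
      have := (invcc g hgW x o).mp ho1
      rwa [hgo] at this
    have hgD : ∀ e, cc c x e → cc c x (g e) := fun e he =>
      ecc.trans (ecc.symm hgx) ((invcc g hgW x e).mp he)
    have hgsD : ∀ e, cc c x e → cc c x (g.symm e) := by
      intro e he
      have h1 : cc c (g o) (g (g.symm e)) := by rw [hgo, g.apply_symm_apply]; exact he
      exact ecc.trans ho1 ((invcc g hgW _ _).mpr h1)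
    have hy'D : cc c x y' := hD y' (cpc1 _ _ hy')
    obtain ⟨t, ht1, ht2, ht3⟩ := hub x y' Relation.ReflTransGen.refl hy'D
    obtain ⟨e, he1, he2, he3⟩ := hi (g.symm t) (hgsD t ht1)
    have hoe : orb (c1 c) o e := hcls o e (by rw [ho2, he2])
    have hxe : orb (c1 c) x (g e) := by
      have := (hgcp o e).mp hoe
      rwa [hgo] at this
    have hte : t ≤ g e := by
      have := g.monotone he3
      rwa [g.apply_symm_apply] at this
    apply hncc
    have s1 : cc (orb (c1 c)) x (g e) :=
      Relation.ReflTransGen.single ⟨hxe, Or.inl (ht2.trans hte)⟩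
    exact s1.tail ⟨ecp.trans (ecp.symm hxe) hy', Or.inr (ht3.trans hte)⟩

end Run7.h901.PO.GOOD
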