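import Pool.Agent.Run7.h901.PO.Iface

set_option autoImplicit false

namespace Run7.h901.PO.ICC

open Run7.h901.PO

theorem piece : S_BAS → S_ICC := by
  intro hBAS P _ c hc
  obtain ⟨_, _, _, _, _, _, _, hic, _, _, hicc, _⟩ := hBAS P c hc
  have step : ∀ a b, c a b → Inc a b → ic c a b := fun a b h1 h2 =>
    Relation.ReflTransGen.single ⟨h1, h2⟩
  refine ⟨?_, ?_⟩
  · intro x y z hxy hxz h1 h2 h3
    suffices h : ic c x y from ⟨h, hic.trans (hic.symm h) h3⟩
    rcases eq_or_lt_of_le h1 with rfl | hlt
    · exact hic.refl x
    have key : ∀ w, ic c x w → ic c x y ∨ w < y := by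
      intro w hw
      unfold ic at hw
      induction hw with
      | refl => exact Or.inr hlt
      | @tail w w' hw hww' ih =>
        have hw1 : ic c x w := hw
        have hw2 : ic c x w' := hic.trans hw1 (step _ _ hww'.1 hww'.2)
        rcases ih with ih | ih
        · exact Or.inl ih
        by_cases h4 : w' ≤ y
        · rcases eq_or_lt_of_le h4 with h5 | h5
          · left
            rw [← h5]
            exact hw2
          · exact Or.inr h5
        · by_cases h5 : y ≤ w'
          · exact absurd (ih.le.trans h5) hww'.2.1
          · left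
            have hcw : c w' y := hc.trans (hc.symm (hicc _ _ hw2)) hxy
            exact hic.trans hw2 (step _ _ hcw ⟨h4, h5⟩)
    rcases key z h3 with h | h
    · exact h
    · exact absurd h2 h.not_ge
  · have left : ∀ x y x', c x y → x ≤ y → ¬ ic c x y → ic c x x' → x' ≤ y := by
      intro x y x' hxy h1 h2 h3
      unfold ic at h3
      induction h3 with
      | refl => exact h1
      | @tail w w' hw hww' ih =>
        by_contra h4
        by_cases h5 : y ≤ w'
        · exact hww'.2.1 (ih.trans h5)
        · apply h2
          have hw1 : ic c x w := hw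
          have hw2 : ic c x w' := hic.trans hw1 (step _ _ hww'.1 hww'.2)
          have hcw : c w' y := hc.trans (hc.symm (hicc _ _ hw2)) hxy
          exact hic.trans hw2 (step _ _ hcw ⟨h4, h5⟩)
    have right : ∀ x y y', c x y → x ≤ y → ¬ ic c x y → ic c y y' → x ≤ y' := by
      intro x y y' hxy h1 h2 h3
      unfold ic at h3
      induction h3 with
      | refl => exact h1
      | @tail w w' hw hww' ih =>
        by_contra h4
        by_cases h5 : w' ≤ x
        · exact hww'.2.2 (h5.trans ih)
        · apply h2
          have hw1 : ic c y w := hw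
          have hw2 : ic c y w' := hic.trans hw1 (step _ _ hww'.1 hww'.2)
          have hcw : c x w' := hc.trans hxy (hicc _ _ hw2)
          exact hic.trans (step _ _ hcw ⟨h4, h5⟩) (hic.symm hw2)
    intro x y x' y' hxy h1 h2 h3 h4
    have h5 := left x y x' hxy h1 h2 h3
    refine right x' y y' (hc.trans (hc.symm (hicc _ _ h3)) hxy) h5 ?_ h4
    intro h6
    exact h2 (hic.trans h3 h6)

end Run7.h901.PO.ICC
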