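import Pool.Agent.Run7.h901.PO.Iface

/-! # Project PO of helper901: piece ISO -/

set_option autoImplicit false

open Classical

namespace Run7.h901.PO.ISO

open Run7.h901.PO

variable {N M : Type} [PartialOrder N] {le : M → M → Prop} {k : ℕ}
  {R : (Fin (2 * k + 2) → N) → (Fin (2 * k + 2) → M) → Prop}

/-- good finite sets of pairs -/
def GG (R : (Fin (2 * k + 2) → N) → (Fin (2 * k + 2) → M) → Prop) (p : Finset (N × M)) : Prop :=
  ∀ σ : Fin (2 * k + 2) → N × M, (∀ i, σ i ∈ p) → R (fun i => (σ i).1) (fun i => (σ i).2)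

omit [PartialOrder N] in
lemma G_mono {p p' : Finset (N × M)} (h : p' ⊆ p) (hp : GG R p) : GG R p' :=
  fun σ hσ => hp σ (fun i => h (hσ i))

lemma cov (hR : Peb le (2 * k + 2) R) (τ : Fin (2 * k + 2) → N × M)
    (hτ : R (fun i => (τ i).1) (fun i => (τ i).2)) (p : Finset (N × M)) (hp : ∀ q ∈ p, ∃ j, τ j = q) : GG R p := by
  intro σ hσ
  choose ρ hρ using fun i => hp (σ i) (hσ i)
  have h1 := hR.comp _ _ hτ ρ
  have e1 : (fun i => (τ i).1) ∘ ρ = fun i => (σ i).1 := by
    funext i; simp only [Function.comp, hρ i]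
  have e2 : (fun i => (τ i).2) ∘ ρ = fun i => (σ i).2 := by
    funext i; simp only [Function.comp, hρ i]
  rw [e1, e2] at h1
  exact h1

lemma G_ord (hR : Peb le (2 * k + 2) R) {p : Finset (N × M)} (hp : GG R p) (q s : N × M) (hq : q ∈ p) (hs : s ∈ p) :
    (q.1 ≤ s.1 ↔ le q.2 s.2) ∧ (q.1 = s.1 ↔ q.2 = s.2) := by
  have h1 := hp (fun i => if i = 0 then q else s) (by intro i; by_cases h : i = 0 <;> simp [h, hq, hs])
  have h2 := hR.ord _ _ h1 0 1
  simpa using h2

/-- enumeration of a small set -/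
lemma enum1 (p : Finset (N × M)) (hp : p.card ≤ 2 * k + 1) (q0 : N × M) (hq0 : q0 ∈ p) :
    ∃ τ : Fin (2 * k + 2) → N × M, (∀ j, τ j ∈ p) ∧ ∀ q ∈ p, ∃ j, j ≠ 0 ∧ τ j = q := by
  refine ⟨Fin.cons q0 (fun i : Fin (2 * k + 1) => if h : i.val < p.card then (p.equivFin.symm ⟨i.val, h⟩).1 else q0),
    ?_, ?_⟩
  · intro j
    refine Fin.cases ?_ (fun i => ?_) j
    · simpa using hq0
    · rw [Fin.cons_succ]
      split_ifs with h
      · exact (p.equivFin.symm ⟨i.val, h⟩).2
      · exact hq0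
  · intro q hq
    set i := p.equivFin ⟨q, hq⟩ with hi
    have hlt : i.val < 2 * k + 1 := lt_of_lt_of_le i.2 hp
    refine ⟨Fin.succ ⟨i.val, hlt⟩, Fin.succ_ne_zero _, ?_⟩
    rw [Fin.cons_succ, dif_pos i.2]
    have : (⟨i.val, i.2⟩ : Fin p.card) = i := rfl
    simp only [hi, Fin.eta, Equiv.symm_apply_apply]

lemma enum2 (p : Finset (N × M)) (hp : p.card ≤ 2 * k + 2) (q0 : N × M) (hq0 : q0 ∈ p) :
    ∃ τ : Fin (2 * k + 2) → N × M, (∀ j, τ j ∈ p) ∧ ∀ q ∈ p, ∃ j, τ j = q := by
  refine ⟨fun i => if h : i.val < p.card then (p.equivFin.symm ⟨i.val, h⟩).1 else q0, ?_, ?_⟩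
  · intro j
    simp only
    split_ifs with h
    · exact (p.equivFin.symm ⟨j.val, h⟩).2
    · exact hq0
  · intro q hq
    set i := p.equivFin ⟨q, hq⟩ with hi
    have hlt : i.val < 2 * k + 2 := lt_of_lt_of_le i.2 hp
    refine ⟨⟨i.val, hlt⟩, ?_⟩
    simp only
    rw [dif_pos i.2]
    simp only [hi, Fin.eta, Equiv.symm_apply_apply]

/-- an enumeration with a redundant place -/
lemma enum3 (hR : Peb le (2 * k + 2) R) {p : Finset (N × M)} (hG : GG R p) (hp : p.card ≤ 2 * k + 1) :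
    ∃ τ : Fin (2 * k + 2) → N × M, R (fun i => (τ i).1) (fun i => (τ i).2) ∧ ∀ q ∈ p, ∃ j, j ≠ 0 ∧ τ j = q := by
  rcases p.eq_empty_or_nonempty with rfl | ⟨q0, hq0⟩
  · obtain ⟨a, b, hab⟩ := hR.start
    exact ⟨fun i => (a i, b i), hab, by simp⟩
  · obtain ⟨τ, h1, h2⟩ := enum1 p hp q0 hq0
    exact ⟨τ, hG τ h1, h2⟩

lemma G_insert (hR : Peb le (2 * k + 2) R) {p : Finset (N × M)} (τ : Fin (2 * k + 2) → N × M)
    (hτ : ∀ q ∈ p, ∃ j, j ≠ 0 ∧ τ j = q) (x : N) (y : M)
    (h : R (Function.update (fun i => (τ i).1) 0 x) (Function.update (fun i => (τ i).2) 0 y)) :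
    GG R (insert (x, y) p) := by
  apply cov hR (Function.update τ 0 (x, y))
  · have e1 : (fun i => (Function.update τ 0 (x, y) i).1) = Function.update (fun i => (τ i).1) 0 x := by
      funext i
      by_cases hi : i = 0
      · subst hi; simp
      · simp [Function.update_of_ne hi]
    have e2 : (fun i => (Function.update τ 0 (x, y) i).2) = Function.update (fun i => (τ i).2) 0 y := by
      funext i
      by_cases hi : i = 0
      · subst hi; simp
      · simp [Function.update_of_ne hi]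
    rw [e1, e2]
    exact h
  · intro q hq
    rcases Finset.mem_insert.1 hq with rfl | hq
    · exact ⟨0, by simp⟩
    · obtain ⟨j, hj, h2⟩ := hτ q hq
      exact ⟨j, by rw [Function.update_of_ne hj]; exact h2⟩

lemma G_forth (hR : Peb le (2 * k + 2) R) {p : Finset (N × M)} (hG : GG R p) (hp : p.card ≤ 2 * k + 1) (x : N) :
    ∃ y, GG R (insert (x, y) p) := by
  obtain ⟨τ, h1, h2⟩ := enum3 hR hG hp
  obtain ⟨y, hy⟩ := hR.forth _ _ h1 0 x
  exact ⟨y, G_insert hR τ h2 x y hy⟩

lemma G_back (hR : Peb le (2 * k + 2) R) {p : Finset (N × M)} (hG : GG R p) (hp : p.card ≤ 2 * k + 1) (y : M) :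
    ∃ x, GG R (insert (x, y) p) := by
  obtain ⟨τ, h1, h2⟩ := enum3 hR hG hp
  obtain ⟨x, hx⟩ := hR.back _ _ h1 0 y
  exact ⟨x, G_insert hR τ h2 x y hx⟩

lemma G_orbit (hR : Peb le (2 * k + 2) R) {p : Finset (N × M)} (hG : GG R p) (hp : p.card ≤ 2 * k + 2)
    (f : N × M → N) (hG' : GG R (p.image (fun q => (f q, q.2)))) : ∃ g : N ≃o N, ∀ q ∈ p, g q.1 = f q := by
  rcases p.eq_empty_or_nonempty with rfl | ⟨q0, hq0⟩
  · exact ⟨OrderIso.refl N, by simp⟩
  · obtain ⟨τ, h1, h2⟩ := enum2 p hp q0 hq0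
    have h3 := hG τ h1
    have h4 := hG' (fun j => (f (τ j), (τ j).2)) (fun j => Finset.mem_image_of_mem _ (h1 j))
    obtain ⟨g, hg⟩ := hR.orbit _ _ _ h3 h4
    refine ⟨g, fun q hq => ?_⟩
    obtain ⟨j, rfl⟩ := h2 q hq
    exact hg j

lemma G_aut (hR : Peb le (2 * k + 2) R) {p : Finset (N × M)} (hG : GG R p) (g : N ≃o N) :
    GG R (p.image (fun q => (g q.1, q.2))) := by
  intro σ hσ
  choose ρ hρ1 hρ2 using fun i => Finset.mem_image.1 (hσ i)
  have h1 := hG ρ hρ1
  have h2 := hR.aut _ _ h1 g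
  have e1 : (fun i => g (ρ i).1) = fun i => (σ i).1 := by
    funext i; rw [← hρ2 i]
  have e2 : (fun i => (ρ i).2) = fun i => (σ i).2 := by
    funext i; rw [← hρ2 i]
  rw [e1, e2] at h2
  exact h2

lemma all_b (hR : Peb le (2 * k + 2) R) (b : Fin (2 * k + 2) → M) : ∃ a, R a b := by
  have h : ∀ s : Finset (Fin (2 * k + 2)), ∃ a b', R a b' ∧ ∀ i ∈ s, b' i = b i := by
    intro s
    induction s using Finset.induction_on with
    | empty =>
      obtain ⟨a, b', hab⟩ := hR.start
      exact ⟨a, b', hab, by simp⟩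
    | insert i s hi ih =>
      obtain ⟨a, b', hab, hs⟩ := ih
      obtain ⟨x, hx⟩ := hR.back _ _ hab i (b i)
      refine ⟨_, _, hx, ?_⟩
      intro j hj
      by_cases hji : j = i
      · subst hji; simp
      · rw [Function.update_of_ne hji]
        rcases Finset.mem_insert.1 hj with h | h
        · exact absurd h hji
        · exact hs j h
  obtain ⟨a, b', hab, hs⟩ := h Finset.univ
  have e : b' = b := by funext i; exact hs i (Finset.mem_univ i)
  rw [e] at hab
  exact ⟨a, hab⟩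

/-- it is enough to look at small subsets -/
lemma G_small (hST : S_STAR) (hK : KK k (fun _ _ : N => True)) (hR : Peb le (2 * k + 2) R) (p : Finset (N × M))
    (hp : ∀ p' ⊆ p, p'.card ≤ k + 1 → GG R p') : GG R p := by
  intro σ hσ
  obtain ⟨a', ha'⟩ := all_b hR (fun i => (σ i).2)
  have hcons : ∀ i j, (σ i).1 = (σ j).1 → a' i = a' j := by
    intro i j hij
    rcases Nat.eq_zero_or_pos k with hk | hk
    · have htriv : ∀ (g : N ≃o N) (x : N), g x = x := by
        intro g x
        obtain ⟨A0, h1, h2, h3⟩ := hK {x} x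
        have hA0 : A0 = ∅ := by rw [hk] at h2; exact Finset.card_eq_zero.1 (Nat.le_zero.1 h2)
        obtain ⟨h, _, h4, h5⟩ := h3 g (fun _ => trivial) (by rw [hA0]; simp)
        rw [← h5, h4 x (by simp)]
      have key : ∀ i, a' i = (σ i).1 := by
        intro i
        have h6 := hR.comp _ _ ha' (fun _ => i)
        have h7 := hp {σ i} (by simpa using hσ i) (by simp) (fun _ => σ i) (by simp)
        obtain ⟨g, hg⟩ := hR.orbit _ _ _ h6 h7
        have h8 := hg 0
        simp only [Function.comp] at h8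
        rw [← h8, htriv]
      rw [key i, key j, hij]
    · have h6 : GG R {σ i, σ j} := by
        apply hp
        · intro q hq
          rw [Finset.mem_insert, Finset.mem_singleton] at hq
          rcases hq with rfl | rfl
          · exact hσ i
          · exact hσ j
        · have := Finset.card_le_two (a := σ i) (b := σ j)
          omega
      have h7 := (G_ord hR h6 (σ i) (σ j) (by simp) (by simp)).2.1 hij
      exact ((hR.ord _ _ ha' i j).2).2 h7
  set A := Finset.univ.image (fun i => (σ i).1) with hA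
  have hidx : ∀ n, ∃ i, n ∈ A → (σ i).1 = n := by
    intro n
    by_cases h : n ∈ A
    · obtain ⟨i, _, hi⟩ := Finset.mem_image.1 h
      exact ⟨i, fun _ => hi⟩
    · exact ⟨0, fun h' => absurd h' h⟩
  choose idx hidx using hidx
  have hEq : Equivalence (fun _ _ : N => True) := ⟨fun _ => trivial, fun _ => trivial, fun _ _ => trivial⟩
  obtain ⟨h, _, hh⟩ := hST N (fun _ _ => True) hEq k hK A (fun n => a' (idx n)) (by
    intro B hB hBc
    set p' := B.image (fun b => σ (idx b)) with hp'd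
    have hp'G : GG R p' := by
      apply hp p' _ (Finset.card_image_le.trans hBc)
      intro q hq
      obtain ⟨b, _, rfl⟩ := Finset.mem_image.1 hq
      exact hσ _
    have hG' : GG R (p'.image (fun q => (a' (idx q.1), q.2))) := by
      apply cov hR (fun i => (a' i, (σ i).2)) ha'
      intro q hq
      obtain ⟨q1, hq1, rfl⟩ := Finset.mem_image.1 hq
      obtain ⟨b, hb, rfl⟩ := Finset.mem_image.1 hq1
      refine ⟨idx b, ?_⟩
      have h1 := hidx b (hB hb)
      show (a' (idx b), (σ (idx b)).2) = (a' (idx (σ (idx b)).1), (σ (idx b)).2)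
      rw [h1]
    obtain ⟨g, hg⟩ := G_orbit hR hp'G (by
      have : p'.card ≤ k + 1 := Finset.card_image_le.trans hBc
      omega) (fun q => a' (idx q.1)) hG'
    refine ⟨g, fun _ => trivial, fun b hb => ?_⟩
    have h10 := hg (σ (idx b)) (Finset.mem_image_of_mem _ hb)
    have h11 := hidx b (hB hb)
    rw [h11] at h10
    exact h10)
  have h8 : ∀ i, h (σ i).1 = a' i := by
    intro i
    have hm : (σ i).1 ∈ A := Finset.mem_image_of_mem _ (Finset.mem_univ i)
    rw [hh _ hm]
    exact hcons _ _ (hidx _ hm)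
  have h9 := hR.aut _ _ ha' h.symm
  have e : (fun i => h.symm (a' i)) = fun i => (σ i).1 := by
    funext i
    rw [← h8 i, OrderIso.symm_apply_apply]
  rw [e] at h9
  exact h9

lemma pull (hR : Peb le (2 * k + 2) R) {p : Finset (N × M)} (x x' : N) (y : M) (hG : GG R (insert (x', y) p))
    (h : N ≃o N) (hx : h x = x') (hfix : ∀ q ∈ p, h q.1 = q.1) : GG R (insert (x, y) p) := by
  refine G_mono ?_ (G_aut hR hG h.symm)
  intro q hq
  rw [Finset.mem_image]
  rcases Finset.mem_insert.1 hq with rfl | hq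
  · exact ⟨(x', y), Finset.mem_insert_self _ _, by simp [← hx]⟩
  · refine ⟨q, Finset.mem_insert_of_mem hq, ?_⟩
    have h1 := hfix q hq
    have h2 : h.symm q.1 = q.1 := by
      conv_lhs => rw [← h1]
      exact h.symm_apply_apply _
    rw [h2]

lemma move (hR : Peb le (2 * k + 2) R) {p : Finset (N × M)} (x x' : N) (y : M) (hp : p.card ≤ 2 * k + 1)
    (hG : GG R (insert (x, y) p)) (hG' : GG R (insert (x', y) p)) :
    ∃ g : N ≃o N, g x = x' ∧ ∀ q ∈ p, g q.1 = q.1 := by
  obtain ⟨g, hg⟩ := G_orbit hR hG ((Finset.card_insert_le _ _).trans (by omega))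
    (fun q => if q = (x, y) then x' else q.1) (by
      refine G_mono ?_ hG'
      intro q hq
      obtain ⟨s, hs, rfl⟩ := Finset.mem_image.1 hq
      by_cases hse : s = (x, y)
      · rw [hse]; simp
      · simp only [if_neg hse]
        rcases Finset.mem_insert.1 hs with h | h
        · exact absurd h hse
        · exact Finset.mem_insert_of_mem h)
  have hgx : g x = x' := by
    have := hg (x, y) (Finset.mem_insert_self _ _)
    simpa using this
  refine ⟨g, hgx, fun q hq => ?_⟩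
  have h1 := hg q (Finset.mem_insert_of_mem hq)
  by_cases hqe : q = (x, y)
  · have h2 := (G_ord hR hG' (x', y) q (Finset.mem_insert_self _ _) (Finset.mem_insert_of_mem hq)).2.2 (by rw [hqe])
    rw [hqe] at h2 ⊢
    simp only at h2 ⊢
    rw [hgx, h2]
  · simpa [hqe] using h1

lemma kk (hK : KK k (fun _ _ : N => True)) (hR : Peb le (2 * k + 2) R) {p : Finset (N × M)} (hG : GG R p) (x : N) :
    ∃ p1 ⊆ p, p1.card ≤ k ∧ ∀ g : N ≃o N, (∀ q ∈ p1, g q.1 = q.1) →
      ∃ h : N ≃o N, (∀ q ∈ p, h q.1 = q.1) ∧ h x = g x := by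
  obtain ⟨A0, hA0, hc0, hk0⟩ := hK (p.image Prod.fst) x
  refine ⟨p.filter (fun q => q.1 ∈ A0), Finset.filter_subset _ _, ?_, ?_⟩
  · refine le_trans ?_ hc0
    apply Finset.card_le_card_of_injOn Prod.fst
    · intro q hq
      exact (Finset.mem_filter.1 hq).2
    · intro q hq s hs hqs
      have h1 := (Finset.mem_filter.1 hq).1
      have h2 := (Finset.mem_filter.1 hs).1
      exact Prod.ext hqs ((G_ord hR hG q s h1 h2).2.1 hqs)
  · intro g hg
    obtain ⟨h, _, h1, h2⟩ := hk0 g (fun _ => trivial) (by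
      intro a ha
      obtain ⟨q, hq, rfl⟩ := Finset.mem_image.1 (hA0 ha)
      exact hg q (Finset.mem_filter.2 ⟨hq, ha⟩))
    exact ⟨h, fun q hq => h1 q.1 (Finset.mem_image_of_mem _ hq), h2⟩

lemma forthG (hST : S_STAR) (hK : KK k (fun _ _ : N => True)) (hR : Peb le (2 * k + 2) R) {p : Finset (N × M)}
    (hG : GG R p) (x : N) : ∃ y, GG R (insert (x, y) p) := by
  obtain ⟨p0, hp0, hc0, hk0⟩ := kk hK hR hG x
  obtain ⟨y, hy⟩ := G_forth hR (G_mono hp0 hG) (by omega) x
  refine ⟨y, G_small hST hK hR _ ?_⟩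
  intro p' hp' hcp'
  by_cases hxy : (x, y) ∈ p'
  · set C := p'.erase (x, y) with hCd
    have hC : C ⊆ p := by
      intro q hq
      obtain ⟨h1, h2⟩ := Finset.mem_erase.1 hq
      exact (Finset.mem_insert.1 (hp' h2)).resolve_left h1
    have hCc : C.card ≤ k := by
      rw [hCd, Finset.card_erase_of_mem hxy]; omega
    have hu : p0 ∪ C ⊆ p := Finset.union_subset hp0 hC
    have huc : (p0 ∪ C).card ≤ 2 * k := (Finset.card_union_le _ _).trans (by omega)
    obtain ⟨x', hx'⟩ := G_back hR (G_mono hu hG) (by omega) y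
    have hx0 : GG R (insert (x', y) p0) := G_mono (Finset.insert_subset_insert _ Finset.subset_union_left) hx'
    obtain ⟨g, hgx, hg⟩ := move hR x x' y (by omega) hy hx0
    obtain ⟨h, hh, hhx⟩ := hk0 g hg
    refine G_mono ?_ (pull hR x x' y hx' h (hhx.trans hgx) (fun q hq => hh q (hu hq)))
    intro q hq
    by_cases hqe : q = (x, y)
    · rw [hqe]; exact Finset.mem_insert_self _ _
    · exact Finset.mem_insert_of_mem (Finset.mem_union_right _ (Finset.mem_erase.2 ⟨hqe, hq⟩))
  · refine G_mono (fun q hq => ?_) hG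
    refine (Finset.mem_insert.1 (hp' hq)).resolve_left (fun e => hxy ?_)
    rw [← e]; exact hq

lemma backG (hST : S_STAR) (hK : KK k (fun _ _ : N => True)) (hR : Peb le (2 * k + 2) R) {p : Finset (N × M)}
    (hG : GG R p) (y : M) : ∃ x, GG R (insert (x, y) p) := by
  set L : Finset (N × M) → Set N := fun q => {x | GG R (insert (x, y) q)} with hL
  have hmono : ∀ q q' : Finset (N × M), q ⊆ q' → L q' ⊆ L q := by
    intro q q' hqq z hz
    exact G_mono (Finset.insert_subset_insert _ hqq) hz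
  set fam := p.powerset.filter (fun q => q.card ≤ k) with hfam
  have hne : fam.Nonempty := ⟨∅, by simp [hfam]⟩
  obtain ⟨p0, hp0, hmin⟩ := Finset.exists_minimalFor L fam hne
  obtain ⟨hp0p, hp0c⟩ := Finset.mem_filter.1 hp0
  rw [Finset.mem_powerset] at hp0p
  obtain ⟨x, hx⟩ := G_back hR (G_mono hp0p hG) (by omega) y
  obtain ⟨p1, hp1, hc1, hk1⟩ := kk hK hR hG x
  have hu : p0 ∪ p1 ⊆ p := Finset.union_subset hp0p hp1
  have huc : (p0 ∪ p1).card ≤ 2 * k := (Finset.card_union_le _ _).trans (by omega)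
  obtain ⟨x', hx'⟩ := G_back hR (G_mono hu hG) (by omega) y
  obtain ⟨p2, hp2, hc2, hk2⟩ := kk hK hR (G_mono hu hG) x'
  have h2 : L p2 ⊆ L (p0 ∪ p1) := by
    intro z hz
    have hx2 : x' ∈ L p2 := hmono _ _ hp2 hx'
    obtain ⟨g, hgx, hg⟩ := move hR x' z y (by omega) hx2 hz
    obtain ⟨h, hh, hhx⟩ := hk2 g hg
    refine pull hR z x' y hx' h.symm ?_ ?_
    · rw [← hgx, ← hhx, OrderIso.symm_apply_apply]
    · intro q hq
      have h3 := hh q hq
      conv_lhs => rw [← h3]
      exact h.symm_apply_apply _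
  have h3 : L p2 ⊆ L p0 := h2.trans (hmono _ _ Finset.subset_union_left)
  have h4 : L p0 ⊆ L p2 := hmin (Finset.mem_filter.2 ⟨Finset.mem_powerset.2 (hp2.trans hu), hc2⟩) h3
  have h5 : L p0 ⊆ L p1 := (h4.trans h2).trans (hmono _ _ Finset.subset_union_right)
  have horb : ∀ z ∈ L p0, ∃ h : N ≃o N, (∀ q ∈ p, h q.1 = q.1) ∧ h x = z := by
    intro z hz
    obtain ⟨g, hgx, hg⟩ := move hR x z y (by omega) (h5 hx) (h5 hz)
    obtain ⟨h, hh, hhx⟩ := hk1 g hg
    exact ⟨h, hh, hhx.trans hgx⟩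
  refine ⟨x, G_small hST hK hR _ ?_⟩
  intro p' hp' hcp'
  by_cases hxy : (x, y) ∈ p'
  · set C := p'.erase (x, y) with hCd
    have hC : C ⊆ p := by
      intro q hq
      obtain ⟨h1, h2⟩ := Finset.mem_erase.1 hq
      exact (Finset.mem_insert.1 (hp' h2)).resolve_left h1
    have hCc : C.card ≤ k := by
      rw [hCd, Finset.card_erase_of_mem hxy]; omega
    have hu' : p0 ∪ C ⊆ p := Finset.union_subset hp0p hC
    have huc' : (p0 ∪ C).card ≤ 2 * k := (Finset.card_union_le _ _).trans (by omega)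
    obtain ⟨z, hz⟩ := G_back hR (G_mono hu' hG) (by omega) y
    obtain ⟨h, hh, hhx⟩ := horb z (hmono _ _ Finset.subset_union_left hz)
    refine G_mono ?_ (pull hR x z y hz h hhx (fun q hq => hh q (hu' hq)))
    intro q hq
    by_cases hqe : q = (x, y)
    · rw [hqe]; exact Finset.mem_insert_self _ _
    · exact Finset.mem_insert_of_mem (Finset.mem_union_right _ (Finset.mem_erase.2 ⟨hqe, hq⟩))
  · refine G_mono (fun q hq => ?_) hG
    refine (Finset.mem_insert.1 (hp' hq)).resolve_left (fun e => hxy ?_)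
    rw [← e]; exact hq

theorem piece : S_STAR → S_BF → S_ISO := by
  intro hST hBF N _ _ k hK M _ le R hR
  obtain ⟨e, _, he⟩ := hBF N M (GG R)
    (fun p hp q hq s hs => (G_ord hR hp q s hq hs).2)
    (fun p hp a => by
      obtain ⟨b, hb⟩ := forthG hST hK hR hp a
      exact ⟨b, _, hb, Finset.subset_insert _ _, Finset.mem_insert_self _ _⟩)
    (fun p hp b => by
      obtain ⟨a, ha⟩ := backG hST hK hR hp b
      exact ⟨a, _, ha, Finset.subset_insert _ _, Finset.mem_insert_self _ _⟩)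
    ∅ (fun σ hσ => absurd (hσ 0) (by simp))
  refine ⟨e, fun x y => ?_⟩
  obtain ⟨p, hp, h1⟩ := he {x, y}
  exact (G_ord hR hp (x, e x) (y, e y) (h1 x (by simp)) (h1 y (by simp))).1

end Run7.h901.PO.ISO
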