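import Pool.Agent.Run7.h901.PO.Iface
import Pool.Agent.R546.RN.Ryll

/-! Piece ISOL (helper580). -/

set_option autoImplicit false

namespace Run7.h901.PO.ISOL

open FirstOrder Pool.Agent.R546.RN

section
variable {N : Type} [PartialOrder N] [FirstOrder.Language.order.Structure N]
  [FirstOrder.Language.order.OrderedStructure N]

/-- an automorphism of the structure is an order isomorphism -/
def toOI (g : N ≃[FirstOrder.Language.order] N) : N ≃o N where
  toEquiv := g.toEquiv
  map_rel_iff' := by
    intro a b
    have h := g.map_rel' (FirstOrder.Language.leSymb : FirstOrder.Language.order.Relations 2) ![a, b]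
    rw [FirstOrder.Language.relMap_leSymb, FirstOrder.Language.relMap_leSymb] at h
    exact h

/-- an order isomorphism preserves all formulas -/
lemma realize_oi (g : N ≃o N) {α : Type} (φ : FirstOrder.Language.order.Formula α) (v : α → N) :
    φ.Realize (g ∘ v) ↔ φ.Realize v :=
  FirstOrder.Language.StrongHomClass.realize_formula g φ

end

theorem piece : S_ISOL := by
  intro N _ _ _ _ _ h r
  have hI : ∀ (n : ℕ) (v : Fin n → N), Isol FirstOrder.Language.order v := all_isol h
  obtain ⟨S, hS⟩ := oligomorphic_of_omegaCategorical' FirstOrder.Language.order N h r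
  choose χ h1 h2 using fun v : Fin r → N => hI r v
  let e : Fin S.card ≃ S := S.equivFin.symm
  refine ⟨S.card, fun i => χ (e i).1, fun a => ?_⟩
  obtain ⟨s, hs, g, hg⟩ := hS a
  have hst : St (L := FirstOrder.Language.order) a s := by
    intro φ
    have h3 : (g ∘ s) = a := funext hg
    rw [← h3]
    exact FirstOrder.Language.StrongHomClass.realize_formula g φ
  refine ⟨e.symm ⟨s, hs⟩, ?_, fun a' => ⟨fun h4 => ?_, fun h4 => ?_⟩⟩
  · simp only [Equiv.apply_symm_apply]
    exact (hst _).2 (h1 s)
  · simp only [Equiv.apply_symm_apply] at h4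
    have h5 := h2 s a' h4
    obtain ⟨g', hg'⟩ := exists_aut hI a a' (hst.trans' h5.symm')
    exact ⟨toOI g', hg'⟩
  · obtain ⟨g', hg'⟩ := h4
    simp only [Equiv.apply_symm_apply]
    have h6 : (g' ∘ a) = a' := funext hg'
    rw [← h6, realize_oi]
    exact (hst _).2 (h1 s)

end Run7.h901.PO.ISOL
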