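import Pool.Agent.Run7.h901.PO.Iface
import Pool.Agent.R546.RN.Ryll

/-!
# Piece LAST (helper884)
-/

set_option autoImplicit false
open scoped FirstOrder

namespace Run7.h901.PO.LAST

open FirstOrder FirstOrder.Language

/-- a countable elementary substructure -/
theorem exists_countable (L : FirstOrder.Language.{0, 0}) [Countable L.Symbols] (M : Type)
    [L.Structure M] : ∃ S : L.ElementarySubstructure M, Countable S ∧ (Infinite M → Infinite S) := by
  by_cases hM : Countable M
  · refine ⟨⊤, inferInstance, fun h => ?_⟩
    exact Infinite.of_injective (fun x : M => (⟨x, by simp⟩ : (⊤ : L.ElementarySubstructure M)))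
      (fun x y hxy => by simpa using hxy)
  · have h1 : Cardinal.aleph0 ≤ Cardinal.mk M := by
      by_contra hlt
      exact hM (Cardinal.mk_le_aleph0_iff.1 (not_le.1 hlt).le)
    obtain ⟨S, hS, hS'⟩ := exists_elementarySubstructure_card_eq L (∅ : Set M) Cardinal.aleph0.{0}
      le_rfl (by simp) (by
        rw [Cardinal.lift_id, Cardinal.lift_id]
        exact Cardinal.mk_le_aleph0_iff.2 inferInstance) (by
        rw [Cardinal.lift_id, Cardinal.lift_id]
        exact h1)
    rw [Cardinal.lift_id, Cardinal.lift_id] at hS'
    exact ⟨S, Cardinal.mk_le_aleph0_iff.1 hS'.le, fun _ => Cardinal.infinite_iff.2 hS'.ge⟩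

/-- an automorphism of the structure is an order isomorphism -/
def toIso {N : Type} [PartialOrder N] [Language.order.Structure N]
    [Language.order.OrderedStructure N] (g : N ≃[Language.order] N) : N ≃o N where
  toEquiv := g.toEquiv
  map_rel_iff' := by
    intro a b
    have h1 := g.map_rel (Language.leSymb : Language.order.Relations 2) ![a, b]
    rw [relMap_leSymb, relMap_leSymb] at h1
    have h2 : g a ≤ g b ↔ a ≤ b := by simpa using h1
    exact h2

theorem toIso_apply {N : Type} [PartialOrder N] [Language.order.Structure N]
    [Language.order.OrderedStructure N] (g : N ≃[Language.order] N) (x : N) : toIso g x = g x := rfl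

/-- a bijection which preserves the order relation is an isomorphism of structures -/
def ofEquiv {N M : Type} [PartialOrder N] [Language.order.Structure N]
    [Language.order.OrderedStructure N] [Language.order.Structure M] (e : N ≃ M)
    (he : ∀ x y, x ≤ y ↔ Structure.RelMap (L := Language.order)
      (Language.leSymb : Language.order.Relations 2) ![e x, e y]) : N ≃[Language.order] M where
  toEquiv := e
  map_fun' := by
    intro n f
    exact f.elim
  map_rel' := by
    intro n r x
    cases r
    have h1 := he (x 0) (x 1)
    have h2 : (Structure.RelMap (L := Language.order)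
      (Language.leSymb : Language.order.Relations 2) x) ↔ x 0 ≤ x 1 := relMap_leSymb x
    have h3 : (⇑e ∘ x) = ![e (x 0), e (x 1)] := by
      funext i
      fin_cases i <;> rfl
    show Structure.RelMap (L := Language.order)
      (Language.leSymb : Language.order.Relations 2) (⇑e ∘ x) ↔ Structure.RelMap (L := Language.order)
      (Language.leSymb : Language.order.Relations 2) x
    rw [h3, h2, h1]

/-- finitely many orbits of pairs -/
theorem fo {N : Type} [PartialOrder N] [Language.order.Structure N]
    [Language.order.OrderedStructure N] (h : Pool.Agent.R603.OligomorphicAut Language.order N) :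
    FO (fun _ _ : N => True) := by
  classical
  obtain ⟨S, hS⟩ := h 2
  choose s hs g hg using hS
  refine ⟨S.card, fun x y => S.equivFin ⟨s ![x, y], hs _⟩, fun x y x' y' hxy => ?_⟩
  have h1 := S.equivFin.injective hxy
  have h2 : s ![x, y] = s ![x', y'] := congrArg Subtype.val h1
  refine ⟨(toIso (g ![x, y])).symm.trans (toIso (g ![x', y'])), fun _ => trivial, ?_, ?_⟩
  · have h3 := hg ![x, y] 0
    have h4 := hg ![x', y'] 0
    rw [← h2] at h4
    simp only [Matrix.cons_val_zero] at h3 h4
    rw [OrderIso.trans_apply]
    have h5 : (toIso (g ![x, y])).symm x = s ![x, y] 0 := by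
      rw [OrderIso.symm_apply_eq, toIso_apply]
      exact h3.symm
    rw [h5, toIso_apply]
    exact h4
  · have h3 := hg ![x, y] 1
    have h4 := hg ![x', y'] 1
    rw [← h2] at h4
    simp only [Matrix.cons_val_one, Matrix.cons_val_fin_one] at h3 h4
    rw [OrderIso.trans_apply]
    have h5 : (toIso (g ![x, y])).symm y = s ![x, y] 1 := by
      rw [OrderIso.symm_apply_eq, toIso_apply]
      exact h3.symm
    rw [h5, toIso_apply]
    exact h4

theorem piece : S_MAIN → S_ISO → S_PEB → S_FIN → S_LAST := by
  intro hMAIN hISO hPEB hFIN M _ _ _ hcat hw
  obtain ⟨w, hw⟩ := hw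
  rcases finite_or_infinite M with hfin | hinf
  · exact hFIN M hfin
  · have hsym : Countable Language.order.Symbols := inferInstance
    obtain ⟨N, hNc, hNi⟩ := exists_countable Language.order M
    have hNinf : Infinite N := hNi hinf
    have hNord : Language.order.OrderedStructure N := ⟨fun x => relMap_leSymb (N.subtype ∘ x)⟩
    have hth : Language.order.completeTheory N = Language.order.completeTheory M :=
      N.elementarilyEquivalent
    have hNcard : Cardinal.mk N = Cardinal.aleph0 := Cardinal.mk_eq_aleph0 N
    have hmodM : N ⊨ Language.order.completeTheory M := by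
      rw [← hth]; infer_instance
    have hω : Pool.Agent.R603.OmegaCategorical Language.order N := by
      intro B _ _ hB
      have hBm : B ⊨ Language.order.completeTheory M := by
        rw [← hth]; exact hB
      have hequiv : N ≅[Language.order] B := by
        rw [elementarilyEquivalent_iff]
        intro φ
        exact (realize_iff_of_model_completeTheory N B φ).symm
      have hBinf : Infinite B := hequiv.infinite_iff.1 hNinf
      have hBcard : Cardinal.mk B = Cardinal.aleph0 := Cardinal.mk_eq_aleph0 B
      exact hcat (Theory.ModelType.of (Language.order.completeTheory M) N)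
        (Theory.ModelType.of (Language.order.completeTheory M) B) hNcard hBcard
    have hol := Pool.Agent.R546.RN.oligomorphic_of_omegaCategorical' Language.order N hω
    have hFO := fo hol
    have hFW : FW N := by
      refine ⟨w, fun s hs => ?_⟩
      have h1 := hw (s.map (Function.Embedding.subtype _)) (by
        intro x hx y hy hxy hle
        rw [Finset.coe_map] at hx hy
        obtain ⟨x', hx', rfl⟩ := hx
        obtain ⟨y', hy', rfl⟩ := hy
        exact hs hx' hy' (fun h => hxy (by rw [h])) hle)
      rwa [Finset.card_map] at h1
    obtain ⟨k, hk⟩ := hMAIN N (fun _ _ => True) ⟨fun _ => trivial, fun _ => trivial,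
      fun _ _ => trivial⟩ hFO hFW
    obtain ⟨T0, hT0, hT0'⟩ := hPEB N hω (2 * k + 2)
    refine ⟨T0, by rw [← hth]; exact hT0, fun φ hφ => ?_⟩
    rw [Theory.models_sentence_iff]
    intro M'
    obtain ⟨S, hSc, -⟩ := exists_countable Language.order M'
    obtain ⟨R, hR⟩ := hT0' S inferInstance
    obtain ⟨e, he⟩ := hISO N k hk S _ R hR
    have e' := ofEquiv e he
    have h1 : N ⊨ φ := by
      rw [← hth] at hφ
      exact hφ
    have h2 : S ⊨ φ := (StrongHomClass.realize_sentence e' φ).1 h1
    exact (S.realize_sentence φ).1 h2

end Run7.h901.PO.LAST
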