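import Pool.Agent.Run7.h901.PO.Iface

/-!
# The induction: property (K) for countable partial orders of finite width
-/

set_option autoImplicit false

namespace Run7.h901.PO.Main

open Run7.h901.PO

/-- a coloured partial order all of whose colours have one element has (K) -/
theorem triv {P : Type} [PartialOrder P] (c : P → P → Prop) (hFO : FO c)
    (h : ∀ x y, c x y → x = y) : KProp c := by
  obtain ⟨n, f, hf⟩ := hFO
  have hinj : Function.Injective (fun x : P => f x x) := by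
    intro x y hxy
    obtain ⟨g, hg, hgx, -⟩ := hf x x y y hxy
    have := hg x
    rw [hgx] at this
    exact h x y this
  haveI : Finite P := Finite.of_injective _ hinj
  haveI : Fintype P := Fintype.ofFinite P
  refine ⟨Fintype.card P, fun A x => ⟨A, subset_rfl, Finset.card_le_univ A, fun g hg hA => ⟨g, hg, hA, rfl⟩⟩⟩

theorem wfo_mono {P : Type} [PartialOrder P] {n : ℕ} (c c' : P → P → Prop)
    (h : ∀ g, WAut c g → WAut c' g) (hc : WFO n c) : WFO n c' := by
  obtain ⟨f, hf⟩ := hc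
  refine ⟨f, fun x y x' y' hxy => ?_⟩
  obtain ⟨g, hg, h1, h2⟩ := hf x y x' y' hxy
  exact ⟨g, h g hg, h1, h2⟩

theorem step (hBAS : S_BAS) (hFI1 : S_FI1) (hFI2 : S_FI2) (hFC : S_FC) (hORB : S_ORB)
    (hGOOD : S_GOOD) (hCTRL : S_CTRL) (hBFO : S_BFO) (hGL : S_GL) (n : ℕ) :
    ∀ (P : Type) [PartialOrder P] [Countable P] (c : P → P → Prop), Equivalence c →
      WFO n c → FO c → FW P → KProp c := by
  induction n with
  | zero =>
    intro P _ _ c hc hW hFO hFW
    obtain ⟨f, -⟩ := hW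
    refine ⟨0, fun A x => (f x x).elim0⟩
  | succ m ih =>
    intro P _ _ c hc hW hFO hFW
    obtain ⟨e0, t0, -, a0, w0, fo0, k0⟩ := hORB P c hc
    have fo0' := fo0 hFO
    obtain ⟨e1, r1, f1, w1⟩ := hFC P (orb c) e0 fo0' hFW
    have hWA : ∀ g, Aut (orb c) g → WAut (orb c) g := (hBAS P (orb c) e0).1
    have hR : Refi (orb c) (c1 (orb c)) := ⟨r1, f1, fun g hg => w1 g (hWA g hg)⟩
    have fo1 : FO (c1 (orb c)) := (hFI1 P (orb c) (c1 (orb c)) e0 e1 hR).1 fo0'
    obtain ⟨e2, t2, r2, a2, w2, fo2, k2⟩ := hORB P (c1 (orb c)) e1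
    have fo2' := fo2 fo1
    have hG : Good (orb (c1 (orb c))) := hGOOD P (orb c) e0 t0 fo0' hFW
    have hW2 : WFO (m + 1) (orb (c1 (orb c))) :=
      wfo_mono c _ (fun g hg => w2 g (w1 g (w0 g hg))) hW
    apply k0
    apply hFI2 P (orb c) (c1 (orb c)) e0 e1 hR
    apply k2
    by_cases h : ∃ x y, orb (c1 (orb c)) x y ∧ x ≠ y
    · have huv := hCTRL P (orb (c1 (orb c))) e2 t2 fo2' hG h
      apply hGL P (orb (c1 (orb c))) e2 t2 fo2'
      intro x
      obtain ⟨e3, fo3, fw3, w3⟩ := hBFO P (orb (c1 (orb c))) e2 x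
      exact ih _ (rb (orb (c1 (orb c))) x) e3 (w3 m hW2 huv) (fo3 fo2') (fw3 hFW)
    · apply triv _ fo2'
      intro x y hxy
      by_contra hne
      exact h ⟨x, y, hxy, hne⟩

theorem piece (hBAS : S_BAS) (hFI1 : S_FI1) (hFI2 : S_FI2) (hFC : S_FC) (hORB : S_ORB)
    (hGOOD : S_GOOD) (hCTRL : S_CTRL) (hBFO : S_BFO) (hGL : S_GL) : S_MAIN := by
  intro P _ _ c hc hFO hFW
  obtain ⟨n, f, hf⟩ := hFO
  have hW : WFO (n) c := by
    refine ⟨f, fun x y x' y' h => ?_⟩
    obtain ⟨g, hg, h1, h2⟩ := hf x y x' y' h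
    exact ⟨g, (hBAS P c hc).1 g hg, h1, h2⟩
  exact step hBAS hFI1 hFI2 hFC hORB hGOOD hCTRL hBFO hGL n P c hc hW ⟨n, f, hf⟩ hFW

end Run7.h901.PO.Main
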