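import Pool.Agent.Run7.h901.PO.Iface

/-!
Piece `ORB` of the project PO (helper901).
-/

set_option autoImplicit false

namespace Run7.h99.PO

open Run7.h901.PO

theorem t_ORB : S_BAS → S_ORB := by
  intro hB P _ c hc
  obtain ⟨hAW, hid, hsym, htr, -⟩ := hB P c hc
  have h1 : Equivalence (orb c) := by
    refine ⟨fun x => ⟨OrderIso.refl P, hid, rfl⟩, ?_, ?_⟩
    · rintro x y ⟨g, hg, rfl⟩
      exact ⟨g.symm, hsym g hg, g.symm_apply_apply x⟩
    · rintro x y z ⟨g, hg, rfl⟩ ⟨h, hh, rfl⟩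
      exact ⟨g.trans h, htr g h hg hh, rfl⟩
  have h2 : ∀ x y, orb c x y → c x y := by
    rintro x y ⟨g, hg, rfl⟩
    exact hg x
  have h3 : ∀ g, Aut (orb c) g ↔ Aut c g := by
    intro g
    constructor
    · intro h x
      exact h2 _ _ (h x)
    · intro h x
      exact ⟨g, h, rfl⟩
  refine ⟨h1, ?_, h2, h3, ?_, ?_, ?_⟩
  · rintro x y ⟨g, hg, rfl⟩
    exact ⟨g, (h3 g).2 hg, rfl⟩
  · -- `WAut`
    have key : ∀ g : P ≃o P, WAut c g → ∀ x y, orb c x y → orb c (g x) (g y) := by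
      rintro g hg x y ⟨h, hh, rfl⟩
      refine ⟨(g.symm.trans h).trans g, ?_, ?_⟩
      · intro z
        have h4 := hh (g.symm z)
        have h5 := (hg _ _).1 h4
        rw [g.apply_symm_apply] at h5
        exact h5
      · simp
    intro g hg x y
    constructor
    · exact key g hg x y
    · intro h
      have hgs : WAut c g.symm := by
        intro a b
        have := hg (g.symm a) (g.symm b)
        rw [g.apply_symm_apply, g.apply_symm_apply] at this
        exact this.symm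
      have := key g.symm hgs _ _ h
      rwa [g.symm_apply_apply, g.symm_apply_apply] at this
  · rintro ⟨n, f, hf⟩
    refine ⟨n, f, fun x y x' y' h => ?_⟩
    obtain ⟨g, hg, e1, e2⟩ := hf x y x' y' h
    exact ⟨g, (h3 g).2 hg, e1, e2⟩
  · rintro ⟨k, hk⟩
    refine ⟨k, fun A x => ?_⟩
    obtain ⟨A0, hA0, hc0, hA⟩ := hk A x
    refine ⟨A0, hA0, hc0, fun g hg hfix => ?_⟩
    obtain ⟨h, hh, e1, e2⟩ := hA g ((h3 g).2 hg) hfix
    exact ⟨h, (h3 h).1 hh, e1, e2⟩

end Run7.h99.PO
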