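import Pool.Agent.Run7.h901.PO.Iface

/-! Piece PEB of project PO (helper901, MP_b89912_lc), proof by helper111. -/

set_option autoImplicit false

open FirstOrder Run7.h901.PO

noncomputable section

namespace Run7.h901.PO.PEB

abbrev LO : FirstOrder.Language := FirstOrder.Language.order

variable {r : ℕ}

/-- for all tuples -/
def allF (φ : LO.Formula (Fin r)) : LO.Sentence :=
  (φ.relabel (Sum.inr : Fin r → Empty ⊕ Fin r)).iAlls (Fin r)

theorem realize_allF {M : Type} [LO.Structure M] (φ : LO.Formula (Fin r)) :
    M ⊨ allF φ ↔ ∀ x : Fin r → M, φ.Realize x := by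
  unfold allF
  rw [Language.Sentence.Realize, Language.Formula.realize_iAlls]
  refine forall_congr' fun x => ?_
  rw [Language.Formula.realize_relabel]
  rfl

/-- there is a value of the variable `k` -/
def exF (k : Fin r) (φ : LO.Formula (Fin r)) : LO.Formula (Fin r) :=
  (φ.relabel (fun j => if j = k then (Sum.inr () : Fin r ⊕ Unit) else Sum.inl j)).iExs Unit

theorem realize_exF {M : Type} [LO.Structure M] (k : Fin r) (φ : LO.Formula (Fin r))
    (x : Fin r → M) : (exF k φ).Realize x ↔ ∃ y, φ.Realize (Function.update x k y) := by
  unfold exF
  rw [Language.Formula.realize_iExs]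
  constructor
  · rintro ⟨u, hu⟩
    refine ⟨u (), ?_⟩
    rw [Language.Formula.realize_relabel] at hu
    convert hu using 1
    funext j
    by_cases hj : j = k
    · subst hj; simp
    · simp [hj]
  · rintro ⟨y, hy⟩
    refine ⟨fun _ => y, ?_⟩
    rw [Language.Formula.realize_relabel]
    convert hy using 1
    funext j
    by_cases hj : j = k
    · subst hj; simp
    · simp [hj]

/-- for all values of the variable `k` -/
def faF (k : Fin r) (φ : LO.Formula (Fin r)) : LO.Formula (Fin r) := (exF k φ.not).not

theorem realize_faF {M : Type} [LO.Structure M] (k : Fin r) (φ : LO.Formula (Fin r))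
    (x : Fin r → M) : (faF k φ).Realize x ↔ ∀ y, φ.Realize (Function.update x k y) := by
  unfold faF
  rw [Language.Formula.realize_not, realize_exF]
  push Not
  refine forall_congr' fun y => ?_
  rw [Language.Formula.realize_not, not_not]

/-- finite disjunction -/
def disj {n : ℕ} (J : Finset (Fin n)) (φ : Fin n → LO.Formula (Fin r)) : LO.Formula (Fin r) :=
  Language.Formula.iSup (fun j : {j // j ∈ J} => φ j.1)

theorem realize_disj {M : Type} [LO.Structure M] {n : ℕ} (J : Finset (Fin n))
    (φ : Fin n → LO.Formula (Fin r)) (x : Fin r → M) :
    (disj J φ).Realize x ↔ ∃ j ∈ J, (φ j).Realize x := by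
  unfold disj
  rw [Language.Formula.realize_iSup]
  exact ⟨fun ⟨j, hj⟩ => ⟨j.1, j.2, hj⟩, fun ⟨j, hj, h⟩ => ⟨⟨j, hj⟩, h⟩⟩

/-- `x_p ≤ x_q` -/
def leF (p q : Fin r) : LO.Formula (Fin r) :=
  (FirstOrder.Language.leSymb : LO.Relations 2).formula₂ (Language.Term.var p) (Language.Term.var q)

theorem realize_leF {M : Type} [LO.Structure M] (p q : Fin r) (x : Fin r → M) :
    (leF p q).Realize x ↔ FirstOrder.Language.Structure.RelMap (L := LO)
      (FirstOrder.Language.leSymb : LO.Relations 2) ![x p, x q] := by
  unfold leF
  rw [Language.Formula.realize_rel₂]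
  rfl

/-- `x_p = x_q` -/
def eqF (p q : Fin r) : LO.Formula (Fin r) :=
  (Language.Term.var p).equal (Language.Term.var q)

theorem realize_eqF {M : Type} [LO.Structure M] (p q : Fin r) (x : Fin r → M) :
    (eqF p q).Realize x ↔ x p = x q := by
  unfold eqF
  rw [Language.Formula.realize_equal]
  rfl

theorem piece (hI : S_ISOL) : S_PEB := by
  classical
  intro N _ _ _ _ _ hcat r
  obtain ⟨n, φ, hφ⟩ := hI N hcat r
  choose ind hind using hφ
  have hφN : ∀ a a' : Fin r → N, (φ (ind a)).Realize a' ↔ ∃ g : N ≃o N, ∀ j, g (a j) = a' j :=
    fun a => (hind a).2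
  have hleN : ∀ (p q : Fin r) (x : Fin r → N), (leF p q).Realize x ↔ x p ≤ x q := by
    intro p q x
    rw [realize_leF]
    exact Language.OrderedStructure.relMap_leSymb (L := FirstOrder.Language.order) (M := N) ![x p, x q]
  -- the finite set of consequents
  let F : Set (LO.Formula (Fin r)) :=
    Set.range (fun d : Fin r × Fin n => exF d.1 (φ d.2)) ∪
    Set.range (fun d : Fin r × Finset (Fin n) => faF d.1 (disj d.2 φ)) ∪
    Set.range (fun d : Fin n × (Fin r → Fin r) => (φ d.1).relabel d.2) ∪
    Set.range (fun d : Fin r × Fin r => leF d.1 d.2) ∪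
    Set.range (fun d : Fin r × Fin r => (leF d.1 d.2).not) ∪
    Set.range (fun d : Fin r × Fin r => eqF d.1 d.2) ∪
    Set.range (fun d : Fin r × Fin r => (eqF d.1 d.2).not) ∪
    Set.range (fun i : Fin n => φ i) ∪
    Set.range (fun i : Fin n => (φ i).not)
  have hF : F.Finite := by
    refine Set.Finite.union (Set.Finite.union (Set.Finite.union (Set.Finite.union (Set.Finite.union
      (Set.Finite.union (Set.Finite.union (Set.Finite.union ?_ ?_) ?_) ?_) ?_) ?_) ?_) ?_) ?_ <;>
    exact Set.finite_range _
  let S1 : Set LO.Sentence := (fun d : Fin n × LO.Formula (Fin r) => allF ((φ d.1).imp d.2)) ''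
    ((Set.univ : Set (Fin n)) ×ˢ F)
  let S2 : Set LO.Sentence := Set.range (fun i : Fin n => (allF (φ i).not).not)
  have hS1 : S1.Finite := (Set.finite_univ.prod hF).image _
  have hS2 : S2.Finite := Set.finite_range _
  have hT : ((S1 ∪ S2) ∩ LO.completeTheory N).Finite := (hS1.union hS2).subset Set.inter_subset_left
  refine ⟨hT.toFinset, ?_, ?_⟩
  · rw [Set.Finite.coe_toFinset]
    exact Set.inter_subset_right
  intro M _ hM
  rw [Set.Finite.coe_toFinset] at hM
  have tr1 : ∀ (a : Fin r → N), ∀ θ ∈ F, (∀ g : N ≃o N, θ.Realize (fun j => g (a j))) →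
      ∀ b : Fin r → M, (φ (ind a)).Realize b → θ.Realize b := by
    intro a θ hθ h b hb
    have hN : N ⊨ allF ((φ (ind a)).imp θ) := by
      rw [realize_allF]
      intro x
      rw [Language.Formula.realize_imp]
      intro hx
      obtain ⟨g, hg⟩ := (hφN a x).1 hx
      have := h g
      rwa [show (fun j => g (a j)) = x from funext hg] at this
    have hmem : allF ((φ (ind a)).imp θ) ∈ (S1 ∪ S2) ∩ LO.completeTheory N :=
      ⟨Or.inl ⟨(ind a, θ), ⟨Set.mem_univ _, hθ⟩, rfl⟩, hN⟩
    have hM' : M ⊨ allF ((φ (ind a)).imp θ) := hM.realize_of_mem _ hmem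
    rw [realize_allF] at hM'
    have := hM' b
    rw [Language.Formula.realize_imp] at this
    exact this hb
  refine ⟨fun a b => (φ (ind a)).Realize b, ?_⟩
  refine
    { start := ?_
      forth := ?_
      back := ?_
      comp := ?_
      ord := ?_
      aut := ?_
      orbit := ?_ }
  · obtain ⟨x0⟩ := (inferInstance : Nonempty N)
    let a : Fin r → N := fun _ => x0
    have hN : N ⊨ (allF (φ (ind a)).not).not := by
      rw [Language.Sentence.realize_not, realize_allF]
      intro h
      have := h a
      rw [Language.Formula.realize_not] at this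
      exact this (hind a).1
    have hmem : (allF (φ (ind a)).not).not ∈ (S1 ∪ S2) ∩ LO.completeTheory N :=
      ⟨Or.inr ⟨ind a, rfl⟩, hN⟩
    have hM' : M ⊨ (allF (φ (ind a)).not).not := hM.realize_of_mem _ hmem
    rw [Language.Sentence.realize_not, realize_allF] at hM'
    push Not at hM'
    obtain ⟨b, hb⟩ := hM'
    rw [Language.Formula.realize_not, not_not] at hb
    exact ⟨a, b, hb⟩
  · intro a b hab i x
    have h := tr1 a (exF i (φ (ind (Function.update a i x))))
      (by simp only [F, Set.mem_union]; left; left; left; left; left; left; left; left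
          exact ⟨(i, ind (Function.update a i x)), rfl⟩) (by
        intro g
        rw [realize_exF]
        refine ⟨g x, ?_⟩
        rw [hφN]
        refine ⟨g, fun j => ?_⟩
        by_cases hj : j = i
        · subst hj; simp
        · simp [hj]) b hab
    rw [realize_exF] at h
    exact h
  · intro a b hab i y
    let J : Finset (Fin n) := Finset.univ.filter (fun j => ∃ x, j = ind (Function.update a i x))
    have h := tr1 a (faF i (disj J φ))
      (by simp only [F, Set.mem_union]; left; left; left; left; left; left; left; right
          exact ⟨(i, J), rfl⟩) (by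
        intro g
        rw [realize_faF]
        intro y
        rw [realize_disj]
        refine ⟨ind (Function.update a i (g.symm y)), ?_, ?_⟩
        · simp only [J, Finset.mem_filter, Finset.mem_univ, true_and]
          exact ⟨_, rfl⟩
        rw [hφN]
        refine ⟨g, fun j => ?_⟩
        by_cases hj : j = i
        · subst hj; simp
        · simp [hj]) b hab
    rw [realize_faF] at h
    have h' := h y
    rw [realize_disj] at h'
    obtain ⟨j, hj, hj'⟩ := h'
    simp only [J, Finset.mem_filter, Finset.mem_univ, true_and] at hj
    obtain ⟨x, rfl⟩ := hj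
    exact ⟨x, hj'⟩
  · intro a b hab σ
    have h := tr1 a ((φ (ind (a ∘ σ))).relabel σ)
      (by simp only [F, Set.mem_union]; left; left; left; left; left; left; right
          exact ⟨(ind (a ∘ σ), σ), rfl⟩) (by
        intro g
        rw [Language.Formula.realize_relabel, hφN]
        exact ⟨g, fun j => rfl⟩) b hab
    rw [Language.Formula.realize_relabel] at h
    exact h
  · intro a b hab i j
    constructor
    · constructor
      · intro hij
        have h := tr1 a (leF i j)
          (by simp only [F, Set.mem_union]; left; left; left; left; left; right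
              exact ⟨(i, j), rfl⟩) (by
            intro g
            rw [hleN]
            exact g.le_iff_le.2 hij) b hab
        rw [realize_leF] at h
        exact h
      · intro hij
        by_contra hcon
        have h := tr1 a (leF i j).not
          (by simp only [F, Set.mem_union]; left; left; left; left; right
              exact ⟨(i, j), rfl⟩) (by
            intro g
            rw [Language.Formula.realize_not, hleN]
            exact fun h => hcon (g.le_iff_le.1 h)) b hab
        rw [Language.Formula.realize_not, realize_leF] at h
        exact h hij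
    · constructor
      · intro hij
        have h := tr1 a (eqF i j)
          (by simp only [F, Set.mem_union]; left; left; left; right
              exact ⟨(i, j), rfl⟩) (by
            intro g
            rw [realize_eqF]
            exact congrArg g hij) b hab
        rw [realize_eqF] at h
        exact h
      · intro hij
        by_contra hcon
        have h := tr1 a (eqF i j).not
          (by simp only [F, Set.mem_union]; left; left; right
              exact ⟨(i, j), rfl⟩) (by
            intro g
            rw [Language.Formula.realize_not, realize_eqF]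
            exact fun h => hcon (g.injective h)) b hab
        rw [Language.Formula.realize_not, realize_eqF] at h
        exact h hij
  · intro a b hab g
    have h := tr1 a (φ (ind (fun i => g (a i))))
      (by simp only [F, Set.mem_union]; left; right
          exact ⟨_, rfl⟩) (by
        intro g'
        rw [hφN]
        exact ⟨g.symm.trans g', fun j => by simp⟩) b hab
    exact h
  · intro a a' b hab hab'
    by_contra hcon
    have h := tr1 a (φ (ind a')).not
      (by simp only [F, Set.mem_union]; right
          exact ⟨_, rfl⟩) (by
        intro g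
        rw [Language.Formula.realize_not, hφN]
        rintro ⟨g', hg'⟩
        apply hcon
        refine ⟨g.trans g'.symm, fun i => ?_⟩
        show g'.symm (g (a i)) = a' i
        rw [← hg' i]
        simp) b hab
    rw [Language.Formula.realize_not] at h
    exact h hab'

end Run7.h901.PO.PEB
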