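import Pool.Agent.Run7.h901.PO.Iface

/-!
# Project PO, piece STAR
-/

set_option autoImplicit false

namespace Run7.h901.PO.STAR

theorem piece : S_BAS → S_STAR := by
  intro hbas P _ c hc k hK A φ
  obtain ⟨-, hrefl, hsymm, htrans, -⟩ := hbas P c hc
  classical
  induction A using Finset.induction_on with
  | empty =>
    intro _
    exact ⟨OrderIso.refl P, hrefl, fun a ha => absurd ha (Finset.notMem_empty a)⟩
  | insert x A' hx ih =>
    intro hB
    obtain ⟨h', hh', hφ'⟩ := ih (fun B hBA hcard =>
      hB B (hBA.trans (Finset.subset_insert x A')) hcard)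
    obtain ⟨A0, hA0, hcard0, hK0⟩ := hK A' x
    obtain ⟨h'', hh'', hφ''⟩ := hB (insert x A0) (Finset.insert_subset_insert x hA0)
      ((Finset.card_insert_le x A0).trans (Nat.succ_le_succ hcard0))
    have hgAut : Aut c (h''.trans h'.symm) := htrans h'' h'.symm hh'' (hsymm h' hh')
    have hgfix : ∀ a ∈ A0, (h''.trans h'.symm) a = a := by
      intro a ha
      rw [OrderIso.trans_apply, hφ'' a (Finset.mem_insert_of_mem ha), ← hφ' a (hA0 ha),
        OrderIso.symm_apply_apply]
    obtain ⟨h, hh, hfix, hhx⟩ := hK0 (h''.trans h'.symm) hgAut hgfix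
    refine ⟨h.trans h', htrans h h' hh hh', ?_⟩
    intro a ha
    rw [OrderIso.trans_apply]
    rcases Finset.mem_insert.1 ha with rfl | ha
    · rw [hhx, OrderIso.trans_apply, OrderIso.apply_symm_apply]
      exact hφ'' _ (Finset.mem_insert_self _ _)
    · rw [hfix a ha]
      exact hφ' a ha

end Run7.h901.PO.STAR
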