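import Pool.Agent.Run7.h901.PO.h896_BAS
import Pool.Agent.Run7.h901.PO.ICC
import Pool.Agent.Run7.h901.PO.h896_DIR
import Pool.Agent.Run7.h901.PO.DIAM
import Pool.Agent.Run7.h901.PO.CC2
import Pool.Agent.Run7.h901.PO.STAR
import Pool.Agent.Run7.h901.PO.FI1
import Pool.Agent.Run7.h901.PO.FI2
import Pool.Agent.Run7.h901.PO.FC
import Pool.Agent.Run7.h901.PO.ORB
import Pool.Agent.Run7.h901.PO.GOOD
import Pool.Agent.Run7.h901.PO.BM
import Pool.Agent.Run7.h901.PO.CTRL
import Pool.Agent.Run7.h901.PO.h648_BF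
import Pool.Agent.Run7.h901.PO.SK
import Pool.Agent.Run7.h901.PO.GL1
import Pool.Agent.Run7.h901.PO.GL
import Pool.Agent.Run7.h901.PO.BFO
import Pool.Agent.Run7.h901.PO.ISO
import Pool.Agent.Run7.h901.PO.ISOL
import Pool.Agent.Run7.h901.PO.PEB
import Pool.Agent.Run7.h901.PO.FIN
import Pool.Agent.Run7.h901.PO.LAST
import Pool.Agent.Run7.h901.PO.Main

/-!
# Assembly of the pieces
-/

set_option autoImplicit false

namespace Run7.h901.PO.Final

open Run7.h901.PO

theorem bas : S_BAS := Run7.h896.PO.t_BAS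
theorem icc : S_ICC := ICC.piece bas
theorem dir : S_DIR := Run7.h896.PO.t_DIR bas
theorem diam : S_DIAM := DIAM.piece bas
theorem cc2 : S_CC2 := CC2.piece bas dir diam
theorem star : S_STAR := STAR.piece bas
theorem fi1 : S_FI1 := FI1.piece bas
theorem fi2 : S_FI2 := FI2.piece bas star
theorem fc : S_FC := FC.piece bas
theorem orb : S_ORB := Run7.h99.PO.t_ORB bas
theorem good : S_GOOD := GOOD.piece bas icc dir cc2 fi1 fc orb
theorem bm : S_BM := BM.piece bas
theorem ctrl : S_CTRL := CTRL.piece bas icc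
theorem bf : S_BF := Run7.h648.PO.BF
theorem sk : S_SK := SK.piece bf
theorem gl1 : S_GL1 := GL1.piece bas bm sk
theorem uni : S_UNI := Run7.h648.PO.UNI bas
theorem gl : S_GL := GL.piece bas gl1 uni
theorem bfo : S_BFO := BFO.piece bas
theorem mainThm : S_MAIN := Main.piece bas fi1 fi2 fc orb good ctrl bfo gl
theorem iso : S_ISO := ISO.piece star bf
theorem isol : S_ISOL := ISOL.piece
theorem peb : S_PEB := PEB.piece isol
theorem fin : S_FIN := FIN.piece
theorem last : S_LAST := LAST.piece mainThm iso peb fin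

end Run7.h901.PO.Final
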