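import Pool.Agent.Run7.h901.PO.Defs
import Pool.Agent.R603.OmegaCat

/-!
# Interfaces of the proof that omega-categorical partial orders of finite width are finitely
axiomatizable

In all pieces `c` is an equivalence relation on the partial order `P` (same colour), `O` is a colour
class. Each `S_…` is a closed proposition; a piece proves
`theorem piece : S_A → S_B → S_X` with the hypotheses listed for it.
-/

set_option autoImplicit false
open scoped FirstOrder

namespace Run7.h901.PO

/-- (K) with a given constant; `KProp c` is by definition `∃ k, KK k c`. -/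
def KK {P : Type} [PartialOrder P] (k : ℕ) (c : P → P → Prop) : Prop :=
  ∀ (A : Finset P) (x : P), ∃ A0 : Finset P,
  A0 ⊆ A ∧ A0.card ≤ k ∧ ∀ g : P ≃o P, Aut c g → (∀ a ∈ A0, g a = a) →
    ∃ h : P ≃o P, Aut c h ∧ (∀ a ∈ A, h a = a) ∧ h x = g x

/-- BAS (no hypotheses). Trivial facts. `ic`, `cc` are `ReflTransGen` of symmetric relations; for
their invariance lift paths along `g` and along `g.symm`. `Blk` invariance: induction on the
derivation, for `g` and for `g.symm` (a `WAut`). The last clause is `Blk.split`. -/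
def S_BAS : Prop := ∀ (P : Type) [PartialOrder P] (c : P → P → Prop), Equivalence c →
  (∀ g, Aut c g → WAut c g) ∧
  Aut c (OrderIso.refl P) ∧ (∀ g, Aut c g → Aut c g.symm) ∧
  (∀ g h, Aut c g → Aut c h → Aut c (g.trans h)) ∧
  WAut c (OrderIso.refl P) ∧ (∀ g, WAut c g → WAut c g.symm) ∧
  (∀ g h, WAut c g → WAut c h → WAut c (g.trans h)) ∧
  Equivalence (ic c) ∧ Equivalence (cc c) ∧ Equivalence (Blk c) ∧
  (∀ x y, ic c x y → c x y) ∧ (∀ x y, cc c x y → c x y) ∧ (∀ x y, ic c x y → Blk c x y) ∧
  (∀ x y, c x y → ¬ ic c x y → x < y ∨ y < x) ∧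
  (∀ x y, c x y → ¬ Blk c x y → x < y ∨ y < x) ∧
  (∀ g, WAut c g → ∀ x y, ic c x y ↔ ic c (g x) (g y)) ∧
  (∀ g, WAut c g → ∀ x y, cc c x y ↔ cc c (g x) (g y)) ∧
  (∀ g, WAut c g → ∀ x y, Blk c x y ↔ Blk c (g x) (g y)) ∧
  (∀ z x x', ¬ Blk c z x → Blk c x x' → c x x' → (x ≤ z ↔ x' ≤ z) ∧ (z ≤ x ↔ z ≤ x'))

/-- ICC (hypothesis: `S_BAS`). Convexity of `ic` classes.
(a) `x ≤ y ≤ z` of one colour, `ic x z`; then `ic x y` (and so `ic y z`). Proof: we may assume
`x < y < z`. Induct along the path from `x`: for every `w` with `ic x w` we have `ic x y` or `w < y`.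
Step: `w < y` and `Inc w w'`: if `w' < y` fine; if `w' = y` then `ic x y`; `y < w'` is impossible
since then `w < w'`; otherwise `Inc w' y`, so `ic x y`. For `w = z` the case `z < y` is impossible.
(b) `x ≤ y`, not `ic x y`, `ic x x'`, `ic y y'`, all one colour; then `x' ≤ y'`. Proof: one step:
`Inc x x'`: `Inc x' y` or `x' = y` would give `ic x y`; `y < x'` would give `x < x'`; so `x' ≤ y`.
In the same way at `y`. Induct along both paths (the relation not `ic x y` is kept). -/
def S_ICC : Prop := ∀ (P : Type) [PartialOrder P] (c : P → P → Prop), Equivalence c →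
  (∀ x y z, c x y → c x z → x ≤ y → y ≤ z → ic c x z → ic c x y ∧ ic c y z) ∧
  (∀ x y x' y', c x y → x ≤ y → ¬ ic c x y → ic c x x' → ic c y y' → x' ≤ y')

/-- DIR (hypothesis: `S_BAS`). First: if `x ≤ y`, `x ≤ z` are of one colour then `y`, `z` have a
common upper bound `t` of this colour. Proof: for `u` in the class `O` let `U u = {v ∈ O : u ≤ v}`,
`a u` = the maximal size of an antichain in `U u` (exists by `FW`). By `Tr` the number `a u` is the
same for all `u ∈ O`. Let `Z` be an antichain of size `a` in `U z`, so `Z ⊆ U x`. If `y` was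
incomparable to all elements of `Z` then `Z ∪ {y}` would be an antichain of size `a + 1` in `U x`. So
`y` is comparable to some `s ∈ Z`: if `y ≤ s` take `t = s`; if `s ≤ y` then `z ≤ s ≤ y`, take `t = y`.
The statement for `cc y z`: induct along the path: `t ≥ y, z_m` and `z_{m+1}` comparable to `z_m`: if
`z_{m+1} ≤ z_m` keep `t`; if `z_m ≤ z_{m+1}` use the first statement for `z_m ≤ t`, `z_m ≤ z_{m+1}`.
The lower bounds: the same in the order dual (or repeat the proof). -/
def S_DIR : Prop := ∀ (P : Type) [PartialOrder P] (c : P → P → Prop), Equivalence c → Tr c → FW P →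
  ∀ y z, cc c y z → (∃ t, c y t ∧ y ≤ t ∧ z ≤ t) ∧ (∃ t, c y t ∧ t ≤ y ∧ t ≤ z)

/-- DIAM (hypotheses: `S_BAS`). In a class `O` which is connected by `ic` any two elements are
equal, incomparable or have a common incomparable neighbour in `O`. Proof: let `d (y, z)` be the least
length of a path of consecutive incomparable elements of `O`. It is invariant under `Aut c`, so by `FO`
it takes finitely many values on `O × O`; let `D` be the maximum, assume `D ≥ 3`. Take `y, z` with
`d (y, z) = D`; they are comparable, say `y < z` (`d` is symmetric). By `Tr` there is `g ∈ Aut c`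
with `g y = z`; put `z' = g z`, so `y < z < z'` and `d (z, z') = D`. Take a path
`y = p_0, …, p_m = z'` with `m ≤ D`. Let `l` be least with not `p_l < z`; `l ≥ 1`,
`p_(l-1) < z`. Not `z < p_l` (else `p_(l-1) < p_l`). If `p_l = z`: `D ≤ l` and `D ≤ m - l`, so
`2 D ≤ D`, absurd. Otherwise `Inc p_l z`, so `D ≤ l + 1` and `D ≤ (m - l) + 1`, so
`2 D ≤ m + 2 ≤ D + 2`, so `D ≤ 2`. So all distances are at most `2`. -/
def S_DIAM : Prop := ∀ (P : Type) [PartialOrder P] (c : P → P → Prop), Equivalence c → Tr c → FO c →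
  ∀ x, (∀ y, c x y → ic c x y) →
  ∀ y z, c x y → c x z → y = z ∨ Inc y z ∨ ∃ w, c x w ∧ Inc y w ∧ Inc w z

/-- CC2 (hypotheses: `S_BAS`, `S_DIR`, `S_DIAM`). A class `O ∋ x` with at least two elements which
is connected by `ic` is not connected by `cc`. Proof: assume it is. By `S_DIR` any two elements, so
any finite number of elements of `O`, have an upper and a lower bound in `O`. Let `X` be an
antichain in `O` of maximal size (`FW`). As `O` has an incomparable pair (it is `ic` connected with
two elements) `X` has at least two elements. Let `t`, `s ∈ O` be an upper and a lower bound of `X`; so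
`s < t`. By `S_DIAM` for `s`, `t` there is `w ∈ O` with `Inc s w`, `Inc w t`. By maximality `w` is
in `X` or comparable to an element `p` of `X`; `w ≤ p` gives `w ≤ t`, `p ≤ w` gives `s ≤ w`:
contradiction. -/
def S_CC2 : Prop := ∀ (P : Type) [PartialOrder P] (c : P → P → Prop), Equivalence c → Tr c → FO c →
  FW P → ∀ x, (∀ y, c x y → ic c x y) → (∃ y, c x y ∧ y ≠ x) → ∃ y, c x y ∧ ¬ cc c x y

/-- STAR (hypothesis: `S_BAS`). Induction on `A` (insert `x` to `A'`): `h'` equals `φ` on `A'`.
`A0 ⊆ A'` from `KK` for `(A', x)`. `B = A0 ∪ {x}` has at most `k + 1` elements: `h''` equals `φ` on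
`B`. `g = h'⁻¹ ∘ h''` is in `Aut c` and fixes `A0`, so by `KK` there is `h ∈ Aut c` fixing `A'`
with `h x = g x`; then `h' ∘ h` equals `φ` on `A' ∪ {x}`. -/
def S_STAR : Prop := ∀ (P : Type) [PartialOrder P] (c : P → P → Prop), Equivalence c →
  ∀ k : ℕ, KK k c → ∀ (A : Finset P) (φ : P → P),
  (∀ B : Finset P, B ⊆ A → B.card ≤ k + 1 → ∃ h : P ≃o P, Aut c h ∧ ∀ b ∈ B, h b = φ b) →
  ∃ h : P ≃o P, Aut c h ∧ ∀ a ∈ A, h a = φ a

/-- `c'` is a refinement of `c` with finitely many classes which is preserved by `Aut c`. -/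
def Refi {P : Type} [PartialOrder P] (c c' : P → P → Prop) : Prop :=
  (∀ x y, c' x y → c x y) ∧ (∃ (n : ℕ) (f : P → Fin n), ∀ x y, f x = f y → c' x y) ∧
  (∀ g, Aut c g → WAut c' g)

/-- FI1 (hypothesis: `S_BAS`). `Aut c` acts on the finite set `Q` of classes of `c'`; let
`π g : Perm Q`; `π g = 1` iff `Aut c' g` (for `g ∈ Aut c`), and `π` is a homomorphism. Power:
`n` = the order of `π g`. `FO c → FO c'`: let `f` witness `FO c`; for each value `v` of `f`
choose a pair `(a_v, b_v)` with this value and for each pair `(x, y)` of value `v` an element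
`g_(x,y) ∈ Aut c` which maps `(a_v, b_v)` to `(x, y)`. Put `F (x, y) = (v, π g_(x,y))`, in a finite
type. If `F (x, y) = F (x', y')` then `g_(x',y') ∘ g_(x,y)⁻¹` maps `(x,y)` to `(x',y')` and is in
`Aut c'`. -/
def S_FI1 : Prop := ∀ (P : Type) [PartialOrder P] (c c' : P → P → Prop), Equivalence c →
  Equivalence c' → Refi c c' → (FO c → FO c') ∧
  ∀ g : P ≃o P, Aut c g → ∃ n : ℕ, 1 ≤ n ∧ ∃ h : P ≃o P, Aut c' h ∧ ∀ x, h x = (⇑g)^[n] x

/-- FI2 (hypotheses: `S_BAS`, `S_STAR`). `G = Aut c` acts on the finite set `Q` of classes of `c'`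
with `π : G → Perm Q` and kernel `Aut c'` (see `S_FI1`). Let `k` be the constant for `c'`. Let `A`,
`x` be given. For `B ⊆ A` let `Σ_B = {π g : g ∈ G, g fixes B pointwise}`. Claim: for each
`σ = π g0` (`g0 ∈ G`) which is not in `Σ_A` there is `B_σ ⊆ A` of size at most `k + 1` with
`σ ∉ Σ_(B_σ)`: otherwise for each `B ⊆ A` of size at most `k + 1` there is `g ∈ G` fixing `B` with
`π g = π g0`, so `g0⁻¹ g ∈ Aut c'` equals `g0⁻¹` on `B`; by `S_STAR` for `c'` and `φ = g0⁻¹` there
is `h ∈ Aut c'` with `h = g0⁻¹` on `A`, so `g0 h ∈ G` fixes `A` and `π (g0 h) = σ`,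
contradiction. Let `A0` be the union of the `B_σ` (over `σ : Perm Q`, at most `(card)! * (k+1)`
elements) and of the set `A0'` (at most `k` elements) given by `KK k c'` for `(A, x)`. Let `g ∈ G`
fix `A0`. Then `π g ∈ Σ_A` (else it is excluded by `B_(π g)`), so there is `g' ∈ G` fixing `A` with
`π g' = π g`; `h' = g'⁻¹ g ∈ Aut c'` fixes `A0'`, so there is `h'' ∈ Aut c'` fixing `A` with
`h'' x = h' x`; then `g' h'' ∈ G` fixes `A` and maps `x` to `g x`. -/
def S_FI2 : Prop := ∀ (P : Type) [PartialOrder P] (c c' : P → P → Prop), Equivalence c →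
  Equivalence c' → Refi c c' → KProp c' → KProp c

/-- FC (hypothesis: `S_BAS`). `c1` is an equivalence: the condition `∃ z, c x z ∧ ¬ ic c x z` is a
property of the colour class. Finitely many classes: by `FO` there are finitely many colours
(`x ↦ f x x`). If some colour had more than `w` classes of `c1` (`w` the bound from `FW`), then
representatives of `w + 1` of them would be pairwise not `cc` related, so pairwise incomparable:
contradiction. The last clause: `S_BAS`. -/
def S_FC : Prop := ∀ (P : Type) [PartialOrder P] (c : P → P → Prop), Equivalence c → FO c →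
  FW P → Equivalence (c1 c) ∧ (∀ x y, c1 c x y → c x y) ∧
  (∃ (n : ℕ) (f : P → Fin n), ∀ x y, f x = f y → c1 c x y) ∧ (∀ g, WAut c g → WAut (c1 c) g)

/-- ORB (hypothesis: `S_BAS`). `Aut (orb c) g ↔ Aut c g` is immediate, the rest follows; for
`WAut`: if `h ∈ Aut c` and `g ∈ WAut c` then `g h g⁻¹ ∈ Aut c`. -/
def S_ORB : Prop := ∀ (P : Type) [PartialOrder P] (c : P → P → Prop), Equivalence c →
  Equivalence (orb c) ∧ Tr (orb c) ∧ (∀ x y, orb c x y → c x y) ∧
  (∀ g, Aut (orb c) g ↔ Aut c g) ∧ (∀ g, WAut c g → WAut (orb c) g) ∧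
  (FO c → FO (orb c)) ∧ (KProp (orb c) → KProp c)

/-- GOOD (hypotheses: `S_BAS`, `S_ICC`, `S_DIR`, `S_CC2`, `S_FI1`, `S_FC`, `S_ORB`).
Write `c⁺ = orb (c1 c)`, `G = Aut c`, `H = Aut (c1 c)`. `Refi c (c1 c)` holds by `S_FC` and
`S_BAS`; `c⁺ → c1 c → c`, so `ic c⁺ ⊆ ic c`. Let `x ≠ y`, `c⁺ x y`.
Case A: there is `z` with `c x z`, not `ic c x z`. Then `x < z` or `z < x`; by `Tr` `z = g x`, `g ∈ G`.
Replacing `g` by `g⁻¹` (and using invariance of `ic`) we may assume `x < g x`, not `ic c x (g x)`. By
`S_FI1` there are `n ≥ 1` and `h ∈ H` with `h = g^[n]`. Then `x < g x ≤ g^[n] x` and by `S_ICC`(a)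
not `ic c x (g^[n] x)`, so not `ic c⁺ x (h x)`; and `c⁺ x (h x)`.
Case B: `ic c x z` for all `z` of colour `c x`. Suppose that `ic c⁺ x z` for all `z` with `c⁺ x z`. By
`S_CC2` for `c⁺` (`Tr`, `FO` by `S_ORB`, `S_FI1`) there is `y'` with `c⁺ x y'`, not `cc c⁺ x y'`. Let
`D = {z : cc c x z}` = the class of `x` for `c1 c` (we are in case B). By `S_DIR` for `c` any two, so
any finitely many elements of `D` have an upper bound in `D`. `D` is a union of classes of `c⁺`, of
which there are finitely many (`FO c⁺`). One of these classes in `D`, say that of `o ∈ D`, is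
cofinal in `D` (every element of `D` is below an element of it): otherwise for each class `i` in
`D` there is `d_i ∈ D` not below any element of the class; an upper bound `d ∈ D` of all
`d_i` is in some class `j`, contradiction. By `Tr` there is `g ∈ G` with `g o = x`. As
`g ∈ WAut (c1 c)`, `g ∈ WAut c⁺`, `g` maps `D` onto `D` and the `c⁺` class of `o` onto that of `x`. So
the `c⁺` class of `x` is cofinal in `D`. `x`, `y'` have an upper bound in `D`, so one `o'` with
`c⁺ x o'`; so `cc c⁺ x y'`, contradiction. -/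
def S_GOOD : Prop := ∀ (P : Type) [PartialOrder P] (c : P → P → Prop), Equivalence c → Tr c →
  FO c → FW P → Good (orb (c1 c))

/-- BM (hypothesis: `S_BAS`; the only place where `Blk` needs an induction on its derivation).
Let `Φ (p, p')` say: for all `g ∈ Aut c` with not `Blk p (g p)`, if `p ≤ g p` then `p' ≤ g p'`.
Claim: `Blk p p'` implies `Φ (p, p')`. (If `Blk p p'` then `Blk p (g p) ↔ Blk p' (g p')`; two
elements of one colour not related by `Blk` are comparable.) Induction on the derivation.
`refl`, `trans`: clear. `symm`: assume `Φ (p, p')`, not `Blk p' (g p')`, `p' ≤ g p'`. If `p ≤ g p`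
done. Else `g p ≤ p`, `p ≤ g⁻¹ p`, so by `Φ (p, p')` for `g⁻¹`: `p' ≤ g⁻¹ p'`, `g p' ≤ p'`, so
`g p' = p'`, contradiction.
`ic`: `c p p'`, `Inc p p'`, not `Blk p (g p)`, `p ≤ g p`. `p'` and `g p` are comparable; if
`g p ≤ p'` then `p ≤ p'`, contradiction; so `p' ≤ g p`. `p'` and `g p'` are comparable; if
`g p' ≤ p'` then `g p' ≤ g p`, contradiction to `Inc (g p) (g p')`. So `p' ≤ g p'`.
`split`: `Blk x x'`, `c x x'`, `Differs z x x'`, induction hypothesis `Φ (x, x')`; show `Φ (z, x)`.
Let not `Blk z (g z)`, `z ≤ g z`, and suppose not `x ≤ g x`, so `g x ≤ x`, and by `Φ (x, x')` for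
`g⁻¹` also `g x' ≤ x'`. By `Differs` there are two cases. (i) exactly one of `x, x'` is `≤ z`; this one is
`≤ g z`, so by the last clause of `S_BAS` (`g z` is not in the block) both are `≤ g z`, so
`g x ≤ x ≤ g z` and `g x' ≤ x' ≤ g z`, but exactly one of `g x`, `g x'` is `≤ g z`. (ii) exactly one of
`x, x'` is `≥ z`. Then exactly one of `g x`, `g x'` is `≥ g z ≥ z`, so by `S_BAS` (`z` is not in the
block of `g x`) both are `≥ z`, so `z ≤ g x ≤ x`, `z ≤ g x' ≤ x'`, contradiction.
Conclusion: by `Tr` take `g ∈ Aut c` with `g x = y`. `Φ (x, x')` gives `x' ≤ g x'`. `g x'` and `y'` are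
in one block and of one colour, not the block of `x'`; so `x' ≤ y'` by the last clause of `S_BAS`. -/
def S_BM : Prop := ∀ (P : Type) [PartialOrder P] (c : P → P → Prop), Equivalence c → Tr c →
  ∀ x y x' y', c x y → c x' y' → Blk c x x' → Blk c y y' → ¬ Blk c x y → x ≤ y → x' ≤ y'

/-- CTRL (hypotheses: `S_BAS`, `S_ICC`). Call `a` big if its class has another element. If `a` is
big then there is `b < a` of the same colour with not `ic b a` (by `Good` there is `z` with not
`ic a z`; if `z < a` fine; if `a < z` take `g ∈ Aut c` with `g z = a` and `b = g a`); for such `b`: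
(†) every `z` of this colour with not `b ≤ z` satisfies `z < a` (if `z < b` clear; if `Inc z b`
then `ic b z` and by `S_ICC`(b) `z ≤ a`, and `z ≠ a`). Finitely many elements of a big class have a
lower bound in the class (two elements `u, v`: if `ic u v` take `b < u` with not `ic b u`, then
`b ≤ v` by `S_ICC`(b); otherwise they are comparable).
Call a relation `R` controlled if (1) `R x y` or `R y x` and `x` not big imply `y = x`; (2) for all big
`a`, `v` there is `b` of colour `v` such that for all `x` of colour `a`, `y` of colour `v` with `R x y`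
or `R y x`: `y ≤ b` implies `x < a`. Facts:
* equality is controlled (take `b < a`); so is `c x y ∧ Inc x y`: take `b < a` with not `ic b a`; if
`y ≤ b`, `Inc x y`: `ic y a` is impossible by `S_ICC`(a) (`y ≤ b ≤ a`), so `x ≤ a` by `S_ICC`(b) and
`x ≠ a`.
* the union of two (finitely many) controlled relations is controlled (lower bounds); the inverse too.
* the composition of `R` and `R'` is controlled: `R x z`, `R' z y`; if `z` is not big then
`x = z = y`, not big. There are finitely many big colours `w`; for each take `b_w` of colour `w` from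
(2) for `R`, `a`, `w` and then `b'_w` of colour `v` from (2) for `R'`, `b_w`, `v`; `b` = a lower bound of
the `b'_w`.
* if `R` is controlled then so is the relation `R'` = {(z, x) : ∃ x', R x x', c x x', Differs z x x'}.
(1): if `z` is not big, `g ∈ Aut c` with `g x = x'` fixes `z`, contradiction to `Differs`; if `x` is not
big then `x' = x`. (2) Direction `x` low implies `z` low: let `a` be of the colour of `z`,
`a_1 < a` as in (†). Case of pairs where exactly one of `x, x'` is `≤ z`: (if there is no such
pair for these colours nothing is to do) by `Tr` there is `a'` of the colour of `x` with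
`a' ≤ a_1`; by (2) for `R` and lower bounds there is `b` such that `x ≤ b` implies `x, x' ≤ a'`; then
not `a_1 ≤ z` (else both `x, x' ≤ z`), so `z < a`. Case of pairs where exactly one of `x, x'` is
`≥ z`: by `Tr` (move `z` to `a_1`) there is `a'` of the colour of `x` with not `a_1 ≤ a'`; `b` as
before: `x ≤ b` implies `x, x' ≤ a'`; one of them is `≥ z`, so `z ≤ a'`, so not `a_1 ≤ z`, so
`z < a`. Take a lower bound of the two `b`. Direction `z` low implies `x` low: let `a` be of the
colour of `x`; take `a'` such that `x ≤ a'` or `x' ≤ a'` implies `x < a`, and `a'_1 < a'` as in (†). Case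
exactly one of `x, x'` is `≤ z`: by `Tr` (move the one which is not `≤ z` to `a'_1`) there is `b` of the
colour of `z` with not `a'_1 ≤ b`; `z ≤ b` implies that one of `x, x'` is `≤ b`, so not `≥ a'_1`,
so `< a'`. Case exactly one of `x, x'` is `≥ z`: by `Tr` there is `b ≤ a'_1`; `z ≤ b` implies
that one of `x, x'` is not `≥ a'_1`, so it is `< a'`.
Conclusion: by `FO` there are finitely many relations invariant under `Aut c` (unions of fibres of
`f` in `FO`). Let `M` be the union of all controlled invariant relations; it is a finite union, so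
controlled, and contains every controlled invariant relation, so it is closed under all
constructors of `Blk`; so `Blk ⊆ M` is controlled. (Or: iterate the operations and use that an increasing
sequence of invariant relations is stationary.) Take `a` big and `b` from (2) for `a`, `v = a`,
`R = M`: `Blk a b` would give (`x = a`, `y = b`, `b ≤ b`) `a < a`. So not `Blk a b`. -/
def S_CTRL : Prop := ∀ (P : Type) [PartialOrder P] (c : P → P → Prop), Equivalence c → Tr c →
  FO c → Good c → (∃ x y, c x y ∧ x ≠ y) → ∃ x y, ¬ Blk c x y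

/-- BF (no hypotheses). General back and forth construction of a bijection. -/
def S_BF : Prop := ∀ (A B : Type) [Countable A] [Countable B] (G : Finset (A × B) → Prop),
  (∀ p, G p → ∀ q ∈ p, ∀ r ∈ p, (q.1 = r.1 ↔ q.2 = r.2)) →
  (∀ p, G p → ∀ a, ∃ b p', G p' ∧ p ⊆ p' ∧ (a, b) ∈ p') →
  (∀ p, G p → ∀ b, ∃ a p', G p' ∧ p ⊆ p' ∧ (a, b) ∈ p') →
  ∀ p0, G p0 → ∃ e : A ≃ B, (∀ q ∈ p0, e q.1 = q.2) ∧
    ∀ s : Finset A, ∃ p, G p ∧ ∀ a ∈ s, (a, e a) ∈ p

/-- SK (hypothesis: `S_BF`). Write `s ≤ t` for `s = t ∨ lt s t`; it is a linear order on each orbit of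
`Γ`. There are finitely many orbits, and finitely many relations `R` with `MInv Γ lt R` (unions of
fibres of `f`; `Γ` is a group so `R s t ↔ R (γ s) (γ t)`). `R (·, a)` is a down set and `R (a, ·)`
is an up set of each orbit; `R (·, a)` increases with `a`, `R (a, ·)` decreases with `a`. True, `≤`,
`lt` are `MInv`.
Boundary elements: given `A`, `x`. For each `R` and each orbit `O` put in `A0`: the least `a ∈ A ∩ O`
with `R x a`, the greatest `a ∈ A ∩ O` with not `R x a`, the greatest `a ∈ A ∩ O` with `R a x`, the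
least `a ∈ A ∩ O` with not `R a x` (if they exist). If `y` is in the orbit of `x` and
`R x a ↔ R y a`, `R a x ↔ R a y` for all `a ∈ A0`, then the same holds for all `a ∈ A`.
So for `γ ∈ Γ` fixing `A0`, `y = γ x`, the finite map `p0 = {(a, a) : a ∈ A} ∪ {(x, y)}` is good,
where `p` is good if for `(s, t), (s', t') ∈ p`: `t` is in the orbit of `s` and
`R s s' ↔ R t t'` for all `MInv` `R`. (Then `s = s' ↔ t = t'` by `R = ≤`.)
Extension: `p` good, `z ∈ S`. If `p` is empty map `z` to `z`. Otherwise we look for `w` in the orbit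
`O` of `z` with `R z b ↔ R w b'`, `R b z ↔ R b' w` for all `(b, b') ∈ p`, `R` `MInv`. Lower conditions
on `w`: `R b' w` (if `R b z`), not `R w b'` (if not `R z b`); each defines an up set of `O`. Upper
conditions: `R w b'` (if `R z b`), not `R b' w` (if not `R b z`); down sets. Both kinds occur (take
`R` = True). Among the finitely many up sets one is the smallest, among the finitely many down sets
one is the smallest (`O` is linear). So it is enough to satisfy one lower condition
`L (b', w)` and one upper condition `U (w, b1')`. Let `T (s, t)` say: there is `u ∈ O` with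
`L (s, u)` and `U (u, t)`. `T` is `MInv` and `T (b, b1)` holds (with `u = z`), so `T (b', b1')`
holds. The back direction: the inverse of a good map is good. Now apply `S_BF`. -/
def S_SK : Prop := ∀ (S : Type) [Countable S] (Γ : Subgroup (Equiv.Perm S)) (lt : S → S → Prop),
  (∃ (n : ℕ) (f : S → S → Fin n), ∀ s t s' t', f s t = f s' t' → ∃ γ ∈ Γ, γ s = s' ∧ γ t = t') →
  (∀ s t, lt s t → ∃ γ ∈ Γ, γ s = t) →
  (∀ γ ∈ Γ, ∀ s t, lt s t → lt (γ s) (γ t)) →
  (∀ s, ¬ lt s s) → (∀ s t u, lt s t → lt t u → lt s u) →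
  (∀ s, ∀ γ ∈ Γ, lt s (γ s) ∨ s = γ s ∨ lt (γ s) s) →
  ∃ k : ℕ, ∀ (A : Finset S) (x : S), ∃ A0 : Finset S, A0 ⊆ A ∧ A0.card ≤ k ∧
    ∀ γ ∈ Γ, (∀ a ∈ A0, γ a = a) →
    ∃ δ : Equiv.Perm S, (∀ s, ∃ γ' ∈ Γ, δ s = γ' s) ∧
      (∀ R : S → S → Prop, MInv Γ lt R → ∀ s t, R s t ↔ R (δ s) (δ t)) ∧
      (∀ a ∈ A, δ a = a) ∧ δ x = γ x

/-- GL1 (hypotheses: `S_BAS`, `S_BM`, `S_SK`). `S` = the quotient of `P` by `Blk c`, `Γ` = the group of
the permutations of `S` induced by `Aut c`; `lt U V`: `U ≠ V` and there are `x ∈ U`, `y ∈ V` with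
`c x y`, `x ≤ y`. By `S_BM`, if `lt U V` then `x' ≤ y'` for all `x' ∈ U`, `y' ∈ V` with
`c x' y'`. `lt` is invariant, irreflexive. If `V = γ U`, `U ≠ V` then (`x ∈ U`, `g x ∈ V` of one colour
and comparable) `lt U V` or `lt V U`; not both. If `lt U V`, then (`Tr`) `V = γ U`. Transitive:
`U`, `V = g U`, `W = g' U`, `x ∈ U`, `x ≤ g x`, `g x ≤ g' x`; `U ≠ W` since not both `lt U V`, `lt V U`.
`S_SK` gives `k`. Given `A`, `x` take `A0 ⊆ A` a set of representatives of the set of blocks obtained
from `S_SK` for the set of the blocks of `A` and the block of `x`. For `g` as in the statement the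
permutation `γ` of `S` induced by `g` fixes these blocks; let `δ` be as in `S_SK`, and `d y` = a
representative of `δ [y]`. The relation between `y` and `z`: for `u, v : P` let `R_(u,v) (U, V)`: there
are `y, z` with `c u y`, `c v z`, not `Blk y z`, `y ≤ z`, `U ≤ [y]`, `[z] ≤ V` (where `≤` is `=` or
`lt`). It is `MInv`. Claim: if `U ≠ V`, `y0 ∈ U`, `z0 ∈ V`, `c u y0`, `c v z0` then
`R_(u,v) (U, V) ↔ y0 ≤ z0`. (←) clear. (→) if `U ≠ [y]` then `y0 ≤ y`, otherwise `y0`, `y` are in one
block and of one colour; if `V ≠ [z]` then `z ≤ z0`, otherwise `z`, `z0` are in one block and of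
one colour; the four cases follow from transitivity and the last clause of `S_BAS` (and its variant
for elements below). Apply it with `u = y`, `v = z` to `([y], [z])` and to `([y'], [z'])`. -/
def S_GL1 : Prop := ∀ (P : Type) [PartialOrder P] [Countable P] (c : P → P → Prop), Equivalence c →
  Tr c → FO c → ∃ k : ℕ, ∀ (A : Finset P) (x : P), ∃ A0 : Finset P, A0 ⊆ A ∧ A0.card ≤ k ∧
    ∀ g : P ≃o P, Aut c g → (∀ a ∈ A0, Blk c a (g a)) →
    ∃ d : P → P, (∀ y z, Blk c y z ↔ Blk c (d y) (d z)) ∧ (∀ z, ∃ y, Blk c z (d y)) ∧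
      (∀ y, ∃ h : P ≃o P, Aut c h ∧ Blk c (h y) (d y)) ∧
      (∀ y z y' z', c y y' → c z z' → Blk c (d y) y' → Blk c (d z) z' → ¬ Blk c y z →
        (y ≤ z ↔ y' ≤ z')) ∧
      (∀ a ∈ A, Blk c a (d a)) ∧ Blk c (g x) (d x)

/-- UNI (hypothesis: `S_BAS`). By `FO` there are finitely many orbits of `Aut c` on `P`; `g ∈ Aut c`
induces an isomorphism from the block of `x` to the block of `g x` which respects colours and
carries `KK k` over; `KK k` implies `KK k'` for `k ≤ k'`. Take the maximum. -/
def S_UNI : Prop := ∀ (P : Type) [PartialOrder P] (c : P → P → Prop), Equivalence c → FO c →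
  (∀ x, KProp (rb c x)) → ∃ k : ℕ, ∀ x, KK k (rb c x)

/-- GL (hypotheses: `S_BAS`, `S_GL1`, `S_UNI`). Let `k1` be from `S_GL1`, `k2` from `S_UNI`. Given `A`,
`x`. `A1` from `S_GL1`.
Case 1: no `a ∈ A` with `Blk x a`. `A0 = A1`. Let `g ∈ Aut c` fix `A0`; `d` from `S_GL1`. Define `h` on
`P`: on the block of `x` as `g` (maps it onto the block of `d x`); on the blocks of the `a ∈ A`
as the identity; on each other block `U` choose (one choice for each block!) `h_U ∈ Aut c` with
`h_U U` = the block of `d y`, `y ∈ U`, and use `h_U`. So on each block `h` is the restriction of an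
element of `Aut c` which maps it onto the block given by `d`. `h` is a bijection (injective: blocks go to
different blocks; surjective since `d` is onto up to `Blk`). `h` preserves colours. `y ≤ z ↔ h y ≤ h z`
in one block clear, in different blocks by the clause for `d`. `h` fixes `A`, `h x = g x`.
Case 2: `Blk x a` for some `a ∈ A`. `A0` = `A2 ∪ {a}`, where `A2` is from `KK k2 (rb c x)` for
`{b ∈ A : Blk x b}` and `x`. Let `g ∈ Aut c` fix `A0`. It fixes `a`, so it maps the block of `x` to
itself, its restriction is in `Aut (rb c x)`, so there is `h0 ∈ Aut (rb c x)` fixing the elements of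
`A` in the block with `h0 x = g x`. Let `h` be `h0` on the block and the identity elsewhere. It is an
order automorphism by the last clause of `S_BAS`, in `Aut c`, fixes `A`, `h x = g x`. -/
def S_GL : Prop := ∀ (P : Type) [PartialOrder P] [Countable P] (c : P → P → Prop), Equivalence c →
  Tr c → FO c → (∀ x, KProp (rb c x)) → KProp c

/-- BFO (hypothesis: `S_BAS`). An element of `Aut c` or `WAut c` which maps an element of the
block of `x` into this block maps the block to itself and restricts. For the last clause: the value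
`f u v` is not taken on pairs in a block (as `WAut c` preserves `Blk`), and
`{i : Fin (n + 1) // i ≠ f u v}` has `n` elements. -/
def S_BFO : Prop := ∀ (P : Type) [PartialOrder P] (c : P → P → Prop), Equivalence c → ∀ x,
  Equivalence (rb c x) ∧ (FO c → FO (rb c x)) ∧ (FW P → FW {y : P // Blk c x y}) ∧
  (∀ n, WFO (n + 1) c → (∃ u v, ¬ Blk c u v) → WFO n (rb c x))

/-- MAIN (from all the pieces above; done by helper901). -/
def S_MAIN : Prop := ∀ (P : Type) [PartialOrder P] [Countable P] (c : P → P → Prop), Equivalence c →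
  FO c → FW P → KProp c

/-- ISO (hypotheses: `S_STAR`, `S_BF`). Put `r = 2 k + 2`. For a finite set `p` of pairs of elements of
`N × M` let `G p` say: for all `σ : Fin r → N × M` with values in `p`, `R (fst ∘ σ) (snd ∘ σ)`. By
`comp` a tuple of length `≤ r` is the same as an `r` tuple with repetitions. Write `A` for the first
coordinates, `p a` for the partner of `a` (unique by `ord`).
(0) Every `b : Fin r → M` has `a` with `R a b` (`start`, then `back` for each coordinate).
(1) If all subtuples of length `≤ k + 1` of `p` are `R` related then `G p`: let `(a, b)` be an `r`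
tuple of pairs of `p`; by (0) `R a' b`. For each set `I` of at most `k + 1` indices `R a_I b_I` and
`R a'_I b_I`, so by `orbit` some `g` maps `a_I` to `a'_I`. By `S_STAR` (applied to `c = True`,
the set of the `a_i` and the map `a_i ↦ a'_i`; well defined by pairs) there is `g` with `g a = a'`,
so `R a b` by `aut`.
Forth: `G p`, `x ∈ N`. `A0 ⊆ A` from `KK k` for `(A, x)`. By `forth` (tuple enumerating `A0`) there is `y`
with `R (A0 x) (B0 y)` (`B0` the partners). Let `C ⊆ A`, `|C| ≤ k`. `R (A0 C) (B0 p(C))` by `G p`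
(length `≤ 2 k`), so by `back` there is `x'` with `R (A0 C x') (B0 p(C) y)`. `R (A0 x') (B0 y)`, so by
`orbit` some `g` fixes `A0` and `g x = x'`. By `KK` some `h` fixes `A` with `h x = x'`. By `aut` for
`h⁻¹`: `R (A0 C x) (B0 p(C) y)`. So all tuples of length `≤ k + 1` of `p ∪ {(x, y)}` are `R` related;
by (1) it is good.
Back: `G p`, `y ∈ M`. For `A' ⊆ A` with `|A'| ≤ 2 k` let `L A' = {x : R (A' x) (p(A') y)}`; by
`back`, `orbit`, `aut` it is nonempty and an orbit of the pointwise stabilizer of `A'`;
`A' ⊆ A''` implies `L A'' ⊆ L A'`. Choose `A0 ⊆ A` with `|A0| ≤ k` and `L A0` minimal for inclusion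
(finitely many subsets of `A`). Let `x ∈ L A0`. `A1 ⊆ A` from `KK k` for `(A, x)`. Take
`x' ∈ L (A0 ∪ A1)` and `A2 ⊆ A0 ∪ A1`, `|A2| ≤ k`, from `KK k` for `(A0 ∪ A1, x')`. Then
`L A2 = L (A0 ∪ A1) ⊆ L A0`, so they are equal by minimality, so `x ∈ L (A0 ∪ A1) ⊆ L A1` and
`L A1` = the orbit of `x` over `A1` = the orbit of `x` over `A`; so
`L A0 = L (A0 ∪ A1) ⊆ L A1` is contained in the orbit of `x` over `A`. Now let `C ⊆ A`, `|C| ≤ k`.
Take `x'' ∈ L (A0 ∪ C) ⊆ L A0`: there is `h` fixing `A` with `h x = x''`, so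
`R (A0 C x) (B0 p(C) y)`. By (1) `p ∪ {(x, y)}` is good.
`G ∅` holds. Apply `S_BF`; the order is preserved by `ord` (`r ≥ 2`). -/
def S_ISO : Prop := ∀ (N : Type) [PartialOrder N] [Countable N] (k : ℕ),
  KK k (fun _ _ : N => True) → ∀ (M : Type) [Countable M] (le : M → M → Prop)
  (R : (Fin (2 * k + 2) → N) → (Fin (2 * k + 2) → M) → Prop),
  Peb le (2 * k + 2) R → ∃ e : N ≃ M, ∀ x y, x ≤ y ↔ le (e x) (e y)

/-- ISOL (no hypotheses). Formulas which define the orbits. From
`Pool/Agent/R546/RN/Ryll.lean` (on main): `oligomorphic_of_omegaCategorical'`, `all_isol`,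
`exists_aut`, `realized`, `st_of_typeOf` and so on. -/
def S_ISOL : Prop := ∀ (N : Type) [PartialOrder N] [FirstOrder.Language.order.Structure N]
  [FirstOrder.Language.order.OrderedStructure N] [Countable N] [Nonempty N],
  Pool.Agent.R603.OmegaCategorical FirstOrder.Language.order N → ∀ r : ℕ,
  ∃ (n : ℕ) (φ : Fin n → FirstOrder.Language.order.Formula (Fin r)), ∀ a : Fin r → N,
    ∃ i, (φ i).Realize a ∧ ∀ a' : Fin r → N, (φ i).Realize a' ↔
      ∃ g : N ≃o N, ∀ j, g (a j) = a' j

/-- PEB (hypothesis: `S_ISOL`). Let `φ_i` be as in `S_ISOL`; we may drop the `i` with no realization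
in `N` and repetitions (or choose for each orbit one index: `ind a`, with `ind (g a) = ind a`).
`R a b`: `M ⊨ φ_(ind a) (b)`. `T0`: (start) `∃ x̄ φ_i`; (forth) for `a`, `i`, `x`, with
`a' = update a i x`: `∀ x̄ (φ_(ind a) (x̄) → ∃ y, φ_(ind a') (update x̄ i y))`; (back)
`∀ x̄ (φ_(ind a) (x̄) → ∀ y, ⋁_{x} φ_(ind (update a i x)) (update x̄ i y))`: a finite disjunction;
(comp) `∀ x̄ (φ_(ind a) (x̄) → φ_(ind (a ∘ σ)) (x̄ ∘ σ))`; (ord)
`∀ x̄ (φ_(ind a) (x̄) → ±(x_i ≤ x_j) ∧ ±(x_i = x_j))`; (orbit)
`∀ x̄ ¬ (φ_i (x̄) ∧ φ_j (x̄))` for indices of different orbits. All are true in `N`, finitely many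
(they depend only on `ind a`, ...). -/
def S_PEB : Prop := ∀ (N : Type) [PartialOrder N] [FirstOrder.Language.order.Structure N]
  [FirstOrder.Language.order.OrderedStructure N] [Countable N] [Nonempty N],
  Pool.Agent.R603.OmegaCategorical FirstOrder.Language.order N → ∀ r : ℕ,
  ∃ T0 : Finset FirstOrder.Language.order.Sentence,
    (↑T0 : Set FirstOrder.Language.order.Sentence) ⊆ FirstOrder.Language.order.completeTheory N ∧
    ∀ (M : Type) [FirstOrder.Language.order.Structure M],
      M ⊨ (↑T0 : FirstOrder.Language.order.Theory) →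
      ∃ R : (Fin r → N) → (Fin r → M) → Prop,
        Peb (fun x y : M => FirstOrder.Language.Structure.RelMap (L := FirstOrder.Language.order)
          (FirstOrder.Language.leSymb : FirstOrder.Language.order.Relations 2) ![x, y]) r R

/-- FIN (no hypotheses). The theory of a finite structure is finitely axiomatized: with
`e : Fin n ≃ M` take the sentence
`∃ x_1 … x_n (all different, ±(x_i ≤ x_j), ∀ y, y is one of them)`; each model is isomorphic
to `M`. (`M` may be empty.) -/
def S_FIN : Prop := ∀ (M : Type) [FirstOrder.Language.order.Structure M], Finite M →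
  ∃ T0 : Finset FirstOrder.Language.order.Sentence,
    (↑T0 : Set FirstOrder.Language.order.Sentence) ⊆ FirstOrder.Language.order.completeTheory M ∧
    ∀ φ ∈ FirstOrder.Language.order.completeTheory M,
      (↑T0 : FirstOrder.Language.order.Theory) ⊨ᵇ φ

/-- LAST (hypotheses: `S_MAIN`, `S_ISO`, `S_PEB`, `S_FIN`). The frozen statement. `M` finite: `S_FIN`.
`M` infinite: by Löwenheim and Skolem (`exists_elementarySubstructure_card_eq`) an elementary
substructure `N` of cardinality `ℵ₀` (with the induced order; antichains of `N` are antichains of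
`M`). `completeTheory N = completeTheory M`. `OmegaCategorical`: a countable model `B` of this theory is
infinite (sentences for at least `n` elements), so of cardinality `ℵ₀`, use `Categorical`. By
`oligomorphic_of_omegaCategorical'` (`Pool/Agent/R546/RN/Ryll.lean`) for 2 tuples:
`FO (fun _ _ => True)`. `S_MAIN` gives `KK k (fun _ _ => True)`. `S_PEB` with `r = 2 k + 2` gives
`T0`. A (nonempty) model `M'` of `T0` has a countable elementary substructure `M''` (or is itself
finite), which is a model of `T0`, so by `S_ISO` isomorphic to `N`, so it satisfies `φ`, so `M'` too. -/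
def S_LAST : Prop := ∀ (M : Type) [PartialOrder M] [FirstOrder.Language.order.Structure M]
      [FirstOrder.Language.order.OrderedStructure M],
      Cardinal.Categorical Cardinal.aleph0.{0} (FirstOrder.Language.order.completeTheory M) →
      (∃ n : ℕ, ∀ s : Finset M, IsAntichain (· ≤ ·) (s : Set M) → s.card ≤ n) →
      ∃ T0 : Finset FirstOrder.Language.order.Sentence,
        (↑T0 : Set FirstOrder.Language.order.Sentence) ⊆ FirstOrder.Language.order.completeTheory M ∧
        ∀ φ ∈ FirstOrder.Language.order.completeTheory M,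
          (↑T0 : FirstOrder.Language.order.Theory) ⊨ᵇ φ

end Run7.h901.PO
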